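import Pool.Agent.Y158.FQ.Eqv2

/-!
# The covering fields of `t ^ ℓ = u ^ r g(u)` and of its étale cover `y ^ ℓ = g(b x ^ ℓ)` agree
-/

set_option autoImplicit false
set_option linter.all false

open Polynomial FF

namespace Pool.Agent.K1H74.SC

open Pool.Agent.Y157.PS Pool.Agent.Y948.PS Pool.Agent.Y158.FQ

section val

variable {κ Ω : Type} [Field κ] [IsAlgClosed κ] [CharZero κ] [Field Ω] [Algebra κ Ω] {ℓ : ℕ}
  [hp : Fact ℓ.Prime]

/-- the uniformisers of the cover have the values of functions of the quotient -/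
theorem exists_pi2 {r n₀ : ℕ} (hr : ¬ ℓ ∣ r) (hrn : ¬ ℓ ∣ r + n₀) {B : Finset κ}
    (h0B : (0 : κ) ∉ B) (hcard : B.card = ℓ * n₀) {X Y T : Ω} {b c' : κ} (hb : b ≠ 0)
    (hc' : c' ≠ 0) (hY : Y ^ ℓ = ∏ e ∈ B, (X - algebraMap κ Ω e))
    (hTe : T = algebraMap κ Ω c' * Y * X ^ r)
    (W : ValuationSubring Ω) (hκ : ∀ c : κ, algebraMap κ Ω c ∈ W) {K : Subfield Ω}
    (hKκ : ∀ c : κ, algebraMap κ Ω c ∈ K) (hKU : algebraMap κ Ω b * X ^ ℓ ∈ K) (hKT : T ∈ K)
    {π₁ : Ω} (hπ : W.valuation π₁ < 1)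
    (h : (∃ e ∈ B, π₁ = Y ∧ IsU W ((X - algebraMap κ Ω e) / Y ^ ℓ)) ∨
      (∃ a₀ : κ, a₀ ∉ B ∧ π₁ = X - algebraMap κ Ω a₀) ∨ π₁ = X⁻¹) :
    ∃ π ∈ K, W.valuation π = W.valuation π₁ := by
  have hℓ0 : ℓ ≠ 0 := hp.out.ne_zero
  have hvc : ∀ {a : κ}, a ≠ 0 → W.valuation (algebraMap κ Ω a) = 1 := fun ha =>
    Pool.Agent.Y809.PS.val_const hκ ha
  have hone : ∀ {t : Ω}, W.valuation (t ^ ℓ) = 1 → W.valuation t = 1 := by
    intro t ht
    rw [map_pow] at ht
    exact (pow_eq_one_iff_of_nonneg zero_le hℓ0).1 ht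
  rcases h with ⟨e, he, rfl, hu⟩ | ⟨a₀, ha₀, rfl⟩ | rfl
  · -- a branch point
    have he0 : e ≠ 0 := fun h0 => h0B (h0 ▸ he)
    have h1 := (isU_iff W).1 hu
    by_cases hY0 : π₁ = 0
    · rw [hY0, zero_pow hℓ0, div_zero, map_zero] at h1
      exact absurd h1 zero_ne_one
    have hv0 : W.valuation (π₁ ^ ℓ) ≠ 0 := (_root_.map_ne_zero _).2 (pow_ne_zero _ hY0)
    rw [map_div₀, div_eq_one_iff_eq hv0] at h1
    have h2 : W.valuation (X - algebraMap κ Ω e) < 1 := by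
      rw [h1, map_pow]
      exact pow_lt_one₀ zero_le hπ hℓ0
    have h3 : W.valuation X = 1 := by
      have h4 : X = algebraMap κ Ω e + (X - algebraMap κ Ω e) := by ring
      rw [h4, Valuation.map_add_eq_of_lt_left _ (by rwa [hvc he0]), hvc he0]
    refine ⟨T, hKT, ?_⟩
    rw [hTe, map_mul, map_mul, map_pow, hvc hc', h3, one_pow, one_mul, mul_one]
  · by_cases ha0 : a₀ = 0
    · -- above `0`
      rw [ha0, map_zero, sub_zero] at hπ ⊢
      by_cases hX0 : X = 0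
      · exact ⟨0, zero_mem _, by rw [hX0]⟩
      have hv0 : W.valuation X ≠ 0 := (_root_.map_ne_zero _).2 hX0
      have h1 : W.valuation Y = 1 := by
        apply hone
        rw [hY, map_prod]
        refine Finset.prod_eq_one fun e he => ?_
        have he0 : e ≠ 0 := fun h0 => h0B (h0 ▸ he)
        rw [Valuation.map_sub_eq_of_lt_right _ (by rwa [hvc he0]), hvc he0]
      obtain ⟨r', q, hrq⟩ := exists_inv_mod hr
      refine ⟨T ^ r' / (algebraMap κ Ω b * X ^ ℓ) ^ q, div_mem (pow_mem hKT _)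
        (pow_mem hKU _), ?_⟩
      rw [map_div₀, map_pow, hTe, map_mul, map_mul, map_pow, hvc hc', h1, one_mul, one_mul,
        ← pow_mul, hrq, map_pow, map_mul, hvc hb, one_mul, map_pow, ← pow_mul, pow_add, pow_one,
        mul_div_assoc, div_self (pow_ne_zero _ hv0), mul_one]
    · -- a point which is not a branch point
      have hA : W.valuation (algebraMap κ Ω a₀) = 1 := hvc ha0
      have hA0 : algebraMap κ Ω a₀ ≠ 0 := by
        intro h0
        rw [h0, map_zero] at hA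
        exact zero_ne_one hA
      refine ⟨algebraMap κ Ω b * X ^ ℓ - algebraMap κ Ω (b * a₀ ^ ℓ),
        sub_mem hKU (hKκ _), ?_⟩
      have h1 := prod_mu ℓ (κ := κ) (X / algebraMap κ Ω a₀)
      have h2 : algebraMap κ Ω b * X ^ ℓ - algebraMap κ Ω (b * a₀ ^ ℓ) =
          algebraMap κ Ω b * (algebraMap κ Ω a₀ ^ ℓ *
          ∏ e ∈ nthRootsFinset ℓ (1 : κ), (X / algebraMap κ Ω a₀ - algebraMap κ Ω e)) := by
        rw [h1, map_mul, map_pow, div_pow]
        have : algebraMap κ Ω a₀ ^ ℓ ≠ 0 := pow_ne_zero _ hA0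
        field_simp
      have h3 : X / algebraMap κ Ω a₀ - 1 = (X - algebraMap κ Ω a₀) / algebraMap κ Ω a₀ := by
        rw [sub_div, div_self hA0]
      have h4 : W.valuation (X / algebraMap κ Ω a₀ - 1) =
          W.valuation (X - algebraMap κ Ω a₀) := by
        rw [h3, map_div₀, hA, div_one]
      have h5 : (1 : κ) ∈ nthRootsFinset ℓ (1 : κ) := by
        rw [mem_nthRootsFinset hp.out.pos, one_pow]
      classical
      rw [h2, ← Finset.mul_prod_erase _ _ h5, map_one, map_mul, hvc hb, one_mul, map_mul,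
        map_pow, hA, one_pow, one_mul, map_mul, h4, map_prod, Finset.prod_eq_one, mul_one]
      intro e he
      have h6 : (1 : κ) - e ≠ 0 := sub_ne_zero.2 (Finset.ne_of_mem_erase he).symm
      have h7 : X / algebraMap κ Ω a₀ - algebraMap κ Ω e =
          algebraMap κ Ω (1 - e) + (X / algebraMap κ Ω a₀ - 1) := by
        rw [map_sub, map_one]; ring
      rw [h7, Valuation.map_add_eq_of_lt_left, hvc h6]
      rw [hvc h6, h4]
      exact hπ
  · -- above infinity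
    by_cases hX0 : X = 0
    · exact ⟨0, zero_mem _, by rw [hX0, inv_zero]⟩
    have hv0 : W.valuation X ≠ 0 := (_root_.map_ne_zero _).2 hX0
    have h1 : 1 < W.valuation X := by
      rw [map_inv₀] at hπ
      exact (inv_lt_one₀ (zero_lt_iff.2 hv0)).1 hπ
    have h2 : W.valuation Y = W.valuation X ^ n₀ := by
      have h3 : W.valuation (Y ^ ℓ) = (W.valuation X ^ n₀) ^ ℓ := by
        rw [hY, map_prod, Finset.prod_congr rfl (g := fun _ => W.valuation X), Finset.prod_const,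
          hcard, ← pow_mul, mul_comm]
        intro e _
        refine Valuation.map_sub_eq_of_lt_left _ ?_
        exact lt_of_le_of_lt ((W.valuation_le_one_iff _).2 (hκ e)) h1
      rw [map_pow] at h3
      exact (pow_left_inj₀ zero_le zero_le hℓ0).1 h3
    obtain ⟨r', q, hrq⟩ := exists_inv_mod hrn
    refine ⟨(T ^ r' / (algebraMap κ Ω b * X ^ ℓ) ^ q)⁻¹, inv_mem (div_mem (pow_mem hKT _)
      (pow_mem hKU _)), ?_⟩
    rw [map_inv₀, map_inv₀]
    congr 1
    rw [map_div₀, map_pow, hTe, map_mul, map_mul, map_pow, hvc hc', one_mul, h2, ← pow_add,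
      add_comm n₀ r, ← pow_mul, hrq, map_pow, map_mul, hvc hb, one_mul, map_pow, ← pow_mul,
      pow_add, pow_one, mul_div_assoc, div_self (pow_ne_zero _ hv0), mul_one]

end val

theorem maxPro_eq2 {κ Ω : Type} [Field κ] [IsAlgClosed κ] [CharZero κ] [Field Ω] [IsAlgClosed Ω]
    [Algebra κ Ω] {ℓ : ℕ} [hp : Fact ℓ.Prime] {r n₀ : ℕ} (hr : ¬ ℓ ∣ r) (hrn : ¬ ℓ ∣ r + n₀)
    (hn₀ : 0 < n₀) {B : Finset κ} (h0B : (0 : κ) ∉ B) (hcard : B.card = ℓ * n₀) {X Y T U : Ω}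
    {b c' : κ} (hb : b ≠ 0) (hc' : c' ≠ 0) (hY : Y ^ ℓ = ∏ e ∈ B, (X - algebraMap κ Ω e))
    (hTe : T = algebraMap κ Ω c' * Y * X ^ r) (hUe : U = algebraMap κ Ω b * X ^ ℓ)
    (hT : T ^ ℓ ∈ IntermediateField.adjoin κ {U}) (hX : Transcendental κ X)
    (halg : Algebra.IsAlgebraic (IntermediateField.adjoin κ {U}) Ω) (z : Ω) :
    z ∈ maxPro ℓ κ (IntermediateField.adjoin (IntermediateField.adjoin κ {X}) {Y}) Ω ↔
      z ∈ maxPro ℓ κ (IntermediateField.adjoin (IntermediateField.adjoin κ {U}) {T}) Ω := by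
  have hℓ0 : ℓ ≠ 0 := hp.out.ne_zero
  have hb' : algebraMap κ Ω b ≠ 0 := (_root_.map_ne_zero _).2 hb
  have hc'' : algebraMap κ Ω c' ≠ 0 := (_root_.map_ne_zero _).2 hc'
  have hX0 : X ≠ 0 := by
    rintro rfl
    exact hX isAlgebraic_zero
  have hUt : Transcendental κ U := by
    intro h
    apply hX
    have h1 : X ^ ℓ = algebraMap κ Ω b⁻¹ * U := by
      rw [hUe, map_inv₀, inv_mul_cancel_left₀ hb']
    refine IsAlgebraic.of_pow hp.out.pos ?_
    rw [h1]
    exact (isAlgebraic_algebraMap _).mul h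
  have hrat₁ := ratF_adj hX
  have hrat₂ := ratF_adj hUt
  have hXR₁ : X ∈ IntermediateField.adjoin κ {X} := IntermediateField.mem_adjoin_simple_self κ X
  have hUR₂ : U ∈ IntermediateField.adjoin κ {U} := IntermediateField.mem_adjoin_simple_self κ _
  have hR : IntermediateField.adjoin κ {U} ≤ IntermediateField.adjoin κ {X} := by
    rw [IntermediateField.adjoin_le_iff, Set.singleton_subset_iff]
    rw [hUe]
    exact mul_mem (IntermediateField.algebraMap_mem _ _) (pow_mem hXR₁ ℓ)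
  haveI halg₁ : Algebra.IsAlgebraic (IntermediateField.adjoin κ {X}) Ω := by
    letI : Algebra (IntermediateField.adjoin κ {U}) (IntermediateField.adjoin κ {X}) :=
      (IntermediateField.inclusion hR).toRingHom.toAlgebra
    haveI : IsScalarTower (IntermediateField.adjoin κ {U}) (IntermediateField.adjoin κ {X})
      Ω := IsScalarTower.of_algebraMap_eq fun _ => rfl
    exact Algebra.IsAlgebraic.tower_top (K := IntermediateField.adjoin κ {U}) _
  haveI : IsAlgClosure (IntermediateField.adjoin κ {X}) Ω := ⟨inferInstance, inferInstance⟩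
  haveI : IsAlgClosure (IntermediateField.adjoin κ {U}) Ω := ⟨inferInstance, inferInstance⟩
  haveI : Normal (IntermediateField.adjoin κ {X}) Ω := IsAlgClosure.normal _ Ω
  haveI : Normal (IntermediateField.adjoin κ {U}) Ω := IsAlgClosure.normal _ Ω
  have hY₁' : Y ^ ℓ = ∏ e ∈ B,
      (algebraMap (IntermediateField.adjoin κ {X}) Ω ⟨X, hXR₁⟩ - algebraMap κ Ω e) := hY
  have hY₁ : Y ^ ℓ = algebraMap (IntermediateField.adjoin κ {X}) Ω
      (∏ e ∈ B, (⟨X, hXR₁⟩ - algebraMap κ (IntermediateField.adjoin κ {X}) e)) := by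
    rw [hY, map_prod]
    rfl
  have hY₂ : T ^ ℓ = algebraMap (IntermediateField.adjoin κ {U}) Ω ⟨T ^ ℓ, hT⟩ := rfl
  obtain ⟨K₁, hK₁⟩ : ∃ K₁ : IntermediateField (IntermediateField.adjoin κ {X}) Ω,
    K₁ = IntermediateField.adjoin (IntermediateField.adjoin κ {X}) {Y} := ⟨_, rfl⟩
  obtain ⟨K₂, hK₂⟩ : ∃ K₂ : IntermediateField (IntermediateField.adjoin κ {U}) Ω,
    K₂ = IntermediateField.adjoin (IntermediateField.adjoin κ {U}) {T} := ⟨_, rfl⟩
  have hκ₁ : ∀ c : κ, algebraMap κ Ω c ∈ K₁ := fun c =>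
    K₁.algebraMap_mem (algebraMap κ (IntermediateField.adjoin κ {X}) c)
  have hκ₂ : ∀ c : κ, algebraMap κ Ω c ∈ K₂ := fun c =>
    K₂.algebraMap_mem (algebraMap κ (IntermediateField.adjoin κ {U}) c)
  have hX₁ : X ∈ K₁ := K₁.algebraMap_mem (⟨X, hXR₁⟩ : IntermediateField.adjoin κ {X})
  have hYm₁ : Y ∈ K₁ := by
    rw [hK₁]; exact IntermediateField.mem_adjoin_simple_self _ _
  have hU₂ : U ∈ K₂ := K₂.algebraMap_mem (⟨U, hUR₂⟩ : IntermediateField.adjoin κ {U})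
  have hU₂' : algebraMap κ Ω b * X ^ ℓ ∈ K₂ := by rw [← hUe]; exact hU₂
  have hXℓ₂ : X ^ ℓ ∈ K₂ := by
    have h1 : X ^ ℓ = algebraMap κ Ω b⁻¹ * U := by
      rw [hUe, map_inv₀, inv_mul_cancel_left₀ hb']
    rw [h1]
    exact mul_mem (hκ₂ _) hU₂
  have hT₂ : T ∈ K₂ := by
    rw [hK₂]; exact IntermediateField.mem_adjoin_simple_self _ _
  have hle : ∀ z ∈ K₂, z ∈ K₁ := by
    intro z hz
    rw [hK₂] at hz
    refine adjoin_le_sub (T := K₁.toSubfield) (fun r => ?_) (fun t ht => ?_) z hz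
    · exact K₁.algebraMap_mem (IntermediateField.inclusion hR r)
    · rw [Set.mem_singleton_iff] at ht
      rw [ht, hTe]
      exact mul_mem (mul_mem (hκ₁ _) hYm₁) (pow_mem hX₁ _)
  rw [← hK₁, ← hK₂]
  -- uniformisers
  have hUU : ∀ W : ValuationSubring Ω, (∀ c : κ, algebraMap κ Ω c ∈ W) → W ≠ ⊤ →
      ∃ π₁ π, Unf K₁ W π₁ ∧ Unf K₂ W π ∧ W.valuation π = W.valuation π₁ := by
    intro W hκ hW
    obtain ⟨π₁, h1, h2, h3, h4⟩ := Pool.Agent.Y809.PS.k0 ℓ κ (IntermediateField.adjoin κ {X}) Ω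
      ⟨X, hXR₁⟩ hrat₁ B (by rw [hcard]; exact dvd_mul_right _ _) (by
        rw [← Finset.card_pos, hcard]; exact Nat.mul_pos hp.out.pos hn₀) Y hY₁' W hκ (by
        by_contra hc
        push Not at hc
        exact hW (top_of_R W hc))
    have hU₁ : Unf K₁ W π₁ := by
      refine ⟨?_, h2, (ValuationSubring.mem_nonunits_iff _).1 h1, ?_⟩
      · rcases h3 with ⟨e, he, rfl, _⟩ | ⟨a, ha, rfl⟩ | rfl
        · exact hYm₁
        · exact sub_mem hX₁ (hκ₁ _)
        · exact inv_mem hX₁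
      · intro z hz hz0
        rw [hK₁] at hz
        obtain ⟨n, hn⟩ := h4 z hz hz0
        refine ⟨n, ?_⟩
        have h5 := (isU_iff W).1 hn
        rw [map_div₀, map_zpow₀] at h5
        rwa [div_eq_one_iff_eq] at h5
        exact zpow_ne_zero _ ((Valuation.pos_iff _).2 h2).ne'
    obtain ⟨π, hπT, hπv⟩ := exists_pi2 hr hrn h0B hcard hb hc' hY hTe W hκ
      (K := K₂.toSubfield) hκ₂ hU₂' hT₂ hU₁.lt h3
    refine ⟨π₁, π, hU₁, ⟨hπT, ?_, by rw [hπv]; exact hU₁.lt, fun z hz hz0 => ?_⟩, hπv⟩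
    · rw [← W.valuation.ne_zero_iff, hπv]
      exact hU₁.pos.ne'
    · rw [hπv]
      exact hU₁.val z (hle z hz) hz0
  have hHU₁ : HU κ K₁ := fun W hκ hW => by
    obtain ⟨π₁, π, h1, h2, h3⟩ := hUU W hκ hW
    exact ⟨π₁, h1⟩
  have hHU₂ : HU κ K₂ := fun W hκ hW => by
    obtain ⟨π₁, π, h1, h2, h3⟩ := hUU W hκ hW
    exact ⟨π, h2⟩
  -- approximation of the elements of `K₁`
  have hApx : ∀ W : ValuationSubring Ω, (∀ c : κ, algebraMap κ Ω c ∈ W) → W ≠ ⊤ →
      ∀ z ∈ K₁, Apx K₂ W z := by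
    intro W hκ hW z hz
    obtain ⟨π₁, π, h1, h2, h3⟩ := hUU W hκ hW
    have hAX : Apx K₂ W X := by
      obtain ⟨n, hn⟩ := h1.val X hX₁ hX0
      refine Apx.root h2 (hres hrat₂ K₂ W hκ hW) hℓ0 (vl hℓ0 W hκ) X (Apx.of_mem hXℓ₂) n ?_
      rw [map_pow, hn, h3, ← zpow_natCast, ← zpow_mul, mul_comm]
    let T' : Subfield Ω :=
      { (ApxS K₂ W).toSubring with
        inv_mem' := fun x hx => Apx.inv hx }
    have hT' : ∀ t, t ∈ T' ↔ Apx K₂ W t := fun t => Iff.rfl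
    have hTκ : ∀ c : κ, algebraMap κ Ω c ∈ T' := fun c => (hT' _).2 (Apx.of_mem (hκ₂ c))
    have hXT' : X ∈ T' := (hT' _).2 hAX
    have hAY : Y ∈ T' := by
      have h5 : Y = T / (algebraMap κ Ω c' * X ^ r) := by
        rw [hTe, eq_div_iff (mul_ne_zero hc'' (pow_ne_zero _ hX0))]
        ring
      rw [h5]
      exact div_mem ((hT' _).2 (Apx.of_mem hT₂)) (mul_mem (hTκ _) (pow_mem hXT' _))
    rw [hK₁] at hz
    rw [← hT']
    refine adjoin_le_sub (T := T') (fun r => ?_) (fun t ht => ?_) z hz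
    · refine adjoin_le_sub (T := T') hTκ (fun t ht => ?_) (r : Ω) r.2
      rw [Set.mem_singleton_iff] at ht
      rw [ht]
      exact hXT'
    · rw [Set.mem_singleton_iff] at ht
      rw [ht]
      exact hAY
  -- the two conditions
  have hMem : Mem ℓ κ K₁ z ↔ Mem ℓ κ K₂ z := by
    have hμ : ∀ ζ : Ω, ζ ^ ℓ = 1 →
        ∃ c : IntermediateField.adjoin κ {U}, algebraMap _ Ω c = ζ := fun ζ =>
      muR (κ := κ) hℓ0 ζ
    have hXℓR : X ^ ℓ ∈ IntermediateField.adjoin κ {U} := by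
      have h1 : X ^ ℓ = algebraMap κ Ω b⁻¹ * U := by
        rw [hUe, map_inv₀, inv_mul_cancel_left₀ hb']
      rw [h1]
      exact mul_mem (IntermediateField.algebraMap_mem _ _) hUR₂
    have hpro : Pro ℓ (IntermediateField.adjoin κ {X}) z ↔
        Pro ℓ (IntermediateField.adjoin κ {U}) z := by
      constructor
      · refine pro_down hμ (u := X) ⟨⟨X ^ ℓ, hXℓR⟩, rfl⟩ (fun σ hσ r => ?_)
        have h1 : (r : Ω) ∈ (RingHom.eqLocusField (σ : Ω →+* Ω) (RingHom.id Ω)) := by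
          refine adjoin_le_sub (fun c => ?_) (fun t ht => ?_) (r : Ω) r.2
          · exact σ.commutes (algebraMap κ (IntermediateField.adjoin κ {U}) c)
          · rw [Set.mem_singleton_iff] at ht
            rw [ht]
            exact hσ
        exact h1
      · exact pro_up (fun r => ⟨IntermediateField.inclusion hR r, rfl⟩)
    unfold Mem
    rw [hpro]
    refine and_congr_right fun _ => forall_congr' fun W => forall_congr' fun hκ =>
      forall_congr' fun hW => ?_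
    obtain ⟨π₁, π, h1, h2, h3⟩ := hUU W hκ hW
    exact apx_trans hle h2 (hApx W hκ hW) z
  have h1 : z ∈ maxPro ℓ κ K₁ Ω ↔ Mem ℓ κ K₁ z := by
    rw [hK₁] at hHU₁ ⊢
    exact ⟨fun h => maxPro_le hrat₁ hY₁ hHU₁ h, fun h => le_maxPro hY₁ hHU₁ h⟩
  have h2 : z ∈ maxPro ℓ κ K₂ Ω ↔ Mem ℓ κ K₂ z := by
    rw [hK₂] at hHU₂ ⊢
    exact ⟨fun h => maxPro_le hrat₂ hY₂ hHU₂ h, fun h => le_maxPro hY₂ hHU₂ h⟩
  rw [h1, h2, hMem]

end Pool.Agent.K1H74.SC
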