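import Mathlib

/-!
# Separability of `g(a x ^ n)`
-/

set_option autoImplicit false
set_option linter.all false

open Polynomial

namespace Pool.Agent.K1H74.SC

theorem coprime_C {K : Type} [Field K] {c : K} (hc : c ≠ 0) (p : K[X]) : IsCoprime p (C c) :=
  ⟨0, C c⁻¹, by rw [zero_mul, zero_add, ← C_mul, inv_mul_cancel₀ hc, C_1]⟩

/-- `g(a x ^ n)` is separable -/
theorem sep_comp {K : Type} [Field K] {G : K[X]} (hG : G.Separable) (hG0 : G.coeff 0 ≠ 0) {n : ℕ}
    (hn : (n : K) ≠ 0) {a : K} (ha : a ≠ 0) : (G.comp (C a * X ^ n)).Separable := by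
  have hn0 : n ≠ 0 := by
    rintro rfl
    exact hn Nat.cast_zero
  unfold Separable at hG ⊢
  rw [derivative_comp, derivative_mul, derivative_C, zero_mul, zero_add, derivative_X_pow]
  have h1 : IsCoprime (G.comp (C a * X ^ n)) ((derivative G).comp (C a * X ^ n)) := by
    obtain ⟨p, q, hpq⟩ := hG
    refine ⟨p.comp (C a * X ^ n), q.comp (C a * X ^ n), ?_⟩
    rw [← mul_comp, ← mul_comp, ← add_comp, hpq, one_comp]
  have h2 : IsCoprime (G.comp (C a * X ^ n)) (X : K[X]) := by
    have h3 : G.comp (C a * X ^ n) = C (G.coeff 0) +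
        X * (C a * X ^ (n - 1) * (G.divX.comp (C a * X ^ n))) := by
      conv_lhs => rw [← divX_mul_X_add G]
      rw [add_comp, mul_comp, X_comp, C_comp]
      have h4 : (X : K[X]) ^ n = X * X ^ (n - 1) := by
        rw [← pow_succ', Nat.sub_add_cancel (Nat.pos_of_ne_zero hn0)]
      rw [h4]
      ring
    rw [h3]
    exact IsCoprime.add_mul_left_left (coprime_C hG0 _).symm _
  refine IsCoprime.mul_right (IsCoprime.mul_right ?_ (IsCoprime.mul_right ?_ ?_)) h1
  · exact coprime_C ha _
  · exact coprime_C hn _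
  · exact h2.pow_right

/-- a separable polynomial over an algebraically closed field is a product of different linear
factors -/
theorem prod_sep {κ : Type} [Field κ] [IsAlgClosed κ] (f : κ[X]) (hf : f.Separable) :
    ∃ B : Finset κ, (∀ e, e ∈ B ↔ f.eval e = 0) ∧ B.card = f.natDegree ∧
      f = C f.leadingCoeff * ∏ e ∈ B, (X - C e) := by
  classical
  have hf0 : f ≠ 0 := hf.ne_zero
  have hnd : f.roots.Nodup := nodup_roots hf
  refine ⟨f.roots.toFinset, fun e => ?_, ?_, ?_⟩
  · rw [Multiset.mem_toFinset, mem_roots hf0, IsRoot.def]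
  · rw [Multiset.toFinset_card_of_nodup hnd]
    exact (splits_iff_card_roots.1 (IsAlgClosed.splits f))
  · have h1 := (IsAlgClosed.splits f).eq_prod_roots
    have h2 : (f.roots.map fun a => X - C a).prod = ∏ e ∈ f.roots.toFinset, (X - C e) := by
      rw [Finset.prod_multiset_map_count]
      refine Finset.prod_congr rfl fun e he => ?_
      rw [Multiset.count_eq_one_of_mem hnd (Multiset.mem_toFinset.1 he), pow_one]
    rw [← h2]
    exact h1

end Pool.Agent.K1H74.SC
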