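import Pool.Agent.K1H74.SC.A1
import Pool.Agent.K1H74.SC.S1
import Pool.Agent.Y158.FQ.Eqv3

/-!
# The geometrically pro-`ℓ` extensions of `d t ^ ℓ = u ^ r G(u)` and of its étale covers agree
-/

set_option autoImplicit false
set_option linter.all false

open Polynomial FF

namespace Pool.Agent.K1H74.SC

open Pool.Agent.Y157.PS Pool.Agent.Y948.PS Pool.Agent.Y158.FQ

section

variable {k F Ω : Type} [Field k] [CharZero k] [Field F] [Field Ω] [Algebra k F] [Algebra F Ω]
  [Algebra k Ω] [IsScalarTower k F Ω] [IsAlgClosed Ω] [Algebra.IsAlgebraic F Ω]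

/-- the covering fields agree -/
theorem geomPro_eq2 {ℓ : ℕ} [hp : Fact ℓ.Prime] {r : ℕ} (hr : ¬ ℓ ∣ r) (G : k[X])
    (hG : G.Separable) (hG0 : G.coeff 0 ≠ 0) (hrn : ¬ ℓ ∣ r + G.natDegree)
    (hdeg : 0 < G.natDegree) {b d : k} (hb : b ≠ 0) (hd : d ≠ 0) (u t : F)
    (hu : Transcendental k u) (hut : algebraMap k F d * t ^ ℓ = u ^ r * aeval u G)
    (hF : IntermediateField.adjoin k {u, t} = (⊤ : IntermediateField k F))
    (halgF : Algebra.IsAlgebraic (IntermediateField.adjoin k {u}) F)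
    (x y : Ω) (hx : algebraMap F Ω u = algebraMap k Ω b * x ^ ℓ)
    (hy : algebraMap F Ω t = y * x ^ r) (z : Ω) :
    z ∈ geomPro ℓ k (IntermediateField.adjoin k {x, y}) Ω ↔ z ∈ geomPro ℓ k F Ω := by
  haveI : IsAlgClosure k (algebraicClosure k Ω) := inferInstance
  haveI : IsAlgClosed (algebraicClosure k Ω) := IsAlgClosure.isAlgClosed k
  haveI : CharZero (algebraicClosure k Ω) :=
    charZero_of_injective_algebraMap (algebraMap k (algebraicClosure k Ω)).injective
  have hℓ0 : ℓ ≠ 0 := hp.out.ne_zero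
  have hbΩ : algebraMap k Ω b ≠ 0 := (_root_.map_ne_zero _).2 hb
  have hdΩ : algebraMap k Ω d ≠ 0 := (_root_.map_ne_zero _).2 hd
  have huΩ : Transcendental k (algebraMap F Ω u) :=
    (transcendental_algebraMap_iff (R := k) (algebraMap F Ω).injective (a := u)).2 hu
  have hxt : Transcendental k x := by
    intro h
    apply huΩ
    rw [hx]
    exact (isAlgebraic_algebraMap _).mul (h.pow ℓ)
  have hx0 : x ≠ 0 := by
    rintro rfl
    exact hxt isAlgebraic_zero
  have hxt' : Transcendental (algebraicClosure k Ω) x := trans_up hxt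
  -- the polynomial
  set f : k[X] := G.comp (C b * X ^ ℓ) with hf
  have hfsep : f.Separable := sep_comp hG hG0 (by exact_mod_cast hℓ0) hb
  have hfdeg : f.natDegree = ℓ * G.natDegree := by
    rw [hf, natDegree_comp, natDegree_C_mul_X_pow _ _ hb, mul_comm]
  have hlc0 : f.leadingCoeff ≠ 0 := leadingCoeff_ne_zero.2 hfsep.ne_zero
  obtain ⟨B, hBm, hBc, hBp⟩ := prod_sep (f.map (algebraMap k (algebraicClosure k Ω)))
    (hfsep.map (f := algebraMap k (algebraicClosure k Ω)))
  have hcard : B.card = ℓ * G.natDegree := by rw [hBc, natDegree_map, hfdeg]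
  have h0B : (0 : algebraicClosure k Ω) ∉ B := by
    intro h
    rw [hBm, ← coeff_zero_eq_eval_zero, coeff_map, map_eq_zero, coeff_zero_eq_eval_zero, hf,
      eval_comp, eval_mul, eval_pow, eval_X, zero_pow hℓ0, mul_zero,
      ← coeff_zero_eq_eval_zero] at h
    exact hG0 h
  -- the equation over `k`
  have hyf : algebraMap k Ω d * y ^ ℓ = algebraMap k Ω (b ^ r) * aeval x f := by
    have h1 := congrArg (algebraMap F Ω) hut
    rw [map_mul, map_mul, map_pow, map_pow, ← aeval_algebraMap_apply,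
      ← IsScalarTower.algebraMap_apply, hx, hy] at h1
    have h2 : aeval x f = aeval (algebraMap k Ω b * x ^ ℓ) G := by
      rw [hf, aeval_comp, map_mul, aeval_C, map_pow, aeval_X]
    rw [h2]
    have h3 : x ^ (r * ℓ) ≠ 0 := pow_ne_zero _ hx0
    apply mul_right_cancel₀ h3
    rw [map_pow]
    calc algebraMap k Ω d * y ^ ℓ * x ^ (r * ℓ) = algebraMap k Ω d * (y * x ^ r) ^ ℓ := by
          rw [mul_pow, ← pow_mul, mul_assoc]
      _ = (algebraMap k Ω b * x ^ ℓ) ^ r * aeval (algebraMap k Ω b * x ^ ℓ) G := h1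
      _ = _ := by
          rw [mul_pow, ← pow_mul, mul_comm ℓ r]
          ring
  -- the constant
  obtain ⟨δ, hδ⟩ := IsAlgClosed.exists_pow_nat_eq
    (algebraMap k (algebraicClosure k Ω) (d / (b ^ r * f.leadingCoeff))) hp.out.pos
  have hδ0 : δ ≠ 0 := by
    rintro rfl
    rw [zero_pow hℓ0] at hδ
    exact (_root_.map_ne_zero _).2 (div_ne_zero hd (mul_ne_zero (pow_ne_zero _ hb) hlc0)) hδ.symm
  have hδΩ : (δ : Ω) ^ ℓ = algebraMap k Ω (d / (b ^ r * f.leadingCoeff)) := by
    have h1 := congrArg (algebraMap (algebraicClosure k Ω) Ω) hδ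
    rw [map_pow, ← IsScalarTower.algebraMap_apply] at h1
    exact h1
  have hprod : aeval x f = algebraMap k Ω f.leadingCoeff *
      ∏ e ∈ B, (x - algebraMap (algebraicClosure k Ω) Ω e) := by
    have h1 := congrArg (aeval x) hBp
    rw [aeval_map_algebraMap, map_mul, aeval_C, map_prod, leadingCoeff_map,
      ← IsScalarTower.algebraMap_apply] at h1
    rw [h1]
    congr 1
    refine Finset.prod_congr rfl fun e _ => ?_
    rw [map_sub, aeval_X, aeval_C]
  have hY : ((δ : Ω) * y) ^ ℓ = ∏ e ∈ B, (x - algebraMap (algebraicClosure k Ω) Ω e) := by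
    have h1 : algebraMap k Ω f.leadingCoeff ≠ 0 := (_root_.map_ne_zero _).2 hlc0
    rw [mul_pow, hδΩ, map_div₀, map_mul]
    rw [hprod] at hyf
    have h2 : algebraMap k Ω (b ^ r) ≠ 0 := (_root_.map_ne_zero _).2 (pow_ne_zero _ hb)
    rw [div_mul_eq_mul_div, hyf, div_eq_iff (mul_ne_zero h2 h1)]
    ring
  -- algebraicity
  have halg : Algebra.IsAlgebraic
      (IntermediateField.adjoin (algebraicClosure k Ω) {algebraMap F Ω u}) Ω := by
    let R : IntermediateField k Ω := (IntermediateField.adjoin (algebraicClosure k Ω)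
      {algebraMap F Ω u}).restrictScalars k
    have h2 : Algebra.IsAlgebraic R Ω := alg_over halgF R
      (IntermediateField.mem_adjoin_simple_self (algebraicClosure k Ω) _)
    exact h2
  have hT : ((δ : Ω) * algebraMap F Ω t) ^ ℓ ∈
      IntermediateField.adjoin (algebraicClosure k Ω) {algebraMap F Ω u} := by
    have hκ : ∀ c : k, algebraMap k Ω c ∈
        IntermediateField.adjoin (algebraicClosure k Ω) {algebraMap F Ω u} := fun c => by
      rw [IsScalarTower.algebraMap_apply k (algebraicClosure k Ω) Ω]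
      exact IntermediateField.algebraMap_mem _ _
    have huR := IntermediateField.mem_adjoin_simple_self (algebraicClosure k Ω) (algebraMap F Ω u)
    have h1 := congrArg (algebraMap F Ω) hut
    rw [map_mul, map_mul, map_pow, map_pow, ← aeval_algebraMap_apply,
      ← IsScalarTower.algebraMap_apply] at h1
    have h2 : algebraMap F Ω t ^ ℓ = (algebraMap k Ω d)⁻¹ *
        (algebraMap F Ω u ^ r * aeval (algebraMap F Ω u) G) := by
      rw [← h1, inv_mul_cancel_left₀ hdΩ]
    rw [mul_pow, hδΩ, h2]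
    refine mul_mem (hκ _) (mul_mem (inv_mem (hκ _)) (mul_mem (pow_mem huR _) ?_))
    rw [aeval_eq_sum_range]
    refine sum_mem fun i _ => ?_
    rw [Algebra.smul_def]
    exact mul_mem (hκ _) (pow_mem huR _)
  have h2 := maxPro_eq2 (κ := algebraicClosure k Ω) hr hrn hdeg h0B hcard (X := x)
    (Y := (δ : Ω) * y) (T := (δ : Ω) * algebraMap F Ω t) (U := algebraMap F Ω u)
    (b := algebraMap k (algebraicClosure k Ω) b) (c' := 1) ((_root_.map_ne_zero _).2 hb)
    one_ne_zero hY (by rw [map_one, hy]; ring)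
    (by rw [hx, ← IsScalarTower.algebraMap_apply]) hT hxt' halg z
  -- the first field
  obtain ⟨E₁, hE₁⟩ : ∃ E₁ : IntermediateField k Ω, E₁ = IntermediateField.adjoin k {x, y} :=
    ⟨_, rfl⟩
  have hx₁ : x ∈ E₁ := by rw [hE₁]; exact IntermediateField.subset_adjoin k _ (by simp)
  have hy₁ : y ∈ E₁ := by rw [hE₁]; exact IntermediateField.subset_adjoin k _ (by simp)
  have h3 := maxPro_geom (Ω := Ω) ℓ k (adjoin_pair_top hE₁ hx₁ hy₁) δ hδ0 z
  have h6 := maxPro_geom (Ω := Ω) ℓ k hF δ hδ0 z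
  rw [← hE₁, ← h3, ← h6]
  exact h2

end

end Pool.Agent.K1H74.SC
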