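import Pool.Agent.K1H74.SC.A2
import Pool.Agent.Y158.FQ.Hil

/-!
# The twist of the étale cover given by a section
-/

set_option autoImplicit false
set_option linter.all false

open Polynomial FF

namespace Pool.Agent.K1H74.SC

open Pool.Agent.Y157.PS Pool.Agent.Y948.PS Pool.Agent.Y158.FQ

section

variable {k F Ω : Type} [Field k] [CharZero k] [Field F] [Field Ω] [Algebra k F] [Algebra F Ω]
  [Algebra k Ω] [IsScalarTower k F Ω] [IsAlgClosed Ω] [Algebra.IsAlgebraic F Ω]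

/-- the generators of the function field of the twist -/
theorem exists_twist {ℓ : ℕ} [hp : Fact ℓ.Prime] {r : ℕ} (hr : ¬ ℓ ∣ r) (G : k[X])
    (hG : G.Separable) (hG0 : G.coeff 0 ≠ 0) (hrn : ¬ ℓ ∣ r + G.natDegree)
    (hdeg : 0 < G.natDegree) {d : k} (hd : d ≠ 0) (u t : F)
    (hu : Transcendental k u) (hut : algebraMap k F d * t ^ ℓ = u ^ r * aeval u G)
    (hF : IntermediateField.adjoin k {u, t} = (⊤ : IntermediateField k F))
    (halgF : Algebra.IsAlgebraic (IntermediateField.adjoin k {u}) F)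
    (N : IntermediateField F Ω) (hN : geomPro ℓ k F Ω ≤ N)
    (S : (algebraicClosure k Ω ≃ₐ[k] algebraicClosure k Ω) →* (N ≃ₐ[F] N)) (hcont : Continuous S)
    (hcompat : ∀ σ (c : algebraicClosure k Ω) (z : N), (z : Ω) = (c : Ω) →
      (S σ z : Ω) = (σ c : Ω)) :
    ∃ (x y : N) (b : k), b ≠ 0 ∧ (x : Ω) ≠ 0 ∧
      algebraMap F Ω u = algebraMap k Ω b * (x : Ω) ^ ℓ ∧
      algebraMap F Ω t = (y : Ω) * (x : Ω) ^ r ∧ (∀ σ, S σ x = x) ∧ (∀ σ, S σ y = y) := by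
  have hℓ0 : ℓ ≠ 0 := hp.out.ne_zero
  haveI : IsAlgClosure k (algebraicClosure k Ω) := inferInstance
  have huΩ : Transcendental k (algebraMap F Ω u) :=
    (transcendental_algebraMap_iff (R := k) (algebraMap F Ω).injective (a := u)).2 hu
  obtain ⟨x₀, hx₀⟩ := IsAlgClosed.exists_pow_nat_eq (algebraMap F Ω u) hp.out.pos
  have hx₀0 : x₀ ≠ 0 := by
    rintro rfl
    rw [zero_pow hℓ0] at hx₀
    exact huΩ (by rw [← hx₀]; exact isAlgebraic_zero)
  have hmem : x₀ ∈ geomPro ℓ k F Ω := by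
    have h1 := geomPro_eq2 (Ω := Ω) hr G hG hG0 hrn hdeg (b := 1) one_ne_zero hd u t hu hut hF
      halgF x₀ (algebraMap F Ω t / x₀ ^ r) (by rw [map_one, one_mul, hx₀])
      (by rw [div_mul_cancel₀ _ (pow_ne_zero _ hx₀0)]) x₀
    refine h1.1 ?_
    have hxE : x₀ ∈ IntermediateField.adjoin k {x₀, algebraMap F Ω t / x₀ ^ r} :=
      IntermediateField.subset_adjoin k _ (by simp)
    exact (geomPro ℓ k (IntermediateField.adjoin k {x₀, algebraMap F Ω t / x₀ ^ r})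
      Ω).algebraMap_mem ⟨x₀, hxE⟩
  have hcN : ∀ c : algebraicClosure k Ω, (c : Ω) ∈ N := fun c => hN (const_geomPro ℓ k c)
  let X₀ : N := ⟨x₀, hN hmem⟩
  have hX₀0 : X₀ ≠ 0 := fun h => hx₀0 (congrArg Subtype.val h)
  have hX₀ℓ : X₀ ^ ℓ = algebraMap F N u := Subtype.ext hx₀
  have hroot : ∀ σ, (S σ X₀ / X₀) ^ ℓ = 1 := by
    intro σ
    rw [div_pow, ← map_pow, hX₀ℓ, (S σ).commutes, div_self]
    rw [← hX₀ℓ]
    exact pow_ne_zero _ hX₀0
  have hκm : ∀ σ, ((S σ X₀ / X₀ : N) : Ω) ∈ algebraicClosure k Ω := by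
    intro σ
    rw [mem_algebraicClosure_iff']
    refine IsIntegral.of_pow hp.out.pos ?_
    have h1 : ((S σ X₀ / X₀ : N) : Ω) ^ ℓ = 1 := congrArg (fun w : N => (w : Ω)) (hroot σ)
    rw [h1]
    exact isIntegral_one
  let ξ : (algebraicClosure k Ω ≃ₐ[k] algebraicClosure k Ω) → algebraicClosure k Ω :=
    fun σ => ⟨((S σ X₀ / X₀ : N) : Ω), hκm σ⟩
  let cN : algebraicClosure k Ω → N := fun c => ⟨(c : Ω), hcN c⟩
  have hcNS : ∀ σ c, S σ (cN c) = cN (σ c) := fun σ c => Subtype.ext (hcompat σ c (cN c) rfl)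
  have hξN : ∀ σ, cN (ξ σ) * X₀ = S σ X₀ := by
    intro σ
    have h1 : cN (ξ σ) = S σ X₀ / X₀ := Subtype.ext rfl
    rw [h1, div_mul_cancel₀ _ hX₀0]
  have hξ1 : ∀ σ, ξ σ ^ ℓ = 1 := by
    intro σ
    apply Subtype.ext
    have h1 : ((S σ X₀ / X₀ : N) : Ω) ^ ℓ = 1 := congrArg (fun w : N => (w : Ω)) (hroot σ)
    exact h1
  have hcNmul : ∀ a b, cN (a * b) = cN a * cN b := fun a b => Subtype.ext rfl
  have hcNinj : ∀ a b, cN a = cN b → a = b := fun a b h =>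
    Subtype.ext (congrArg (fun w : N => (w : Ω)) h)
  have hmul : ∀ σ τ, ξ (σ * τ) = ξ σ * σ (ξ τ) := by
    intro σ τ
    apply hcNinj
    apply mul_right_cancel₀ hX₀0
    rw [hξN, map_mul, hcNmul, mul_right_comm, hξN, ← hcNS]
    change S σ (S τ X₀) = _
    rw [← hξN τ, map_mul, mul_comm]
  have hcontξ : ∃ E : IntermediateField k (algebraicClosure k Ω), FiniteDimensional k E ∧
      ∀ σ ∈ E.fixingSubgroup, ξ σ = 1 := by
    obtain ⟨E, hE, hE'⟩ := cont_fix S hcont X₀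
    refine ⟨E, hE, fun σ hσ => ?_⟩
    apply hcNinj
    apply mul_right_cancel₀ hX₀0
    rw [hξN, hE' σ hσ]
    have h1 : cN 1 = 1 := Subtype.ext rfl
    rw [h1, one_mul]
  obtain ⟨c, hc0, hcξ, t₀, ht₀⟩ := exists_kum (k := k) (κ := algebraicClosure k Ω) hp.out.pos ξ
    hξ1 hmul hcontξ
  have hcN0 : cN c ≠ 0 := fun h => hc0 (hcNinj c 0 (h.trans (Subtype.ext rfl)))
  have ht₀0 : t₀ ≠ 0 := by
    rintro rfl
    rw [map_zero] at ht₀
    exact pow_ne_zero ℓ hc0 ht₀.symm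
  have hfix : ∀ σ, S σ (X₀ / cN c) = X₀ / cN c := by
    intro σ
    have h1 : σ c = ξ σ * c := by rw [← hcξ, div_mul_cancel₀ _ hc0]
    rw [map_div₀, hcNS, h1, hcNmul, ← hξN]
    have h2 : cN (ξ σ) ≠ 0 := by
      intro h3
      have h4 : ξ σ = 0 := hcNinj _ 0 (h3.trans (Subtype.ext rfl))
      have h5 := hξ1 σ
      rw [h4, zero_pow hℓ0] at h5
      exact zero_ne_one h5
    rw [mul_div_mul_left _ _ h2]
  have hx0 : ((X₀ / cN c : N) : Ω) ≠ 0 := by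
    intro h
    exact div_ne_zero hX₀0 hcN0 (Subtype.ext h)
  have hx0' : (X₀ / cN c : N) ≠ 0 := div_ne_zero hX₀0 hcN0
  refine ⟨X₀ / cN c, algebraMap F N t / (X₀ / cN c) ^ r, t₀, ht₀0, hx0, ?_, ?_, hfix, ?_⟩
  · have h1 : algebraMap k Ω t₀ = (c : Ω) ^ ℓ := by
      rw [IsScalarTower.algebraMap_apply k (algebraicClosure k Ω) Ω, ht₀, map_pow]
      rfl
    have h2 : ((X₀ / cN c : N) : Ω) = x₀ / (c : Ω) := rfl
    have hc0' : (c : Ω) ≠ 0 := fun h => hc0 (Subtype.ext h)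
    rw [h1, h2, div_pow, mul_div_cancel₀ _ (pow_ne_zero _ hc0'), hx₀]
  · have h1 : ((algebraMap F N t / (X₀ / cN c) ^ r : N) : Ω) =
        algebraMap F Ω t / ((X₀ / cN c : N) : Ω) ^ r := rfl
    rw [h1, div_mul_cancel₀ _ (pow_ne_zero _ hx0)]
  · intro σ
    rw [map_div₀, map_pow, (S σ).commutes, hfix]

end

end Pool.Agent.K1H74.SC
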