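import Mathlib

/-!
# Valuation rings and constants
-/

set_option autoImplicit false
set_option linter.all false

open Polynomial

namespace Pool.Agent.K1H74.SC

section val

variable {k N : Type} [Field k] [Field N] [Algebra k N] (W : ValuationSubring N)

theorem aeval_mem (hW : ∀ c : k, algebraMap k N c ∈ W) {w : N} (hw : w ∈ W) (p : k[X]) :
    aeval w p ∈ W := by
  rw [aeval_eq_sum_range]
  refine sum_mem fun i _ => ?_
  rw [Algebra.smul_def]
  exact mul_mem (hW _) (pow_mem hw _)

theorem mul_non {a b : N} (ha : a ∈ W) (hb : b ∈ W.nonunits) : a * b ∈ W.nonunits := by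
  rw [ValuationSubring.mem_nonunits_iff] at hb ⊢
  rw [← ValuationSubring.valuation_le_one_iff] at ha
  rw [map_mul]
  exact (mul_le_of_le_one_left' ha).trans_lt hb

theorem non_mem' {a : N} (ha : a ∈ W.nonunits) : a ∈ W := by
  rw [ValuationSubring.mem_nonunits_iff] at ha
  rw [← ValuationSubring.valuation_le_one_iff]
  exact ha.le

theorem aeval_sub_non (hW : ∀ c : k, algebraMap k N c ∈ W) {w : N} (hw : w ∈ W.nonunits)
    (p : k[X]) : aeval w p - algebraMap k N (p.coeff 0) ∈ W.nonunits := by
  have h1 : aeval w p = aeval w p.divX * w + algebraMap k N (p.coeff 0) := by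
    conv_lhs => rw [← divX_mul_X_add p]
    rw [map_add, map_mul, aeval_X, aeval_C]
  rw [h1, add_sub_cancel_right]
  exact mul_non W (aeval_mem W hW (non_mem' W hw) _) hw

/-- a zero of a polynomial in the residue field -/
theorem aeval_non_of_root (hW : ∀ c : k, algebraMap k N c ∈ W) {w : N} {e : k}
    (hw : w - algebraMap k N e ∈ W.nonunits) (p : k[X]) (hp : p.eval e = 0) :
    aeval w p ∈ W.nonunits := by
  obtain ⟨q, hq⟩ := dvd_iff_isRoot.2 (show p.IsRoot e from hp)
  have h1 : w ∈ W := by
    have : w = (w - algebraMap k N e) + algebraMap k N e := by ring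
    rw [this]
    exact add_mem (non_mem' W hw) (hW e)
  rw [hq, map_mul, map_sub, aeval_X, aeval_C, mul_comm]
  exact mul_non W (aeval_mem W hW h1 q) hw

theorem pow_non_iff {w : N} {n : ℕ} (hn : n ≠ 0) : w ^ n ∈ W.nonunits ↔ w ∈ W.nonunits := by
  rw [ValuationSubring.mem_nonunits_iff, ValuationSubring.mem_nonunits_iff, map_pow]
  exact pow_lt_one_iff_of_nonneg zero_le hn

theorem const_mul_non_iff (hW : ∀ c : k, algebraMap k N c ∈ W) {w : N} {b : k} (hb : b ≠ 0) :
    algebraMap k N b * w ∈ W.nonunits ↔ w ∈ W.nonunits := by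
  constructor
  · intro h
    have h1 : w = algebraMap k N b⁻¹ * (algebraMap k N b * w) := by
      rw [map_inv₀, inv_mul_cancel_left₀ ((_root_.map_ne_zero _).2 hb)]
    rw [h1]
    exact mul_non W (hW _) h
  · exact mul_non W (hW _)

/-- one of the factors is in the maximal ideal -/
theorem exists_factor {κ : Type} [Field κ] [IsAlgClosed κ] [Algebra κ N] (y : N) (p : κ[X])
    (hp : p.Monic) (h : aeval y p ∈ W.nonunits) :
    ∃ a : κ, p.eval a = 0 ∧ y - algebraMap κ N a ∈ W.nonunits := by
  have h1 := (IsAlgClosed.splits p).eq_prod_roots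
  rw [hp.leadingCoeff, C_1, one_mul] at h1
  have h2 : ∀ s : Multiset κ, aeval y (s.map fun a => X - C a).prod ∈ W.nonunits →
      ∃ a ∈ s, y - algebraMap κ N a ∈ W.nonunits := by
    intro s
    induction s using Multiset.induction_on with
    | empty =>
      intro h
      rw [Multiset.map_zero, Multiset.prod_zero, map_one, ValuationSubring.mem_nonunits_iff,
        map_one] at h
      exact absurd h (lt_irrefl _)
    | cons a s ih =>
      intro h
      by_cases ha : y - algebraMap κ N a ∈ W.nonunits
      · exact ⟨a, Multiset.mem_cons_self _ _, ha⟩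
      · rw [Multiset.map_cons, Multiset.prod_cons, map_mul, map_sub, aeval_X, aeval_C] at h
        obtain ⟨a', ha', h'⟩ := ih (by
          rw [ValuationSubring.mem_nonunits_iff] at h ha ⊢
          rw [map_mul] at h
          rw [not_lt] at ha
          by_contra hc
          rw [not_lt] at hc
          exact absurd h (not_lt.2 (one_le_mul ha hc)))
        exact ⟨a', Multiset.mem_cons_of_mem ha', h'⟩
  rw [h1] at h
  obtain ⟨a, ha, h3⟩ := h2 _ h
  exact ⟨a, (mem_roots'.1 ha).2, h3⟩

end val

section dvr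

variable {A k : Type} [CommRing A] [IsDomain A] [IsDiscreteValuationRing A]
    [Field k] [Algebra A k] [IsFractionRing A k]

/-- a power of the uniformiser which is a unit -/
theorem zpow_unit {ϖ : A} (hϖ : Irreducible ϖ) {t : A} (ht : IsUnit t) {n : ℤ}
    (h : algebraMap A k ϖ ^ n = algebraMap A k t) : n = 0 := by
  have hinj := IsFractionRing.injective A k
  have hϖ0 : algebraMap A k ϖ ≠ 0 := by
    rw [Ne, map_eq_zero_iff _ hinj]
    exact hϖ.ne_zero
  have key : ∀ (n : ℕ) (t : A), IsUnit t → algebraMap A k ϖ ^ n = algebraMap A k t → n = 0 := by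
    intro n t ht h
    rw [← map_pow] at h
    have h1 := hinj h
    by_contra hn
    have h2 : IsUnit (ϖ ^ n) := by rw [h1]; exact ht
    exact hϖ.not_isUnit ((isUnit_pow_iff hn).1 h2)
  obtain ⟨n, rfl | rfl⟩ := n.eq_nat_or_neg
  · rw [zpow_natCast] at h
    rw [key n t ht h]
    rfl
  · obtain ⟨t, rfl⟩ := ht
    rw [zpow_neg, zpow_natCast] at h
    have h1 : algebraMap A k ϖ ^ n = algebraMap A k ((t⁻¹ : Aˣ) : A) := by
      have h2 : algebraMap A k ((t⁻¹ : Aˣ) : A) = (algebraMap A k (t : A))⁻¹ := by
        refine (inv_eq_of_mul_eq_one_right ?_).symm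
        rw [← map_mul, Units.mul_inv, map_one]
      rw [h2, ← h, inv_inv]
    rw [key n _ (t⁻¹).isUnit h1]
    rfl

end dvr

end Pool.Agent.K1H74.SC
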