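import Pool.Agent.K1H74.SC.A3
import Pool.Agent.K1H74.SC.N1
import Pool.Agent.Y158.FQ.Ext

/-!
# Sections over the function field of the twist
-/

set_option autoImplicit false
set_option linter.all false

open Polynomial FF

namespace Pool.Agent.K1H74.SC

open Pool.Agent.Y157.PS Pool.Agent.Y948.PS Pool.Agent.Y158.FQ

section

variable {k F Ω : Type} [Field k] [CharZero k] [Field F] [Field Ω] [Algebra k F] [Algebra F Ω]
  [Algebra k Ω] [IsScalarTower k F Ω] [IsAlgClosed Ω] [Algebra.IsAlgebraic F Ω]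

/-- the field `N`, over the function field `F₁` of the twist -/
def Nup (N : IntermediateField F Ω) (F₁ : IntermediateField k Ω) (h : ∀ z ∈ F₁, z ∈ N) :
    IntermediateField F₁ Ω :=
  { N.toSubfield with algebraMap_mem' := fun r => h r r.2 }

def eup (N : IntermediateField F Ω) (F₁ : IntermediateField k Ω) (h : ∀ z ∈ F₁, z ∈ N) :
    N ≃+* Nup N F₁ h :=
  { toFun := fun z => ⟨z.1, z.2⟩
    invFun := fun z => ⟨z.1, z.2⟩
    left_inv := fun z => rfl
    right_inv := fun z => rfl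
    map_mul' := fun z w => rfl
    map_add' := fun z w => rfl }

/-- the section, over the function field of the twist -/
noncomputable def Sup (N : IntermediateField F Ω) (F₁ : IntermediateField k Ω)
    (h : ∀ z ∈ F₁, z ∈ N)
    (S : (algebraicClosure k Ω ≃ₐ[k] algebraicClosure k Ω) →* (N ≃ₐ[F] N))
    (hfix : ∀ σ, ∀ z : N, (z : Ω) ∈ F₁ → S σ z = z) :
    (algebraicClosure k Ω ≃ₐ[k] algebraicClosure k Ω) →* (Nup N F₁ h ≃ₐ[F₁] Nup N F₁ h) where
  toFun σ := AlgEquiv.ofRingEquiv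
    (f := ((eup N F₁ h).symm.trans (S σ : N ≃+* N)).trans (eup N F₁ h)) (fun r => by
      change (eup N F₁ h) (S σ ((eup N F₁ h).symm (algebraMap F₁ (Nup N F₁ h) r))) =
        algebraMap F₁ (Nup N F₁ h) r
      rw [hfix σ _ r.2, RingEquiv.apply_symm_apply])
  map_one' := by
    ext z
    change ((eup N F₁ h) (S 1 ((eup N F₁ h).symm z)) : Ω) = _
    rw [map_one]
    rfl
  map_mul' σ τ := by
    ext z
    change ((eup N F₁ h) (S (σ * τ) ((eup N F₁ h).symm z)) : Ω) = _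
    rw [map_mul]
    rfl

theorem Sup_apply (N : IntermediateField F Ω) (F₁ : IntermediateField k Ω)
    (h : ∀ z ∈ F₁, z ∈ N)
    (S : (algebraicClosure k Ω ≃ₐ[k] algebraicClosure k Ω) →* (N ≃ₐ[F] N))
    (hfix : ∀ σ, ∀ z : N, (z : Ω) ∈ F₁ → S σ z = z) (σ : algebraicClosure k Ω ≃ₐ[k] algebraicClosure k Ω)
    (z : Nup N F₁ h) :
    Sup N F₁ h S hfix σ z = eup N F₁ h (S σ ((eup N F₁ h).symm z)) := rfl

theorem Sup_cont (N : IntermediateField F Ω) (F₁ : IntermediateField k Ω)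
    (h : ∀ z ∈ F₁, z ∈ N)
    (S : (algebraicClosure k Ω ≃ₐ[k] algebraicClosure k Ω) →* (N ≃ₐ[F] N)) (hcont : Continuous S)
    (hfix : ∀ σ, ∀ z : N, (z : Ω) ∈ F₁ → S σ z = z) : Continuous (Sup N F₁ h S hfix) := by
  refine cont_of_fix _ fun z => ?_
  obtain ⟨E, hE, hE'⟩ := cont_fix S hcont ((eup N F₁ h).symm z)
  refine ⟨E, hE, fun σ hσ => ?_⟩
  rw [Sup_apply, hE' σ hσ, RingEquiv.apply_symm_apply]

theorem comap_non' {M N : Type} [Field M] [Field N] (e : N ≃+* M) (O : ValuationSubring M)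
    (z : N) : z ∈ (O.comap (e : N →+* M)).nonunits ↔ e z ∈ O.nonunits := by
  rw [ValuationSubring.mem_nonunits_iff_or, ValuationSubring.mem_nonunits_iff_or,
    ValuationSubring.mem_comap]
  change z = 0 ∨ e z⁻¹ ∉ O ↔ _
  rw [map_inv₀, map_eq_zero_iff e e.injective]

/-- transport of the conclusion from the function field of the twist -/
theorem transport {ℓ : ℕ} (N : IntermediateField F Ω) (F₁ : IntermediateField k Ω)
    (h : ∀ z ∈ F₁, z ∈ N) (hFF : ∀ z : F, algebraMap F Ω z ∈ F₁)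
    (S : (algebraicClosure k Ω ≃ₐ[k] algebraicClosure k Ω) →* (N ≃ₐ[F] N))
    (hfix : ∀ σ, ∀ z : N, (z : Ω) ∈ F₁ → S σ z = z)
    (hgeo : ∀ z : Ω, z ∈ geomPro ℓ k F₁ Ω ↔ z ∈ geomPro ℓ k F Ω)
    (P P' : ValuationSubring N → Prop) (P₁ P₁' : ValuationSubring (Nup N F₁ h) → Prop)
    (hP : ∀ W : ValuationSubring (Nup N F₁ h),
      (∀ c : k, algebraMap F₁ (Nup N F₁ h) (algebraMap k F₁ c) ∈ W) → P₁ W →
      P (W.comap (eup N F₁ h : N →+* Nup N F₁ h)))
    (hP' : ∀ W : ValuationSubring N, (∀ c : k, algebraMap F N (algebraMap k F c) ∈ W) → P' W →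
      (∀ σ, ∀ z : N, (z : Ω) ∈ geomPro ℓ k F Ω → (S σ z ∈ W ↔ z ∈ W)) →
      P₁' (W.comap ((eup N F₁ h).symm : Nup N F₁ h →+* N)))
    (hex : ∃ W : ValuationSubring (Nup N F₁ h),
      (((∀ c : k, algebraMap F₁ (Nup N F₁ h) (algebraMap k F₁ c) ∈ W) ∧ P₁ W ∧
       (∀ z : F₁, algebraMap F₁ (Nup N F₁ h) z ∈ W →
          ∃ c : k, algebraMap F₁ (Nup N F₁ h) (z - algebraMap k F₁ c) ∈ W.nonunits)) ∧
       ∀ σ, ∀ z : Nup N F₁ h, (z : Ω) ∈ geomPro ℓ k F₁ Ω →
        (Sup N F₁ h S hfix σ z ∈ W ↔ z ∈ W)) ∧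
      ∀ W' : ValuationSubring (Nup N F₁ h),
        (∀ c : k, algebraMap F₁ (Nup N F₁ h) (algebraMap k F₁ c) ∈ W') → P₁' W' →
        (∀ σ, ∀ z : Nup N F₁ h, (z : Ω) ∈ geomPro ℓ k F₁ Ω →
          (Sup N F₁ h S hfix σ z ∈ W' ↔ z ∈ W')) →
        ∀ z : Nup N F₁ h, (z : Ω) ∈ geomPro ℓ k F₁ Ω → (z ∈ W' ↔ z ∈ W)) :
    ∃ W : ValuationSubring N,
      (((∀ c : k, algebraMap F N (algebraMap k F c) ∈ W) ∧ P W ∧
       (∀ z : F, algebraMap F N z ∈ W →
          ∃ c : k, algebraMap F N (z - algebraMap k F c) ∈ W.nonunits)) ∧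
       ∀ σ, ∀ z : N, (z : Ω) ∈ geomPro ℓ k F Ω → (S σ z ∈ W ↔ z ∈ W)) ∧
      ∀ W' : ValuationSubring N,
        (∀ c : k, algebraMap F N (algebraMap k F c) ∈ W') → P' W' →
        (∀ σ, ∀ z : N, (z : Ω) ∈ geomPro ℓ k F Ω → (S σ z ∈ W' ↔ z ∈ W')) →
        ∀ z : N, (z : Ω) ∈ geomPro ℓ k F Ω → (z ∈ W' ↔ z ∈ W) := by
  obtain ⟨W, ⟨⟨h1, h2, h3⟩, h4⟩, h5⟩ := hex
  have hc : ∀ c : k, eup N F₁ h (algebraMap F N (algebraMap k F c)) =
      algebraMap F₁ (Nup N F₁ h) (algebraMap k F₁ c) := fun c => Subtype.ext (by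
    change algebraMap F Ω (algebraMap k F c) = algebraMap k Ω c
    rw [← IsScalarTower.algebraMap_apply])
  refine ⟨W.comap (eup N F₁ h : N →+* Nup N F₁ h), ⟨⟨fun c => ?_, hP W h1 h2, fun z hz => ?_⟩,
    fun σ z hz => ?_⟩, fun W' b1 b2 b3 z hz => ?_⟩
  · rw [ValuationSubring.mem_comap]
    change eup N F₁ h (algebraMap F N (algebraMap k F c)) ∈ W
    rw [hc]
    exact h1 c
  · have hz' : algebraMap F₁ (Nup N F₁ h) ⟨algebraMap F Ω z, hFF z⟩ ∈ W := hz
    obtain ⟨c, hc'⟩ := h3 _ hz'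
    refine ⟨c, (comap_non' _ _ _).2 ?_⟩
    have h6 : eup N F₁ h (algebraMap F N (z - algebraMap k F c)) =
        algebraMap F₁ (Nup N F₁ h) (⟨algebraMap F Ω z, hFF z⟩ - algebraMap k F₁ c) := by
      rw [map_sub, map_sub, map_sub, hc]
      rfl
    rw [h6]
    exact hc'
  · rw [ValuationSubring.mem_comap, ValuationSubring.mem_comap]
    exact h4 σ (eup N F₁ h z) ((hgeo _).2 hz)
  · rw [ValuationSubring.mem_comap]
    refine h5 (W'.comap ((eup N F₁ h).symm : Nup N F₁ h →+* N)) (fun c => ?_) (hP' W' b1 b2 b3)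
      (fun σ w hw => ?_) (eup N F₁ h z) ((hgeo _).2 hz)
    · rw [ValuationSubring.mem_comap]
      change (eup N F₁ h).symm (algebraMap F₁ (Nup N F₁ h) (algebraMap k F₁ c)) ∈ W'
      rw [← hc, RingEquiv.symm_apply_apply]
      exact b1 c
    · rw [ValuationSubring.mem_comap, ValuationSubring.mem_comap]
      exact b3 σ ((eup N F₁ h).symm w) ((hgeo _).1 hw)

omit [Algebra.IsAlgebraic F Ω] in
/-- a fixed function whose power is a constant modulo the maximal ideal of a fixed place -/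
theorem root_of_fixed {ℓ : ℕ} (hℓ : 0 < ℓ) (N : IntermediateField F Ω)
    (hN : geomPro ℓ k F Ω ≤ N)
    (S : (algebraicClosure k Ω ≃ₐ[k] algebraicClosure k Ω) →* (N ≃ₐ[F] N))
    (hcompat : ∀ σ (c : algebraicClosure k Ω) (z : N), (z : Ω) = (c : Ω) →
      (S σ z : Ω) = (σ c : Ω)) (W : ValuationSubring N)
    (hW : ∀ c : k, algebraMap F N (algebraMap k F c) ∈ W)
    (hst : ∀ σ, ∀ z : N, (z : Ω) ∈ geomPro ℓ k F Ω → (S σ z ∈ W ↔ z ∈ W))
    (y : N) (hy : ∀ σ, S σ y = y) (hyM : (y : Ω) ∈ geomPro ℓ k F Ω) (c₀ : k)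
    (h : y ^ ℓ - algebraMap F N (algebraMap k F c₀) ∈ W.nonunits) : ∃ c : k, c ^ ℓ = c₀ := by
  haveI : IsAlgClosure k (algebraicClosure k Ω) := inferInstance
  haveI : IsAlgClosed (algebraicClosure k Ω) := IsAlgClosure.isAlgClosed k
  have hcN : ∀ c : algebraicClosure k Ω, (c : Ω) ∈ N := fun c => hN (const_geomPro ℓ k c)
  let ι : algebraicClosure k Ω →+* N :=
    { toFun := fun c => ⟨(c : Ω), hcN c⟩
      map_one' := Subtype.ext rfl
      map_mul' := fun _ _ => Subtype.ext rfl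
      map_zero' := Subtype.ext rfl
      map_add' := fun _ _ => Subtype.ext rfl }
  letI : Algebra (algebraicClosure k Ω) N := ι.toAlgebra
  have hι : ∀ c : algebraicClosure k Ω, ((algebraMap (algebraicClosure k Ω) N c : N) : Ω) = c :=
    fun c => rfl
  have hιk : ∀ c : k, algebraMap (algebraicClosure k Ω) N
      (algebraMap k (algebraicClosure k Ω) c) = algebraMap F N (algebraMap k F c) := fun c =>
    Subtype.ext (by
      change algebraMap k Ω c = algebraMap F Ω (algebraMap k F c)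
      rw [← IsScalarTower.algebraMap_apply])
  have hWκ : ∀ c : algebraicClosure k Ω, algebraMap (algebraicClosure k Ω) N c ∈ W := by
    intro c
    have hc : IsIntegral k c := (Algebra.IsAlgebraic.isAlgebraic (R := k) c).isIntegral
    obtain ⟨p, hp, hpc⟩ := hc
    refine alg_mem ((algebraMap F N).comp (algebraMap k F)) W hW _ p hp ?_
    have h1 : (algebraMap F N).comp (algebraMap k F) =
        (algebraMap (algebraicClosure k Ω) N).comp (algebraMap k (algebraicClosure k Ω)) := by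
      ext c
      exact congrArg Subtype.val (hιk c).symm
    rw [h1, ← hom_eval₂, hpc, map_zero]
  obtain ⟨a, ha, hya⟩ := exists_factor (κ := algebraicClosure k Ω) W y
    (X ^ ℓ - C (algebraMap k (algebraicClosure k Ω) c₀)) (monic_X_pow_sub_C _ hℓ.ne') (by
      rw [map_sub, map_pow, aeval_X, aeval_C, hιk]
      exact h)
  rw [eval_sub, eval_pow, eval_X, eval_C, sub_eq_zero] at ha
  have hfix : ∀ σ : algebraicClosure k Ω ≃ₐ[k] algebraicClosure k Ω, σ a = a := by
    intro σ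
    have h5 : S σ (y - algebraMap (algebraicClosure k Ω) N a) ∈ W.nonunits := by
      rw [ValuationSubring.mem_nonunits_iff_or] at hya ⊢
      rcases hya with h | h
      · left
        rw [h, map_zero]
      · right
        rw [← map_inv₀]
        intro h6
        apply h
        refine (hst σ _ ?_).1 h6
        exact inv_mem (sub_mem hyM (const_geomPro ℓ k a))
    have h6 : S σ (algebraMap (algebraicClosure k Ω) N a) =
        algebraMap (algebraicClosure k Ω) N (σ a) := Subtype.ext (hcompat σ a _ rfl)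
    rw [map_sub, hy, h6] at h5
    by_contra hne
    have h7 : algebraMap (algebraicClosure k Ω) N (σ a - a) ∈ W.nonunits := by
      rw [ValuationSubring.mem_nonunits_iff] at h5 hya ⊢
      have h8 : algebraMap (algebraicClosure k Ω) N (σ a - a) =
          (y - algebraMap (algebraicClosure k Ω) N a) -
            (y - algebraMap (algebraicClosure k Ω) N (σ a)) := by
        rw [map_sub]
        ring
      rw [h8]
      exact (Valuation.map_sub _ _ _).trans_lt (max_lt hya h5)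
    have h8 := mul_non W (hWκ (σ a - a)⁻¹) h7
    rw [← map_mul, inv_mul_cancel₀ (sub_ne_zero.2 hne), map_one,
      ValuationSubring.mem_nonunits_iff, map_one] at h8
    exact lt_irrefl _ h8
  have hgal : IsGalois k (algebraicClosure k Ω) := by
    have hn : Normal k (algebraicClosure k Ω) := IsAlgClosure.normal k _
    exact ⟨⟩
  obtain ⟨c, hc⟩ := IntermediateField.mem_bot.1 ((InfiniteGalois.mem_bot_iff_fixed a).2 hfix)
  refine ⟨c, (algebraMap k (algebraicClosure k Ω)).injective ?_⟩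
  rw [map_pow, ← ha]
  congr 1

end

end Pool.Agent.K1H74.SC
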