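import Pool.Agent.K1H74.SC.A4
import Pool.Agent.R925.L.Fin
import Pool.Agent.Y157.PS.Ind2
import Pool.Agent.Y157.PS.Sup

/-!
# The two cases
-/

set_option autoImplicit false
set_option linter.all false

open Polynomial FF

namespace Pool.Agent.K1H74.SC

open Pool.Agent.Y157.PS Pool.Agent.Y948.PS Pool.Agent.Y158.FQ

/-- separable polynomials modulo the maximal ideal are separable -/
theorem sep_k {A k : Type} [CommRing A] [IsDomain A] [IsDiscreteValuationRing A]
    [Finite (IsLocalRing.ResidueField A)] [Field k] [CharZero k] [Algebra A k] [IsFractionRing A k]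
    (f : A[X]) (hlc : IsUnit f.leadingCoeff)
    (hs : (f.map (IsLocalRing.residue A)).Separable) : (f.map (algebraMap A k)).Separable := by
  obtain ⟨V, hVA, hVm⟩ := exists_V A k (AlgebraicClosure k)
  refine Pool.Agent.R925.L.key_sep (κ := AlgebraicClosure k) V (fun a => ?_) (fun a ha => ?_) f
    hlc hs
  · rw [IsScalarTower.algebraMap_apply A k (AlgebraicClosure k)]
    exact hVA a
  · rw [IsScalarTower.algebraMap_apply A k (AlgebraicClosure k)]
    exact hVm a ha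

section main

variable {A k F Ω : Type} [CommRing A] [IsDomain A] [IsDiscreteValuationRing A]
    [Finite (IsLocalRing.ResidueField A)] [Field k] [CharZero k] [Algebra A k] [IsFractionRing A k]
    [Field F] [Field Ω] [Algebra k F] [Algebra F Ω] [Algebra k Ω] [IsScalarTower k F Ω]
    [IsAlgClosed Ω] [Algebra.IsAlgebraic F Ω]

omit [CharZero k] [IsAlgClosed Ω] [Algebra.IsAlgebraic F Ω] in
theorem mem_of_gen (N : IntermediateField F Ω) (x y : N) :
    ∀ z ∈ IntermediateField.adjoin k {(x : Ω), (y : Ω)}, z ∈ N := by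
  refine adjoin_le_sub (T := N.toSubfield) (fun c => ?_) (fun z hz => ?_)
  · rw [IsScalarTower.algebraMap_apply k F Ω]
    exact N.algebraMap_mem _
  · rcases hz with hz | hz
    · rw [hz]; exact x.2
    · rw [Set.mem_singleton_iff.1 hz]; exact y.2

omit [CharZero k] [IsAlgClosed Ω] [Algebra.IsAlgebraic F Ω] in
theorem fix_of_gen {N : IntermediateField F Ω} (x y : N) (e : N ≃ₐ[F] N) (hx : e x = x)
    (hy : e y = y) (z : N) (hz : (z : Ω) ∈ IntermediateField.adjoin k {(x : Ω), (y : Ω)}) :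
    e z = z := by
  let T : Subfield N := RingHom.eqLocusField (e : N →+* N) (RingHom.id N)
  have h1 : ∀ z ∈ IntermediateField.adjoin k {(x : Ω), (y : Ω)},
      z ∈ T.map (algebraMap N Ω) := by
    refine adjoin_le_sub (T := T.map (algebraMap N Ω)) (fun c => ?_) (fun z hz => ?_)
    · refine ⟨algebraMap F N (algebraMap k F c), e.commutes _, ?_⟩
      rw [← IsScalarTower.algebraMap_apply, ← IsScalarTower.algebraMap_apply]
    · rcases hz with hz | hz
      · rw [hz]; exact ⟨x, hx, rfl⟩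
      · rw [Set.mem_singleton_iff.1 hz]; exact ⟨y, hy, rfl⟩
  obtain ⟨w, hw, hwz⟩ := h1 _ hz
  have h2 : w = z := Subtype.ext hwz
  rw [← h2]
  exact hw

/-- the twist by rotations -/
theorem caseR [IsAdicComplete (IsLocalRing.maximalIdeal A) A]
    {ℓ : ℕ} [Fact ℓ.Prime] (hℓ : IsUnit (ℓ : A)) {j : ℕ} (hj : 1 ≤ j) (g : A[X])
    (hlc : IsUnit g.leadingCoeff)
    (hs : ((expand A (ℓ ^ j) g).map (IsLocalRing.residue A)).Separable)
    (h3 : 3 ≤ (expand A (ℓ ^ j) g).natDegree)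
    (ϖ : A) (hϖ : Irreducible ϖ) (a d : k) (α : ℤ) (hα : ¬ ((ℓ ^ j : ℕ) : ℤ) ∣ α) (t : A)
    (ht : IsUnit t) (ha : a = algebraMap A k t * algebraMap A k ϖ ^ α) (hd0 : d ≠ 0)
    (N : IntermediateField F Ω) (hN : geomPro ℓ k F Ω ≤ N)
    (S : (algebraicClosure k Ω ≃ₐ[k] algebraicClosure k Ω) →* (N ≃ₐ[F] N)) (hcont : Continuous S)
    (hcompat : ∀ σ (c : algebraicClosure k Ω) (z : N), (z : Ω) = (c : Ω) →
      (S σ z : Ω) = (σ c : Ω)) (x y : N) (hxS : ∀ σ, S σ x = x) (hyS : ∀ σ, S σ y = y)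
    (hx : Transcendental k (x : Ω))
    (hxy : algebraMap k Ω d * (y : Ω) ^ ℓ =
      aeval (algebraMap k Ω a * (x : Ω) ^ (ℓ ^ j)) (g.map (algebraMap A k)))
    (hFF : ∀ z : F, algebraMap F Ω z ∈ IntermediateField.adjoin k {(x : Ω), (y : Ω)})
    [halg₁ : Algebra.IsAlgebraic (IntermediateField.adjoin k {(x : Ω), (y : Ω)}) Ω]
    (hgeo : ∀ z : Ω, z ∈ geomPro ℓ k (IntermediateField.adjoin k {(x : Ω), (y : Ω)}) Ω ↔
      z ∈ geomPro ℓ k F Ω) :
    ∃ W : ValuationSubring N,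
      (((∀ c : k, algebraMap F N (algebraMap k F c) ∈ W) ∧
       (x ∈ W.nonunits ∨ x⁻¹ ∈ W.nonunits) ∧
       (∀ z : F, algebraMap F N z ∈ W →
          ∃ c : k, algebraMap F N (z - algebraMap k F c) ∈ W.nonunits)) ∧
       ∀ σ, ∀ z : N, (z : Ω) ∈ geomPro ℓ k F Ω → (S σ z ∈ W ↔ z ∈ W)) ∧
      ∀ W' : ValuationSubring N,
        (∀ c : k, algebraMap F N (algebraMap k F c) ∈ W') →
        (x ∈ W'.nonunits ∨ x⁻¹ ∈ W'.nonunits ∨
          aeval (algebraMap k N a * x ^ (ℓ ^ j)) (g.map (algebraMap A k)) ∈ W'.nonunits) →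
        (∀ σ, ∀ z : N, (z : Ω) ∈ geomPro ℓ k F Ω → (S σ z ∈ W' ↔ z ∈ W')) →
        ∀ z : N, (z : Ω) ∈ geomPro ℓ k F Ω → (z ∈ W' ↔ z ∈ W) := by
  haveI : IsScalarTower k N Ω := IsScalarTower.of_algebraMap_eq fun c => by
    rw [IsScalarTower.algebraMap_apply k F Ω, IsScalarTower.algebraMap_apply k F N]
    rfl
  have hh := mem_of_gen (k := k) N x y
  have hfix : ∀ σ, ∀ z : N, (z : Ω) ∈ IntermediateField.adjoin k {(x : Ω), (y : Ω)} →
      S σ z = z := fun σ z hz => fix_of_gen (k := k) x y (S σ) (hxS σ) (hyS σ) z hz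
  obtain ⟨E, hE⟩ : ∃ E : IntermediateField k Ω,
    E = IntermediateField.adjoin k {(x : Ω), (y : Ω)} := ⟨_, rfl⟩
  rw [← hE] at hh hfix hFF hgeo halg₁
  have hxE : (x : Ω) ∈ E := by rw [hE]; exact IntermediateField.subset_adjoin k _ (by simp)
  have hyE : (y : Ω) ∈ E := by rw [hE]; exact IntermediateField.subset_adjoin k _ (by simp)
  have htop := adjoin_pair_top hE hxE hyE
  have hx₁t : Transcendental k (⟨x, hxE⟩ : E) := by
    rw [← transcendental_algebraMap_iff (R := k) (A := Ω) (algebraMap E Ω).injective]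
    exact hx
  refine transport N E hh hFF S hfix hgeo
    (fun W => x ∈ W.nonunits ∨ x⁻¹ ∈ W.nonunits)
    (fun W => x ∈ W.nonunits ∨ x⁻¹ ∈ W.nonunits ∨
      aeval (algebraMap k N a * x ^ (ℓ ^ j)) (g.map (algebraMap A k)) ∈ W.nonunits)
    (fun W => algebraMap E (Nup N E hh) ⟨x, hxE⟩ ∈ W.nonunits ∨
      algebraMap E (Nup N E hh) (⟨x, hxE⟩ : E)⁻¹ ∈ W.nonunits)
    (fun W => algebraMap E (Nup N E hh) ⟨x, hxE⟩ ∈ W.nonunits ∨
      algebraMap E (Nup N E hh) (⟨x, hxE⟩ : E)⁻¹ ∈ W.nonunits ∨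
      algebraMap E (Nup N E hh) (aeval (algebraMap k E a * (⟨x, hxE⟩ : E) ^ (ℓ ^ j))
            (g.map (algebraMap A k))) ∈ W.nonunits)
    (fun W _ hW => ?_) (fun W _ hW _ => ?_) ?_
  · exact hW.imp (fun h => (comap_non' _ _ _).2 h) (fun h => (comap_non' _ _ _).2 h)
  · have hs' : ∀ z : Nup N E hh, z ∈ (W.comap ((eup N E hh).symm : Nup N E hh →+* N)).nonunits ↔
      (eup N E hh).symm z ∈ W.nonunits := fun z => comap_non' (eup N E hh).symm W z
    refine hW.imp (fun h => (hs' _).2 h) (Or.imp (fun h => (hs' _).2 h) (fun h => (hs' _).2 ?_))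
    have h1 : (eup N E hh).symm (algebraMap E (Nup N E hh)
        (aeval (algebraMap k E a * (⟨x, hxE⟩ : E) ^ (ℓ ^ j)) (g.map (algebraMap A k)))) =
        aeval (algebraMap k N a * x ^ (ℓ ^ j)) (g.map (algebraMap A k)) := by
      apply Subtype.ext
      change algebraMap E Ω (aeval (algebraMap k E a * (⟨x, hxE⟩ : E) ^ (ℓ ^ j))
        (g.map (algebraMap A k))) = algebraMap N Ω (aeval (algebraMap k N a * x ^ (ℓ ^ j))
        (g.map (algebraMap A k)))
      rw [← aeval_algebraMap_apply, ← aeval_algebraMap_apply, map_mul, map_mul, map_pow,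
        map_pow, ← IsScalarTower.algebraMap_apply, ← IsScalarTower.algebraMap_apply]
      rfl
    rw [h1]
    exact h
  · refine Pool.Agent.R925.L.padicRM (F := E) (Ω := Ω) hℓ hj g hlc hs h3 ϖ hϖ a d α hα t ht ha hd0
      ⟨x, hxE⟩ ⟨y, hyE⟩ hx₁t ?_ htop (Nup N E hh) ?_ (Sup N E hh S hfix)
      (Sup_cont N E hh S hcont hfix) ?_
    · apply (algebraMap E Ω).injective
      rw [map_mul, map_pow, ← aeval_algebraMap_apply, map_mul, map_pow,
        ← IsScalarTower.algebraMap_apply, ← IsScalarTower.algebraMap_apply]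
      exact hxy
    · intro z hz
      exact hN ((hgeo z).1 hz)
    · intro σ c z hz
      exact hcompat σ c ((eup N E hh).symm z) hz

/-- the twist with a ramified constant -/
theorem caseP [IsAdicComplete (IsLocalRing.maximalIdeal A) A]
    {ℓ : ℕ} [Fact ℓ.Prime] (hℓ : IsUnit (ℓ : A)) (f : A[X]) (hlc : IsUnit f.leadingCoeff)
    (hs : (f.map (IsLocalRing.residue A)).Separable) (hdvd : ℓ ∣ f.natDegree)
    (h3 : 3 ≤ f.natDegree) (ϖ : A) (hϖ : Irreducible ϖ) (d : k) (m : ℤ) (hm : ¬ (ℓ : ℤ) ∣ m)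
    (t : A) (ht : IsUnit t) (hd : d = algebraMap A k t * algebraMap A k ϖ ^ m)
    (N : IntermediateField F Ω) (hN : geomPro ℓ k F Ω ≤ N)
    (S : (algebraicClosure k Ω ≃ₐ[k] algebraicClosure k Ω) →* (N ≃ₐ[F] N)) (hcont : Continuous S)
    (hcompat : ∀ σ (c : algebraicClosure k Ω) (z : N), (z : Ω) = (c : Ω) →
      (S σ z : Ω) = (σ c : Ω)) (x y : N) (hxS : ∀ σ, S σ x = x) (hyS : ∀ σ, S σ y = y)
    (hx : Transcendental k (x : Ω))
    (hxy : algebraMap k Ω d * (y : Ω) ^ ℓ = aeval (x : Ω) (f.map (algebraMap A k)))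
    (hFF : ∀ z : F, algebraMap F Ω z ∈ IntermediateField.adjoin k {(x : Ω), (y : Ω)})
    [halg₁ : Algebra.IsAlgebraic (IntermediateField.adjoin k {(x : Ω), (y : Ω)}) Ω]
    (hgeo : ∀ z : Ω, z ∈ geomPro ℓ k (IntermediateField.adjoin k {(x : Ω), (y : Ω)}) Ω ↔
      z ∈ geomPro ℓ k F Ω) :
    ∃ W : ValuationSubring N,
      (((∀ c : k, algebraMap F N (algebraMap k F c) ∈ W) ∧
       (aeval x (f.map (algebraMap A k)) ∈ W.nonunits) ∧
       (∀ z : F, algebraMap F N z ∈ W →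
          ∃ c : k, algebraMap F N (z - algebraMap k F c) ∈ W.nonunits)) ∧
       ∀ σ, ∀ z : N, (z : Ω) ∈ geomPro ℓ k F Ω → (S σ z ∈ W ↔ z ∈ W)) ∧
      ∀ W' : ValuationSubring N,
        (∀ c : k, algebraMap F N (algebraMap k F c) ∈ W') →
        aeval x (f.map (algebraMap A k)) ∈ W'.nonunits →
        (∀ σ, ∀ z : N, (z : Ω) ∈ geomPro ℓ k F Ω → (S σ z ∈ W' ↔ z ∈ W')) →
        ∀ z : N, (z : Ω) ∈ geomPro ℓ k F Ω → (z ∈ W' ↔ z ∈ W) := by
  haveI : IsScalarTower k N Ω := IsScalarTower.of_algebraMap_eq fun c => by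
    rw [IsScalarTower.algebraMap_apply k F Ω, IsScalarTower.algebraMap_apply k F N]
    rfl
  have hh := mem_of_gen (k := k) N x y
  have hfix : ∀ σ, ∀ z : N, (z : Ω) ∈ IntermediateField.adjoin k {(x : Ω), (y : Ω)} →
      S σ z = z := fun σ z hz => fix_of_gen (k := k) x y (S σ) (hxS σ) (hyS σ) z hz
  obtain ⟨E, hE⟩ : ∃ E : IntermediateField k Ω,
    E = IntermediateField.adjoin k {(x : Ω), (y : Ω)} := ⟨_, rfl⟩
  rw [← hE] at hh hfix hFF hgeo halg₁
  have hxE : (x : Ω) ∈ E := by rw [hE]; exact IntermediateField.subset_adjoin k _ (by simp)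
  have hyE : (y : Ω) ∈ E := by rw [hE]; exact IntermediateField.subset_adjoin k _ (by simp)
  have htop := adjoin_pair_top hE hxE hyE
  have hx₁t : Transcendental k (⟨x, hxE⟩ : E) := by
    rw [← transcendental_algebraMap_iff (R := k) (A := Ω) (algebraMap E Ω).injective]
    exact hx
  refine transport N E hh hFF S hfix hgeo
    (fun W => aeval x (f.map (algebraMap A k)) ∈ W.nonunits)
    (fun W => aeval x (f.map (algebraMap A k)) ∈ W.nonunits)
    (fun W => ∃ e : k, aeval e (f.map (algebraMap A k)) = 0 ∧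
          algebraMap E (Nup N E hh) ((⟨x, hxE⟩ : E) - algebraMap k E e) ∈ W.nonunits)
    (fun W => algebraMap E (Nup N E hh) (aeval (⟨x, hxE⟩ : E) (f.map (algebraMap A k))) ∈
      W.nonunits)
    (fun W hWk hW => ?_) (fun W _ hW _ => ?_) ?_
  · obtain ⟨e, he, hxe⟩ := hW
    have h2 : x - algebraMap k N e ∈ (W.comap (eup N E hh : N →+* Nup N E hh)).nonunits :=
      (comap_non' _ _ _).2 hxe
    refine aeval_non_of_root _ (fun c => ?_) h2 _ ?_
    · rw [ValuationSubring.mem_comap]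
      exact hWk c
    · rw [← coe_aeval_eq_eval]
      exact he
  · refine (comap_non' (eup N E hh).symm W _).2 ?_
    have h1 : (eup N E hh).symm (algebraMap E (Nup N E hh)
        (aeval (⟨x, hxE⟩ : E) (f.map (algebraMap A k)))) =
        aeval x (f.map (algebraMap A k)) := by
      apply Subtype.ext
      change algebraMap E Ω (aeval (⟨x, hxE⟩ : E) (f.map (algebraMap A k))) =
        algebraMap N Ω (aeval x (f.map (algebraMap A k)))
      rw [← aeval_algebraMap_apply, ← aeval_algebraMap_apply]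
      rfl
    rw [h1]
    exact hW
  · refine padicM (F := E) (Ω := Ω) a_ind2 hℓ f hlc hs hdvd h3 ϖ hϖ d m hm t ht hd
      ⟨x, hxE⟩ ⟨y, hyE⟩ hx₁t ?_ htop (Nup N E hh) ?_ (Sup N E hh S hfix)
      (Sup_cont N E hh S hcont hfix) ?_
    · apply (algebraMap E Ω).injective
      rw [map_mul, map_pow, ← aeval_algebraMap_apply, ← IsScalarTower.algebraMap_apply]
      exact hxy
    · intro z hz
      exact hN ((hgeo z).1 hz)
    · intro σ c z hz
      exact hcompat σ c ((eup N E hh).symm z) hz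

end main

end Pool.Agent.K1H74.SC
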