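import Pool.Agent.K1H74.SC.A5

/-!
# The main theorem for the étale quotients
-/

set_option autoImplicit false
set_option linter.all false

open Polynomial FF

namespace Pool.Agent.K1H74.SC

open Pool.Agent.Y157.PS Pool.Agent.Y948.PS Pool.Agent.Y158.FQ

section arith

variable {A k : Type} [CommRing A] [IsDomain A] [IsDiscreteValuationRing A]
    [Field k] [Algebra A k] [IsFractionRing A k]

/-- the valuation of an `ℓ`-th power -/
theorem dvd_of_pow {ϖ : A} (hϖ : Irreducible ϖ) {s t : A} (hs : IsUnit s) (ht : IsUnit t)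
    {ℓ : ℕ} {m : ℤ} {c : k}
    (hc : c ^ ℓ = algebraMap A k s / (algebraMap A k t * algebraMap A k ϖ ^ m))
    (hℓ : ℓ ≠ 0) : (ℓ : ℤ) ∣ m := by
  have hinj := IsFractionRing.injective A k
  have h0 : ∀ {a : A}, a ≠ 0 → algebraMap A k a ≠ 0 := fun {a} ha => by
    rw [Ne, map_eq_zero_iff _ hinj]
    exact ha
  have hϖ0 := h0 hϖ.ne_zero
  have hs0 := h0 hs.ne_zero
  have ht0 := h0 ht.ne_zero
  have hc0 : c ≠ 0 := by
    rintro rfl
    rw [zero_pow hℓ] at hc
    exact div_ne_zero hs0 (mul_ne_zero ht0 (zpow_ne_zero _ hϖ0)) hc.symm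
  obtain ⟨t', n, ht', rfl⟩ := Pool.Agent.R925.L.exists_unit_zpow (A := A) hϖ hc0
  have ht'0 := h0 ht'.ne_zero
  obtain ⟨v, hv⟩ := (ht.mul (ht'.pow ℓ))
  have h1 : algebraMap A k ϖ ^ (ℓ * n + m) = algebraMap A k (s * ((v⁻¹ : Aˣ) : A)) := by
    have h2 : algebraMap A k ((v⁻¹ : Aˣ) : A) = (algebraMap A k (v : A))⁻¹ := by
      refine (inv_eq_of_mul_eq_one_right ?_).symm
      rw [← map_mul, Units.mul_inv, map_one]
    rw [map_mul, h2, hv, map_mul, map_pow]
    rw [mul_pow, ← zpow_natCast (algebraMap A k ϖ ^ n), ← zpow_mul, mul_comm n] at hc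
    rw [eq_div_iff (mul_ne_zero ht0 (zpow_ne_zero _ hϖ0))] at hc
    rw [← hc, zpow_add₀ hϖ0]
    have h3 : algebraMap A k t' ^ ℓ ≠ 0 := pow_ne_zero _ ht'0
    field_simp
  have h4 := zpow_unit hϖ (hs.mul (v⁻¹).isUnit) h1
  exact ⟨-n, by linear_combination h4⟩

end arith

section main

variable {A k F Ω : Type} [CommRing A] [IsDomain A] [IsDiscreteValuationRing A]
    [Finite (IsLocalRing.ResidueField A)] [Field k] [CharZero k] [Algebra A k] [IsFractionRing A k]
    [Field F] [Field Ω] [Algebra k F] [Algebra F Ω] [Algebra k Ω] [IsScalarTower k F Ω]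
    [IsAlgClosed Ω] [Algebra.IsAlgebraic F Ω]

/-- no fixed place with `x = 0` or `x = ∞` -/
theorem not_fixed {ℓ : ℕ} [hp : Fact ℓ.Prime] (f : A[X]) (hlc : IsUnit f.leadingCoeff)
    (hf0 : IsUnit (f.coeff 0)) (hdvd : ℓ ∣ f.natDegree)
    (ϖ : A) (hϖ : Irreducible ϖ) (d : k) (m : ℤ) (hm : ¬ (ℓ : ℤ) ∣ m)
    (t : A) (ht : IsUnit t) (hd : d = algebraMap A k t * algebraMap A k ϖ ^ m)
    (N : IntermediateField F Ω) (hN : geomPro ℓ k F Ω ≤ N)
    (S : (algebraicClosure k Ω ≃ₐ[k] algebraicClosure k Ω) →* (N ≃ₐ[F] N))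
    (hcompat : ∀ σ (c : algebraicClosure k Ω) (z : N), (z : Ω) = (c : Ω) →
      (S σ z : Ω) = (σ c : Ω)) (x y : N) (hxS : ∀ σ, S σ x = x) (hyS : ∀ σ, S σ y = y)
    (hxM : (x : Ω) ∈ geomPro ℓ k F Ω) (hyM : (y : Ω) ∈ geomPro ℓ k F Ω) (hx0 : x ≠ 0)
    (hxy : algebraMap F N (algebraMap k F d) * y ^ ℓ = aeval x (f.map (algebraMap A k)))
    (W : ValuationSubring N) (hW : ∀ c : k, algebraMap F N (algebraMap k F c) ∈ W)
    (hst : ∀ σ, ∀ z : N, (z : Ω) ∈ geomPro ℓ k F Ω → (S σ z ∈ W ↔ z ∈ W)) :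
    x ∉ W.nonunits ∧ x⁻¹ ∉ W.nonunits := by
  have hℓ0 : ℓ ≠ 0 := hp.out.ne_zero
  have hinj := IsFractionRing.injective A k
  have hd0 : d ≠ 0 := by
    rw [hd]
    refine mul_ne_zero ?_ (zpow_ne_zero _ ?_)
    · rw [Ne, map_eq_zero_iff _ hinj]
      exact ht.ne_zero
    · rw [Ne, map_eq_zero_iff _ hinj]
      exact hϖ.ne_zero
  have hkN : ∀ c : k, algebraMap F N (algebraMap k F c) = algebraMap k N c := fun c =>
    (IsScalarTower.algebraMap_apply k F N c).symm
  simp only [hkN] at hxy hW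
  have hdN : algebraMap k N d ≠ 0 := (_root_.map_ne_zero _).2 hd0
  constructor
  · intro hx
    have h1 := aeval_sub_non W hW hx (f.map (algebraMap A k))
    have h2 : y ^ ℓ - algebraMap F N (algebraMap k F (algebraMap A k (f.coeff 0) / d)) ∈
        W.nonunits := by
      have h3 : y ^ ℓ - algebraMap F N (algebraMap k F (algebraMap A k (f.coeff 0) / d)) =
          algebraMap k N d⁻¹ * (aeval x (f.map (algebraMap A k)) -
            algebraMap k N ((f.map (algebraMap A k)).coeff 0)) := by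
        rw [← hxy, coeff_map, hkN, map_div₀, map_inv₀]
        field_simp
      rw [h3]
      exact mul_non W (hW _) h1
    obtain ⟨c, hc⟩ := root_of_fixed hp.out.pos N hN S hcompat W
      (fun c => by rw [hkN]; exact hW c) hst y hyS hyM _ h2
    rw [hd] at hc
    exact hm (dvd_of_pow hϖ hf0 ht hc hℓ0)
  · intro hx
    obtain ⟨n₀, hn₀⟩ := hdvd
    have hnd : (f.map (algebraMap A k)).natDegree = ℓ * n₀ := by
      rw [natDegree_map_eq_of_injective hinj, hn₀]
    have hlcm : (f.map (algebraMap A k)).leadingCoeff = algebraMap A k f.leadingCoeff :=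
      leadingCoeff_map_of_injective hinj f
    have h1 := aeval_sub_non W hW hx (f.map (algebraMap A k)).reverse
    rw [coeff_zero_reverse, hlcm] at h1
    let _ := invertibleOfNonzero hx0
    have h4 := Polynomial.eval₂_reverse_mul_pow (algebraMap k N) x (f.map (algebraMap A k))
    rw [invOf_eq_inv, hnd] at h4
    have h5 : aeval x⁻¹ (f.map (algebraMap A k)).reverse * x ^ (ℓ * n₀) =
        aeval x (f.map (algebraMap A k)) := h4
    have h2 : (y * x⁻¹ ^ n₀) ^ ℓ -
        algebraMap F N (algebraMap k F (algebraMap A k f.leadingCoeff / d)) ∈ W.nonunits := by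
      have h3 : (y * x⁻¹ ^ n₀) ^ ℓ -
          algebraMap F N (algebraMap k F (algebraMap A k f.leadingCoeff / d)) =
          algebraMap k N d⁻¹ * (aeval x⁻¹ (f.map (algebraMap A k)).reverse -
            algebraMap k N (algebraMap A k f.leadingCoeff)) := by
        have h6 : y ^ ℓ = algebraMap k N d⁻¹ *
            (aeval x⁻¹ (f.map (algebraMap A k)).reverse * x ^ (ℓ * n₀)) := by
          rw [h5, ← hxy, map_inv₀, inv_mul_cancel_left₀ hdN]
        rw [mul_pow, h6, hkN, map_div₀, map_inv₀, inv_pow, inv_pow, ← pow_mul, mul_comm n₀ ℓ]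
        have h7 : x ^ (ℓ * n₀) ≠ 0 := pow_ne_zero _ hx0
        field_simp
      rw [h3]
      exact mul_non W (hW _) h1
    obtain ⟨c, hc⟩ := root_of_fixed hp.out.pos N hN S hcompat W
      (fun c => by rw [hkN]; exact hW c) hst (y * x⁻¹ ^ n₀)
      (fun σ => by rw [map_mul, map_pow, map_inv₀, hyS, hxS])
      (mul_mem hyM (pow_mem (inv_mem hxM) _)) _ h2
    rw [hd] at hc
    exact hm (dvd_of_pow hϖ hlc ht hc hℓ0)

end main

end Pool.Agent.K1H74.SC
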