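import Pool.Agent.K1H74.SC.A6

/-!
# The main theorem for the étale quotients, 2
-/

set_option autoImplicit false
set_option linter.all false

open Polynomial FF

namespace Pool.Agent.K1H74.SC

open Pool.Agent.Y157.PS Pool.Agent.Y948.PS Pool.Agent.Y158.FQ

section main

variable {A k F Ω : Type} [CommRing A] [IsDomain A] [IsDiscreteValuationRing A]
    [Finite (IsLocalRing.ResidueField A)] [Field k] [CharZero k] [Algebra A k] [IsFractionRing A k]
    [Field F] [Field Ω] [Algebra k F] [Algebra F Ω] [Algebra k Ω] [IsScalarTower k F Ω]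
    [IsAlgClosed Ω] [Algebra.IsAlgebraic F Ω]

/-- the place is above `u = 0`, `u = ∞` or a zero of `H` -/
def AtBranch {N : IntermediateField F Ω} (u H : F) (W : ValuationSubring N) : Prop :=
  algebraMap F N u ∈ W.nonunits ∨ algebraMap F N u⁻¹ ∈ W.nonunits ∨
    algebraMap F N H ∈ W.nonunits

/-- **the sections of the étale quotients** -/
theorem mainS [IsAdicComplete (IsLocalRing.maximalIdeal A) A] {ℓ : ℕ} [hp : Fact ℓ.Prime]
    (hℓ : IsUnit (ℓ : A)) {j r : ℕ} (hr : ¬ ℓ ∣ r) (g : A[X]) (hlc : IsUnit g.leadingCoeff)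
    (hg0 : IsUnit (g.coeff 0)) (hs : (g.map (IsLocalRing.residue A)).Separable)
    (hdeg : 0 < g.natDegree) (hrn : ¬ ℓ ∣ r + ℓ ^ j * g.natDegree)
    (ϖ : A) (hϖ : Irreducible ϖ) (c d : k) (γ δ : ℤ) (t₁ t₂ : A) (ht₁ : IsUnit t₁)
    (ht₂ : IsUnit t₂) (hc : c = algebraMap A k t₁ * algebraMap A k ϖ ^ γ)
    (hd : d = algebraMap A k t₂ * algebraMap A k ϖ ^ δ)
    (hv : ¬ ((ℓ ^ (j + 1) : ℕ) : ℤ) ∣ r * γ + (ℓ : ℤ) ^ j * δ)
    (u t : F) (hu : Transcendental k u)
    (hut : algebraMap k F d * t ^ ℓ =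
      u ^ r * aeval (algebraMap k F c * u ^ (ℓ ^ j)) (g.map (algebraMap A k)))
    (hF : IntermediateField.adjoin k {u, t} = (⊤ : IntermediateField k F))
    (halgF : Algebra.IsAlgebraic (IntermediateField.adjoin k {u}) F)
    (N : IntermediateField F Ω) (hN : geomPro ℓ k F Ω ≤ N)
    (S : (algebraicClosure k Ω ≃ₐ[k] algebraicClosure k Ω) →* (N ≃ₐ[F] N)) (hcont : Continuous S)
    (hcompat : ∀ σ (c : algebraicClosure k Ω) (z : N), (z : Ω) = (c : Ω) →
      (S σ z : Ω) = (σ c : Ω)) :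
    ∃ W : ValuationSubring N,
      (((∀ c : k, algebraMap F N (algebraMap k F c) ∈ W) ∧
       AtBranch u (aeval (algebraMap k F c * u ^ (ℓ ^ j)) (g.map (algebraMap A k))) W ∧
       (∀ z : F, algebraMap F N z ∈ W →
          ∃ c : k, algebraMap F N (z - algebraMap k F c) ∈ W.nonunits)) ∧
       ∀ σ, ∀ z : N, (z : Ω) ∈ geomPro ℓ k F Ω → (S σ z ∈ W ↔ z ∈ W)) ∧
      ∀ W' : ValuationSubring N,
        (∀ c : k, algebraMap F N (algebraMap k F c) ∈ W') →
        AtBranch u (aeval (algebraMap k F c * u ^ (ℓ ^ j)) (g.map (algebraMap A k))) W' →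
        (∀ σ, ∀ z : N, (z : Ω) ∈ geomPro ℓ k F Ω → (S σ z ∈ W' ↔ z ∈ W')) →
        ∀ z : N, (z : Ω) ∈ geomPro ℓ k F Ω → (z ∈ W' ↔ z ∈ W) := by
  have hℓp : ℓ.Prime := hp.out
  have hℓ0 : ℓ ≠ 0 := hℓp.ne_zero
  have hinj := IsFractionRing.injective A k
  have h0 : ∀ {a : A}, a ≠ 0 → algebraMap A k a ≠ 0 := fun {a} ha => by
    rw [Ne, map_eq_zero_iff _ hinj]
    exact ha
  have hϖ0 := h0 hϖ.ne_zero
  have hc0 : c ≠ 0 := by
    rw [hc]
    exact mul_ne_zero (h0 ht₁.ne_zero) (zpow_ne_zero _ hϖ0)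
  have hd0 : d ≠ 0 := by
    rw [hd]
    exact mul_ne_zero (h0 ht₂.ne_zero) (zpow_ne_zero _ hϖ0)
  have hm0 : ∀ i : ℕ, ℓ ^ i ≠ 0 := fun i => pow_ne_zero _ hℓ0
  have hmk : ∀ i : ℕ, ((ℓ ^ i : ℕ) : k) ≠ 0 := fun i => by exact_mod_cast hm0 i
  haveI : IsScalarTower k N Ω := IsScalarTower.of_algebraMap_eq fun c => by
    rw [IsScalarTower.algebraMap_apply k F Ω, IsScalarTower.algebraMap_apply k F N]
    rfl
  -- the polynomial `G(u) = g(c u ^ m)`
  obtain ⟨gk, hgk⟩ : ∃ gk : k[X], gk = g.map (algebraMap A k) := ⟨_, rfl⟩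
  have hgkdeg : gk.natDegree = g.natDegree := by
    rw [hgk, natDegree_map_eq_of_injective hinj]
  have hgks : gk.Separable := by rw [hgk]; exact sep_k g hlc hs
  have hgk0 : gk.coeff 0 ≠ 0 := by
    rw [hgk, coeff_map]
    exact h0 hg0.ne_zero
  obtain ⟨G, hG⟩ : ∃ G : k[X], G = gk.comp (C c * X ^ (ℓ ^ j)) := ⟨_, rfl⟩
  have hGs : G.Separable := by rw [hG]; exact sep_comp hgks hgk0 (hmk j) hc0
  have hG0 : G.coeff 0 ≠ 0 := by
    rw [hG, coeff_zero_eq_eval_zero, eval_comp, eval_mul, eval_pow, eval_X,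
      zero_pow (hm0 j), mul_zero, ← coeff_zero_eq_eval_zero]
    exact hgk0
  have hGdeg : G.natDegree = ℓ ^ j * g.natDegree := by
    rw [hG, natDegree_comp, natDegree_C_mul_X_pow _ _ hc0, hgkdeg, mul_comm]
  have hGu : aeval u G = aeval (algebraMap k F c * u ^ (ℓ ^ j)) gk := by
    rw [hG, aeval_comp, map_mul, aeval_C, map_pow, aeval_X]
  rw [← hgk] at hut ⊢
  have hutG : algebraMap k F d * t ^ ℓ = u ^ r * aeval u G := by rw [hut, hGu]
  have hrnG : ¬ ℓ ∣ r + G.natDegree := by rw [hGdeg]; exact hrn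
  have hGdeg0 : 0 < G.natDegree := by
    rw [hGdeg]
    exact Nat.mul_pos (Nat.pos_of_ne_zero (hm0 j)) hdeg
  -- the twist
  obtain ⟨x, y, b, hb0, hx0Ω, hux, hty, hxS, hyS⟩ := exists_twist hr G hGs hG0 hrnG hGdeg0 hd0 u t hu
    hutG hF halgF N hN S hcont hcompat
  have hgeo := geomPro_eq2 (Ω := Ω) hr G hGs hG0 hrnG hGdeg0 hb0 hd0 u t hu hutG hF halgF
    (x : Ω) (y : Ω) hux hty
  have huΩ : Transcendental k (algebraMap F Ω u) :=
    (transcendental_algebraMap_iff (R := k) (algebraMap F Ω).injective (a := u)).2 hu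
  have hxt : Transcendental k (x : Ω) := by
    intro h
    apply huΩ
    rw [hux]
    exact (isAlgebraic_algebraMap _).mul (h.pow ℓ)
  have hx0 : x ≠ 0 := fun h => hx0Ω (congrArg Subtype.val h)
  have hxE : (x : Ω) ∈ IntermediateField.adjoin k {(x : Ω), (y : Ω)} :=
    IntermediateField.subset_adjoin k _ (by simp)
  have hyE : (y : Ω) ∈ IntermediateField.adjoin k {(x : Ω), (y : Ω)} :=
    IntermediateField.subset_adjoin k _ (by simp)
  have huE : algebraMap F Ω u ∈ IntermediateField.adjoin k {(x : Ω), (y : Ω)} := by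
    rw [hux]
    exact mul_mem (IntermediateField.algebraMap_mem _ _) (pow_mem hxE _)
  have htE : algebraMap F Ω t ∈ IntermediateField.adjoin k {(x : Ω), (y : Ω)} := by
    rw [hty]
    exact mul_mem hyE (pow_mem hxE _)
  have hFF : ∀ z : F, algebraMap F Ω z ∈ IntermediateField.adjoin k {(x : Ω), (y : Ω)} := by
    intro z
    have hz : z ∈ IntermediateField.adjoin k {u, t} := by rw [hF]; trivial
    refine adjoin_le_sub
      (T := (IntermediateField.adjoin k {(x : Ω), (y : Ω)}).toSubfield.comap (algebraMap F Ω))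
      (fun c => ?_) (fun w hw => ?_) z hz
    · rw [Subfield.mem_comap, ← IsScalarTower.algebraMap_apply]
      exact IntermediateField.algebraMap_mem _ _
    · rw [Subfield.mem_comap]
      rcases hw with hw | hw
      · rw [hw]; exact huE
      · rw [Set.mem_singleton_iff.1 hw]; exact htE
  haveI halg₁ : Algebra.IsAlgebraic (IntermediateField.adjoin k {(x : Ω), (y : Ω)}) Ω :=
    alg_over halgF _ huE
  have hxM : (x : Ω) ∈ geomPro ℓ k F Ω := (hgeo _).1
    ((geomPro ℓ k (IntermediateField.adjoin k {(x : Ω), (y : Ω)}) Ω).algebraMap_mem ⟨_, hxE⟩)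
  have hyM : (y : Ω) ∈ geomPro ℓ k F Ω := (hgeo _).1
    ((geomPro ℓ k (IntermediateField.adjoin k {(x : Ω), (y : Ω)}) Ω).algebraMap_mem ⟨_, hyE⟩)
  -- the equation of the twist
  have hbr : (b ^ r : k) ≠ 0 := pow_ne_zero _ hb0
  have hmm : ℓ ^ (j + 1) = ℓ * ℓ ^ j := pow_succ' ℓ j
  have hcu : algebraMap k Ω c * (algebraMap F Ω u) ^ (ℓ ^ j) =
      algebraMap k Ω (c * b ^ (ℓ ^ j)) * (x : Ω) ^ (ℓ ^ (j + 1)) := by
    rw [hux, mul_pow, ← pow_mul, ← hmm, map_mul, map_pow]
    ring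
  have hxy : algebraMap k Ω (d / b ^ r) * (y : Ω) ^ ℓ =
      aeval (algebraMap k Ω (c * b ^ (ℓ ^ j)) * (x : Ω) ^ (ℓ ^ (j + 1))) gk := by
    have h1 := congrArg (algebraMap F Ω) hut
    rw [map_mul, map_mul, map_pow, map_pow, ← aeval_algebraMap_apply, map_mul, map_pow,
      ← IsScalarTower.algebraMap_apply, ← IsScalarTower.algebraMap_apply, hcu, hux, hty] at h1
    have h3 : (x : Ω) ^ (r * ℓ) ≠ 0 := pow_ne_zero _ hx0Ω
    have h4 : algebraMap k Ω (b ^ r) ≠ 0 := (_root_.map_ne_zero _).2 hbr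
    apply mul_right_cancel₀ h3
    apply mul_left_cancel₀ h4
    rw [map_div₀]
    calc algebraMap k Ω (b ^ r) * (algebraMap k Ω d / algebraMap k Ω (b ^ r) * (y : Ω) ^ ℓ *
          (x : Ω) ^ (r * ℓ)) = algebraMap k Ω d * ((y : Ω) * (x : Ω) ^ r) ^ ℓ := by
          rw [mul_pow, ← pow_mul]
          field_simp
      _ = _ := h1
      _ = _ := by
          rw [mul_pow, ← pow_mul, mul_comm ℓ r, map_pow]
          ring
  -- the functions `u` and `x`
  have huN : algebraMap F N u = algebraMap k N b * x ^ ℓ := by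
    apply Subtype.ext
    change algebraMap F Ω u = algebraMap N Ω (algebraMap k N b * x ^ ℓ)
    rw [map_mul, ← IsScalarTower.algebraMap_apply, map_pow, hux]
    rfl
  have hkN : ∀ c : k, algebraMap F N (algebraMap k F c) = algebraMap k N c := fun c =>
    (IsScalarTower.algebraMap_apply k F N c).symm
  have hiff0 : ∀ W : ValuationSubring N, (∀ c : k, algebraMap k N c ∈ W) →
      (algebraMap F N u ∈ W.nonunits ↔ x ∈ W.nonunits) := by
    intro W hW
    rw [huN, const_mul_non_iff W hW hb0, pow_non_iff W hℓ0]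
  have hiff1 : ∀ W : ValuationSubring N, (∀ c : k, algebraMap k N c ∈ W) →
      (algebraMap F N u⁻¹ ∈ W.nonunits ↔ x⁻¹ ∈ W.nonunits) := by
    intro W hW
    rw [map_inv₀, huN, mul_inv, ← map_inv₀, const_mul_non_iff W hW (inv_ne_zero hb0), ← inv_pow,
      pow_non_iff W hℓ0]
  have hHN : algebraMap F N (aeval (algebraMap k F c * u ^ (ℓ ^ j)) gk) =
      aeval (algebraMap k N (c * b ^ (ℓ ^ j)) * x ^ (ℓ ^ (j + 1))) gk := by
    apply Subtype.ext
    change algebraMap F Ω _ = algebraMap N Ω _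
    rw [← aeval_algebraMap_apply, ← aeval_algebraMap_apply, map_mul, map_pow,
      ← IsScalarTower.algebraMap_apply, hcu, map_mul (algebraMap N Ω),
      ← IsScalarTower.algebraMap_apply, map_pow]
    rfl
  -- valuations
  obtain ⟨t₃, β, ht₃, hb⟩ := Pool.Agent.R925.L.exists_unit_zpow (A := A) hϖ hb0
  have ha : c * b ^ (ℓ ^ j) = algebraMap A k (t₁ * t₃ ^ (ℓ ^ j)) *
      algebraMap A k ϖ ^ (γ + (ℓ : ℤ) ^ j * β) := by
    rw [hc, hb, mul_pow, ← zpow_natCast (algebraMap A k ϖ ^ β), ← zpow_mul, map_mul, map_pow,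
      zpow_add₀ hϖ0]
    push_cast
    rw [mul_comm β]
    ring
  have htu : IsUnit (t₁ * t₃ ^ (ℓ ^ j)) := ht₁.mul (ht₃.pow _)
  by_cases hcase : ((ℓ ^ (j + 1) : ℕ) : ℤ) ∣ γ + (ℓ : ℤ) ^ j * β
  · -- the constant is ramified
    obtain ⟨n, hn⟩ := hcase
    obtain ⟨v, hv3⟩ := ht₃
    have hd₁ : d / b ^ r = algebraMap A k (t₂ * ((v⁻¹ : Aˣ) : A) ^ r) *
        algebraMap A k ϖ ^ (δ - r * β) := by
      have h2 : algebraMap A k ((v⁻¹ : Aˣ) : A) = (algebraMap A k t₃)⁻¹ := by
        refine (inv_eq_of_mul_eq_one_right ?_).symm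
        rw [← map_mul, ← hv3, Units.mul_inv, map_one]
      have h3 : algebraMap A k t₃ ≠ 0 := by
        rw [← hv3]
        exact h0 v.ne_zero
      rw [hd, hb, map_mul, map_pow, h2, zpow_sub₀ hϖ0, mul_pow,
        ← zpow_natCast (algebraMap A k ϖ ^ β), ← zpow_mul, mul_comm β, inv_pow]
      have h4 : algebraMap A k ϖ ^ ((r : ℤ) * β) ≠ 0 := zpow_ne_zero _ hϖ0
      field_simp
    have hm' : ¬ (ℓ : ℤ) ∣ δ - r * β := by
      rintro ⟨q, hq⟩
      apply hv
      refine ⟨r * n + q, ?_⟩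
      have h5 : γ = ((ℓ ^ (j + 1) : ℕ) : ℤ) * n - (ℓ : ℤ) ^ j * β := by linear_combination hn
      have h6 : δ = ℓ * q + r * β := by linear_combination hq
      rw [h5, h6]
      push_cast
      ring
    -- the new coordinate
    obtain ⟨e, he⟩ : ∃ e : k, e = algebraMap A k ϖ ^ n := ⟨_, rfl⟩
    have he0 : e ≠ 0 := by rw [he]; exact zpow_ne_zero _ hϖ0
    have hee : algebraMap k Ω e ≠ 0 := (_root_.map_ne_zero _).2 he0
    obtain ⟨f, hf⟩ : ∃ f : A[X], f = g.comp (C (t₁ * t₃ ^ (ℓ ^ j)) * X ^ (ℓ ^ (j + 1))) :=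
      ⟨_, rfl⟩
    have hqlc : (C (t₁ * t₃ ^ (ℓ ^ j)) * X ^ (ℓ ^ (j + 1)) : A[X]).natDegree = ℓ ^ (j + 1) :=
      natDegree_C_mul_X_pow _ _ htu.ne_zero
    have hfdeg : f.natDegree = g.natDegree * ℓ ^ (j + 1) := by
      rw [hf, natDegree_comp, hqlc]
    have hflc : IsUnit f.leadingCoeff := by
      rw [hf, leadingCoeff_comp (by rw [hqlc]; exact hm0 _), leadingCoeff_C_mul_X_pow]
      exact hlc.mul (htu.pow _)
    have hf0 : IsUnit (f.coeff 0) := by
      rw [hf, coeff_zero_eq_eval_zero, eval_comp, eval_mul, eval_pow, eval_X,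
        zero_pow (hm0 _), mul_zero, ← coeff_zero_eq_eval_zero]
      exact hg0
    have hres : IsUnit (IsLocalRing.residue A (ℓ : A)) := hℓ.map _
    have hfs : (f.map (IsLocalRing.residue A)).Separable := by
      rw [hf, map_comp, Polynomial.map_mul, map_C, Polynomial.map_pow, map_X]
      refine sep_comp hs ?_ ?_ ?_
      · rw [coeff_map]
        exact (hg0.map _).ne_zero
      · push_cast
        rw [map_natCast] at hres
        exact pow_ne_zero _ hres.ne_zero
      · exact (htu.map _).ne_zero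
    have hfdvd : ℓ ∣ f.natDegree := by
      rw [hfdeg, hmm]
      exact Dvd.dvd.mul_left (dvd_mul_right _ _) _
    have hf3 : 3 ≤ f.natDegree := by
      rw [hfdeg]
      by_contra hlt
      push Not at hlt
      have h7 : 2 ≤ ℓ ^ (j + 1) := by
        calc 2 ≤ ℓ := hℓp.two_le
          _ = ℓ ^ 1 := (pow_one ℓ).symm
          _ ≤ ℓ ^ (j + 1) := Nat.pow_le_pow_right hℓp.pos (by omega)
      have h8 : g.natDegree = 1 := by nlinarith
      have h9 : ℓ ^ (j + 1) = 2 := by
        rw [h8, one_mul] at hlt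
        omega
      have h10 : ℓ = 2 := by
        have h11 : ℓ ∣ 2 := by rw [← h9, hmm]; exact dvd_mul_right _ _
        exact (Nat.prime_dvd_prime_iff_eq hℓp Nat.prime_two).1 h11
      have h12 : j = 0 := by
        rw [h10] at h9
        have h13 : 2 ^ (j + 1) = 2 ^ 1 := by rw [h9, pow_one]
        have := Nat.pow_right_injective (le_refl 2) h13
        omega
      rw [h10] at hr
      rw [h12, h8, h10, pow_zero, mul_one] at hrn
      omega
    have hxf : aeval (algebraMap k Ω e * (x : Ω)) (f.map (algebraMap A k)) =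
        aeval (algebraMap k Ω (c * b ^ (ℓ ^ j)) * (x : Ω) ^ (ℓ ^ (j + 1))) gk := by
      rw [hf, map_comp, Polynomial.map_mul, map_C, Polynomial.map_pow, map_X, aeval_comp,
        map_mul, aeval_C, map_pow, aeval_X, hgk, ha, hn, mul_pow]
      have he' : (algebraMap k Ω e) ^ (ℓ ^ (j + 1)) =
          algebraMap k Ω (algebraMap A k ϖ ^ (((ℓ ^ (j + 1) : ℕ) : ℤ) * n)) := by
        rw [he, ← map_pow, ← zpow_natCast, ← zpow_mul, mul_comm n]
      rw [map_mul (algebraMap k Ω) (algebraMap A k (t₁ * t₃ ^ (ℓ ^ j))), ← he', mul_assoc]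
    have hxfN : aeval (algebraMap k N e * x) (f.map (algebraMap A k)) =
        algebraMap F N (aeval (algebraMap k F c * u ^ (ℓ ^ j)) gk) := by
      apply Subtype.ext
      rw [hHN]
      change algebraMap N Ω _ = algebraMap N Ω _
      rw [← aeval_algebraMap_apply, ← aeval_algebraMap_apply, map_mul,
        ← IsScalarTower.algebraMap_apply, map_mul, ← IsScalarTower.algebraMap_apply, map_pow]
      exact hxf
    -- generation
    have hgen : IntermediateField.adjoin k {((algebraMap k N e * x : N) : Ω), (y : Ω)} =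
        IntermediateField.adjoin k {(x : Ω), (y : Ω)} := by
      have h14 : ((algebraMap k N e * x : N) : Ω) = algebraMap k Ω e * (x : Ω) := by
        change algebraMap N Ω (algebraMap k N e * x) = _
        rw [map_mul, ← IsScalarTower.algebraMap_apply]
        rfl
      rw [h14]
      apply le_antisymm
      · rw [IntermediateField.adjoin_le_iff]
        rintro w (hw | hw)
        · rw [hw]
          exact mul_mem (IntermediateField.algebraMap_mem _ _) hxE
        · rw [Set.mem_singleton_iff.1 hw]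
          exact hyE
      · rw [IntermediateField.adjoin_le_iff]
        rintro w (hw | hw)
        · rw [hw]
          have h15 : algebraMap k Ω e * (x : Ω) ∈
              IntermediateField.adjoin k {algebraMap k Ω e * (x : Ω), (y : Ω)} :=
            IntermediateField.subset_adjoin k _ (Set.mem_insert _ _)
          have h16 := mul_mem (inv_mem (IntermediateField.algebraMap_mem
            (IntermediateField.adjoin k {algebraMap k Ω e * (x : Ω), (y : Ω)}) e)) h15
          rwa [inv_mul_cancel_left₀ hee] at h16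
        · rw [Set.mem_singleton_iff.1 hw]
          exact IntermediateField.subset_adjoin k _ (by simp)
    have hcS : ∀ σ, S σ (algebraMap k N e * x) = algebraMap k N e * x := by
      intro σ
      rw [map_mul, hxS, ← hkN, (S σ).commutes]
    have hzt : Transcendental k ((algebraMap k N e * x : N) : Ω) := by
      have h14 : ((algebraMap k N e * x : N) : Ω) = algebraMap k Ω e * (x : Ω) := by
        change algebraMap N Ω (algebraMap k N e * x) = _
        rw [map_mul, ← IsScalarTower.algebraMap_apply]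
        rfl
      intro h
      rw [h14] at h
      apply hxt
      have h15 : (x : Ω) = algebraMap k Ω e⁻¹ * (algebraMap k Ω e * (x : Ω)) := by
        rw [map_inv₀, inv_mul_cancel_left₀ hee]
      rw [h15]
      exact (isAlgebraic_algebraMap _).mul h
    have hxyz : algebraMap k Ω (d / b ^ r) * (y : Ω) ^ ℓ =
        aeval ((algebraMap k N e * x : N) : Ω) (f.map (algebraMap A k)) := by
      have h14 : ((algebraMap k N e * x : N) : Ω) = algebraMap k Ω e * (x : Ω) := by
        change algebraMap N Ω (algebraMap k N e * x) = _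
        rw [map_mul, ← IsScalarTower.algebraMap_apply]
        rfl
      rw [h14, hxf]
      exact hxy
    haveI halg₂ : Algebra.IsAlgebraic
        (IntermediateField.adjoin k {((algebraMap k N e * x : N) : Ω), (y : Ω)}) Ω := by
      rw [hgen]; exact halg₁
    obtain ⟨W, ⟨⟨h1, h2, h3⟩, h4⟩, h5⟩ := caseP (F := F) (Ω := Ω) hℓ f hflc hfs hfdvd hf3 ϖ hϖ
      (d / b ^ r) (δ - r * β) hm' _ (ht₂.mul ((v⁻¹).isUnit.pow _)) hd₁ N hN S hcont hcompat
      (algebraMap k N e * x) y hcS hyS hzt hxyz (by rw [hgen]; exact hFF)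
      (by rw [hgen]; exact hgeo)
    rw [hxfN] at h2 h5
    refine ⟨W, ⟨⟨h1, Or.inr (Or.inr h2), h3⟩, h4⟩, fun W' b1 b2 b3 => ?_⟩
    have hcM : ((algebraMap k N e * x : N) : Ω) ∈ geomPro ℓ k F Ω := by
      change algebraMap N Ω (algebraMap k N e * x) ∈ _
      rw [map_mul, ← IsScalarTower.algebraMap_apply]
      exact mul_mem (by
        rw [IsScalarTower.algebraMap_apply k F Ω]
        exact (geomPro ℓ k F Ω).algebraMap_mem _) hxM
    have hcx0 : algebraMap k N e * x ≠ 0 := mul_ne_zero ((_root_.map_ne_zero _).2 he0) hx0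
    obtain ⟨h6, h7⟩ := not_fixed (F := F) (Ω := Ω) f hflc hf0 hfdvd ϖ hϖ (d / b ^ r) (δ - r * β)
      hm' _ (ht₂.mul ((v⁻¹).isUnit.pow _)) hd₁ N hN S hcompat (algebraMap k N e * x) y hcS hyS
      hcM hyM hcx0 (by
        apply (algebraMap N Ω).injective
        rw [map_mul, hkN, ← IsScalarTower.algebraMap_apply, map_pow, ← aeval_algebraMap_apply]
        exact hxyz) W' b1 b3
    have b1' : ∀ c : k, algebraMap k N c ∈ W' := fun c => by rw [← hkN]; exact b1 c
    rcases b2 with b2 | b2 | b2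
    · exact absurd ((const_mul_non_iff W' b1' he0).2 ((hiff0 W' b1').1 b2)) h6
    · refine absurd ?_ h7
      rw [mul_inv, ← map_inv₀]
      exact (const_mul_non_iff W' b1' (inv_ne_zero he0)).2 ((hiff1 W' b1').1 b2)
    · exact h5 W' b1 b2 b3
  · -- the twist by rotations
    have hexp : ∀ (R : Type) [CommRing R] (p : R[X]), expand R (ℓ ^ (j + 1)) p =
        p.comp (C 1 * X ^ (ℓ ^ (j + 1))) := by
      intro R _ p
      rw [expand_eq_comp_X_pow, C_1, one_mul]
    have hres : IsUnit (IsLocalRing.residue A (ℓ : A)) := hℓ.map _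
    have hes : ((expand A (ℓ ^ (j + 1)) g).map (IsLocalRing.residue A)).Separable := by
      rw [map_expand, hexp]
      refine sep_comp hs ?_ ?_ one_ne_zero
      · rw [coeff_map]
        exact (hg0.map _).ne_zero
      · push_cast
        rw [map_natCast] at hres
        exact pow_ne_zero _ hres.ne_zero
    have hf3 : 3 ≤ (expand A (ℓ ^ (j + 1)) g).natDegree := by
      rw [natDegree_expand]
      by_contra hlt
      push Not at hlt
      have h7 : 2 ≤ ℓ ^ (j + 1) := by
        calc 2 ≤ ℓ := hℓp.two_le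
          _ = ℓ ^ 1 := (pow_one ℓ).symm
          _ ≤ ℓ ^ (j + 1) := Nat.pow_le_pow_right hℓp.pos (by omega)
      have h8 : g.natDegree = 1 := by nlinarith
      have h9 : ℓ ^ (j + 1) = 2 := by
        rw [h8, one_mul] at hlt
        omega
      have h10 : ℓ = 2 := by
        have h11 : ℓ ∣ 2 := by rw [← h9, hmm]; exact dvd_mul_right _ _
        exact (Nat.prime_dvd_prime_iff_eq hℓp Nat.prime_two).1 h11
      have h12 : j = 0 := by
        rw [h10] at h9
        have h13 : 2 ^ (j + 1) = 2 ^ 1 := by rw [h9, pow_one]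
        have := Nat.pow_right_injective (le_refl 2) h13
        omega
      rw [h10] at hr
      rw [h12, h8, h10, pow_zero, mul_one] at hrn
      omega
    rw [hgk] at hxy
    obtain ⟨W, ⟨⟨h1, h2, h3⟩, h4⟩, h5⟩ := caseR (F := F) (Ω := Ω) hℓ (Nat.succ_pos j) g hlc hes hf3
      ϖ hϖ (c * b ^ (ℓ ^ j)) (d / b ^ r) _ hcase _ htu ha (div_ne_zero hd0 hbr) N hN S hcont
      hcompat x y hxS hyS hxt hxy hFF hgeo
    have h1' : ∀ c : k, algebraMap k N c ∈ W := fun c => by rw [← hkN]; exact h1 c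
    refine ⟨W, ⟨⟨h1, ?_, h3⟩, h4⟩, fun W' b1 b2 b3 => h5 W' b1 ?_ b3⟩
    · rcases h2 with h2 | h2
      · exact Or.inl ((hiff0 W h1').2 h2)
      · exact Or.inr (Or.inl ((hiff1 W h1').2 h2))
    · have b1' : ∀ c : k, algebraMap k N c ∈ W' := fun c => by rw [← hkN]; exact b1 c
      rcases b2 with b2 | b2 | b2
      · exact Or.inl ((hiff0 W' b1').1 b2)
      · exact Or.inr (Or.inl ((hiff1 W' b1').1 b2))
      · rw [hHN, hgk] at b2
        exact Or.inr (Or.inr b2)

end main

end Pool.Agent.K1H74.SC
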