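import Pool.Agent.K1H74.SC.A1
import Pool.Agent.K1H74.SC.N1

/-!
# Uniformisers of the cyclic coverings with arbitrary ramification exponents
-/

set_option autoImplicit false
set_option linter.all false

open Polynomial FF

namespace Pool.Agent.K1H74.SC

open Pool.Agent.Y157.PS Pool.Agent.Y948.PS Pool.Agent.Y158.FQ Pool.Agent.Y809.PS

section

variable {κ R Ω : Type} [Field κ] [IsAlgClosed κ] [CharZero κ] [Field R] [Field Ω] [Algebra κ R]
  [Algebra R Ω] [Algebra κ Ω] [IsScalarTower κ R Ω] [Algebra.IsAlgebraic R Ω]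
  {W : ValuationSubring Ω}

omit [IsAlgClosed κ] [CharZero κ] [Algebra κ R] [Algebra κ Ω] [IsScalarTower κ R Ω] in
/-- the tamely ramified points -/
theorem tame {ℓ : ℕ} (hℓ : 0 < ℓ) {T : Ω} {G : R} (hT : T ^ ℓ = algebraMap R Ω G) (hT0 : T ≠ 0)
    {τ : R} (hτ0 : τ ≠ 0) (hτ : W.valuation (algebraMap R Ω τ) < 1)
    (hR : ∀ z : R, z ≠ 0 → ∃ n : ℤ, W.valuation (algebraMap R Ω z) =
      W.valuation (algebraMap R Ω τ) ^ n) {s a q : ℤ} (hs : s * a = 1 + ℓ * q)
    (hv : W.valuation T ^ ℓ = W.valuation (algebraMap R Ω τ) ^ s) :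
    ∃ π, Unf (IntermediateField.adjoin R {T}) W π ∧
      W.valuation π ^ ℓ = W.valuation (algebraMap R Ω τ) := by
  have hτ0' : algebraMap R Ω τ ≠ 0 := (_root_.map_ne_zero _).2 hτ0
  have hvτ0 : W.valuation (algebraMap R Ω τ) ≠ 0 := (_root_.map_ne_zero _).2 hτ0'
  have hvT0 : W.valuation T ≠ 0 := (_root_.map_ne_zero _).2 hT0
  have hTm : T ∈ IntermediateField.adjoin R {T} := IntermediateField.mem_adjoin_simple_self R T
  obtain ⟨π, hπ⟩ : ∃ π, π = T ^ a / algebraMap R Ω τ ^ q := ⟨_, rfl⟩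
  have hπ0 : π ≠ 0 := by
    rw [hπ]
    exact div_ne_zero (zpow_ne_zero _ hT0) (zpow_ne_zero _ hτ0')
  have hπm : π ∈ IntermediateField.adjoin R {T} := by
    rw [hπ]
    exact div_mem (zpow_mem hTm _) (zpow_mem (IntermediateField.algebraMap_mem _ _) _)
  have hπℓ : π ^ ℓ = algebraMap R Ω (G ^ a / τ ^ (ℓ * q)) := by
    rw [hπ, div_pow, map_div₀, map_zpow₀, map_zpow₀, ← hT, ← zpow_natCast, ← zpow_natCast,
      ← zpow_natCast, ← zpow_mul, ← zpow_mul, ← zpow_mul, mul_comm a, mul_comm q]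
  have hπv : W.valuation π ^ ℓ = W.valuation (algebraMap R Ω τ) := by
    rw [hπ, map_div₀, map_zpow₀, map_zpow₀, div_pow, ← zpow_natCast, ← zpow_natCast, ← zpow_mul,
      mul_comm a, zpow_mul, zpow_natCast, hv, ← zpow_mul, ← zpow_mul, ← zpow_sub₀ hvτ0, hs,
      mul_comm q, add_sub_cancel_right, zpow_one]
  have hπ1 : W.valuation π < 1 := by
    by_contra h
    rw [not_lt] at h
    have := one_le_pow₀ h (n := ℓ)
    rw [hπv] at this
    exact absurd hτ (not_lt.2 this)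
  have hTπ : T ∈ IntermediateField.adjoin R {π} := by
    have h1 : T = (π * algebraMap R Ω τ ^ q) ^ s * (T ^ ℓ) ^ (-q) := by
      rw [hπ, div_mul_cancel₀ _ (zpow_ne_zero _ hτ0'), ← zpow_natCast, ← zpow_mul, ← zpow_mul,
        ← zpow_add₀ hT0]
      have h2 : a * s + (ℓ : ℤ) * -q = 1 := by linear_combination hs
      rw [h2, zpow_one]
    rw [h1, hT]
    exact mul_mem (zpow_mem (mul_mem (IntermediateField.mem_adjoin_simple_self R π)
      (zpow_mem (IntermediateField.algebraMap_mem _ _) _)) _)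
      (zpow_mem (IntermediateField.algebraMap_mem _ _) _)
  have hle : IntermediateField.adjoin R {T} ≤ IntermediateField.adjoin R {π} := by
    rw [IntermediateField.adjoin_simple_le_iff]
    exact hTπ
  refine ⟨π, ⟨hπm, hπ0, hπ1, fun z hz hz0 => ?_⟩, hπv⟩
  refine val_branch hℓ hπℓ hπ0 hπ1 (fun z hz => ?_) z (hle hz) hz0
  obtain ⟨n, hn⟩ := hR z hz
  exact ⟨n, by rw [hn, ← hπv, zpow_mul, zpow_natCast]⟩

/-- exponents prime to `ℓ` -/
theorem exists_inv_int {ℓ : ℕ} [hp : Fact ℓ.Prime] {n : ℕ} (h : ¬ ℓ ∣ n) :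
    ∃ a q : ℤ, (n : ℤ) * a = 1 + ℓ * q := by
  obtain ⟨a, q, h1⟩ := exists_inv_mod h
  exact ⟨a, q, by exact_mod_cast h1⟩

/-- **uniformisers** -/
theorem unf_all {ℓ : ℕ} [hp : Fact ℓ.Prime] {x : R} (hx : RatF κ x) {ι : Type} [Fintype ι]
    (e : ι → κ) (he : Function.Injective e) (hc : ∀ c : κ, algebraMap κ Ω c ∈ W)
    (hW : ∃ z : R, algebraMap R Ω z ∉ W) :
    ∃ (g : W.ValueGroup) (m : ℕ), 0 < m ∧ ∀ (r : ι → ℕ) (T : Ω), (∀ i, ¬ ℓ ∣ r i) →
      (¬ ℓ ∣ ∑ i, r i) → T ^ ℓ = ∏ i, (algebraMap R Ω x - algebraMap κ Ω (e i)) ^ r i →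
      ∃ π, Unf (IntermediateField.adjoin R {T}) W π ∧ W.valuation π ^ m = g ∧
        ∀ i, ∃ n : ℤ, W.valuation (algebraMap R Ω x - algebraMap κ Ω (e i)) =
          W.valuation π ^ ((ℓ : ℤ) * n) := by
  classical
  have hℓ : 0 < ℓ := hp.out.pos
  have hxa : ∀ a : κ, algebraMap R Ω x - algebraMap κ Ω a ≠ 0 := by
    intro a h0
    rw [IsScalarTower.algebraMap_apply κ R Ω, ← map_sub, FaithfulSMul.algebraMap_eq_zero_iff,
      sub_eq_zero] at h0
    apply hx.trans
    rw [h0]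
    exact isAlgebraic_algebraMap a
  have hxaR : ∀ a : κ, algebraMap R Ω (x - algebraMap κ R a) =
      algebraMap R Ω x - algebraMap κ Ω a := by
    intro a
    rw [map_sub, ← IsScalarTower.algebraMap_apply]
  have hTR : ∀ (r : ι → ℕ) (T : Ω),
      T ^ ℓ = ∏ i, (algebraMap R Ω x - algebraMap κ Ω (e i)) ^ r i →
      T ^ ℓ = algebraMap R Ω (aeval x (∏ i, (X - C (e i)) ^ r i : κ[X])) := by
    intro r T hT
    rw [hT, map_prod, map_prod]
    refine Finset.prod_congr rfl fun i _ => ?_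
    rw [map_pow, map_pow, map_sub, aeval_X, aeval_C, hxaR]
  have hT0 : ∀ (r : ι → ℕ) (T : Ω),
      T ^ ℓ = ∏ i, (algebraMap R Ω x - algebraMap κ Ω (e i)) ^ r i → T ≠ 0 := by
    rintro r T hT rfl
    rw [zero_pow hℓ.ne'] at hT
    obtain ⟨i, -, hi⟩ := Finset.prod_eq_zero_iff.1 hT.symm
    exact pow_ne_zero _ (hxa _) hi
  rcases place_or hc hx hW with ⟨b, hb, hb'⟩ | ⟨h1, h1'⟩
  · have g0 : W.valuation (algebraMap R Ω x - algebraMap κ Ω b) ≠ 0 :=
      (_root_.map_ne_zero _).2 (hxa b)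
    have hR := val_R hc hx (W.valuation (algebraMap R Ω x - algebraMap κ Ω b)) g0 (fun a => by
      by_cases hab : a = b
      · exact ⟨1, by rw [hab, zpow_one]⟩
      · exact ⟨0, by rw [hb' a hab, zpow_zero]⟩)
    by_cases hbB : ∃ i, e i = b
    · -- branch point
      obtain ⟨i, rfl⟩ := hbB
      refine ⟨W.valuation (algebraMap R Ω x - algebraMap κ Ω (e i)), ℓ, hℓ, fun r T hr hrs hT => ?_⟩
      have hv : W.valuation T ^ ℓ =
          W.valuation (algebraMap R Ω x - algebraMap κ Ω (e i)) ^ (r i : ℤ) := by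
        rw [← map_pow, hT, map_prod, Finset.prod_eq_single i, map_pow, zpow_natCast]
        · intro j _ hj
          rw [map_pow, hb' (e j) (fun h => hj (he h)), one_pow]
        · intro h
          exact absurd (Finset.mem_univ i) h
      obtain ⟨a, q, haq⟩ := exists_inv_int (hr i)
      obtain ⟨π, h2, h3⟩ := tame (W := W) hℓ (hTR r T hT) (hT0 r T hT)
        (τ := x - algebraMap κ R (e i)) (by
          intro h
          apply hxa (e i)
          rw [← hxaR, h, map_zero]) (by rw [hxaR]; exact hb) (by rw [hxaR]; exact hR) haq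
        (by rw [hxaR]; exact hv)
      rw [hxaR] at h3
      refine ⟨π, h2, h3, fun j => ?_⟩
      by_cases hj : j = i
      · subst hj
        exact ⟨1, by rw [mul_one, zpow_natCast, h3]⟩
      · exact ⟨0, by rw [mul_zero, zpow_zero, hb' (e j) (fun h => hj (he h))]⟩
    · -- an unramified point
      push Not at hbB
      refine ⟨W.valuation (algebraMap R Ω x - algebraMap κ Ω b), 1, one_pos,
        fun r T hr hrs hT => ?_⟩
      refine ⟨algebraMap R Ω x - algebraMap κ Ω b, ⟨?_, hxa b, hb, fun z hz hz0 => ?_⟩,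
        pow_one _, fun j => ⟨0, by rw [mul_zero, zpow_zero, hb' (e j) (hbB j)]⟩⟩
      · rw [← hxaR]
        exact IntermediateField.algebraMap_mem _ _
      · have ha0 : (∏ i, (X - C (e i)) ^ r i : κ[X]).eval b ≠ 0 := by
          rw [eval_prod, Finset.prod_ne_zero_iff]
          intro i _
          rw [eval_pow, eval_sub, eval_X, eval_C]
          exact pow_ne_zero _ (sub_ne_zero.2 fun h => hbB i h.symm)
        refine val_adjoin hc hℓ ha0 (hTR r T hT) g0 hb hR ?_ z hz hz0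
        rw [← ValuationSubring.mem_nonunits_iff, ← aeval_algebraMap_apply]
        have h3 := aeval_non_of_root (k := κ) W hc (w := algebraMap R Ω x) (e := b)
          ((ValuationSubring.mem_nonunits_iff _).2 hb)
          ((∏ i, (X - C (e i)) ^ r i : κ[X]) - C ((∏ i, (X - C (e i)) ^ r i : κ[X]).eval b))
          (by rw [eval_sub, eval_C, sub_self])
        rw [map_sub, aeval_C] at h3
        exact h3
  · -- infinity
    have hx0 : algebraMap R Ω x ≠ 0 := by
      have := hxa 0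
      rwa [map_zero, sub_zero] at this
    have hv0 : W.valuation (algebraMap R Ω x) ≠ 0 := (_root_.map_ne_zero _).2 hx0
    have hxR0 : x ≠ 0 := by
      rintro rfl
      exact hx0 (map_zero _)
    have hinv : algebraMap R Ω x⁻¹ = (algebraMap R Ω x)⁻¹ := map_inv₀ _ _
    have g0 : W.valuation (algebraMap R Ω x)⁻¹ ≠ 0 := (_root_.map_ne_zero _).2 (inv_ne_zero hx0)
    have g1 : W.valuation (algebraMap R Ω x)⁻¹ < 1 := by
      rw [map_inv₀]
      exact inv_lt_one_of_one_lt₀ h1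
    have hR := val_R hc hx (W.valuation (algebraMap R Ω x)⁻¹) g0 (fun a => ⟨-1, by
      rw [h1' a, map_inv₀, zpow_neg, zpow_one, inv_inv]⟩)
    refine ⟨W.valuation (algebraMap R Ω x)⁻¹, ℓ, hℓ, fun r T hr hrs hT => ?_⟩
    have hv : W.valuation T ^ ℓ =
        W.valuation (algebraMap R Ω x)⁻¹ ^ (-((∑ i, r i : ℕ) : ℤ)) := by
      rw [← map_pow, hT, map_prod, zpow_neg, zpow_natCast, map_inv₀, inv_pow, inv_inv,
        ← Finset.prod_pow_eq_pow_sum]
      refine Finset.prod_congr rfl fun i _ => ?_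
      rw [map_pow, h1']
    obtain ⟨a, q, haq⟩ := exists_inv_int hrs
    obtain ⟨π, h2, h3⟩ := tame (W := W) hℓ (hTR r T hT) (hT0 r T hT)
      (τ := x⁻¹) (inv_ne_zero hxR0) (by rw [hinv]; exact g1) (by rw [hinv]; exact hR)
      (s := -((∑ i, r i : ℕ) : ℤ)) (a := -a) (q := q) (by rw [neg_mul_neg]; exact haq)
      (by rw [hinv]; exact hv)
    rw [hinv] at h3
    refine ⟨π, h2, h3, fun j => ⟨-1, ?_⟩⟩
    rw [mul_neg_one, zpow_neg, zpow_natCast, h3, h1', map_inv₀, inv_inv]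

end

end Pool.Agent.K1H74.SC
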