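import Pool.Agent.K1H74.SC.E1

/-!
# The covering fields of cyclic coverings with the same branch points agree
-/

set_option autoImplicit false
set_option linter.all false

open Polynomial FF

namespace Pool.Agent.K1H74.SC

open Pool.Agent.Y157.PS Pool.Agent.Y948.PS Pool.Agent.Y158.FQ Pool.Agent.Y809.PS

/-- approximation by elements of fields with uniformisers of the same value -/
theorem apx_trans2 {R Ω : Type} [Field R] [Field Ω] [Algebra R Ω]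
    {K₁ K₂ : IntermediateField R Ω} {W : ValuationSubring Ω} {π₁ π₂ : Ω} (h1 : Unf K₁ W π₁)
    (h2 : Unf K₂ W π₂) (hv : W.valuation π₁ = W.valuation π₂)
    (hK : ∀ z ∈ K₁, Apx K₂ W z) {z : Ω} (h : Apx K₁ W z) : Apx K₂ W z := by
  intro s hs hs0
  obtain ⟨n, hn⟩ := h2.val s hs hs0
  obtain ⟨t, ht, h3⟩ := h (π₁ ^ n) (zpow_mem h1.mem n) (zpow_ne_zero n h1.ne)
  obtain ⟨t', ht', h4⟩ := hK t ht s hs hs0
  refine ⟨t', ht', ?_⟩
  have h5 : z - t' = (z - t) + (t - t') := by ring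
  rw [h5]
  refine (Valuation.map_add _ _ _).trans (max_le ?_ h4)
  rw [hn, ← hv, ← map_zpow₀]
  exact h3

section

variable {κ R Ω : Type} [Field κ] [IsAlgClosed κ] [CharZero κ] [Field R] [Field Ω] [Algebra κ R]
  [Algebra R Ω] [Algebra κ Ω] [IsScalarTower κ R Ω] [Algebra.IsAlgebraic R Ω] [Normal R Ω]

/-- the field generated by `T` is approximated -/
theorem apx_adjoin {ℓ : ℕ} [hp : Fact ℓ.Prime] {x : R} (hx : RatF κ x)
    {K₂ : IntermediateField R Ω} {W : ValuationSubring Ω} (hκ : ∀ c : κ, algebraMap κ Ω c ∈ W)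
    (hW : W ≠ ⊤) {π₁ π₂ T : Ω} (h1 : Unf (IntermediateField.adjoin R {T}) W π₁)
    (h2 : Unf K₂ W π₂) (hv : W.valuation π₁ = W.valuation π₂) (hT0 : T ≠ 0) {f : R}
    (hT : T ^ ℓ = algebraMap R Ω f) : ∀ z ∈ IntermediateField.adjoin R {T}, Apx K₂ W z := by
  have hℓ0 : ℓ ≠ 0 := hp.out.ne_zero
  let T' : Subfield Ω :=
    { (ApxS K₂ W).toSubring with
      inv_mem' := fun x hx => Apx.inv hx }
  have hT' : ∀ t, t ∈ T' ↔ Apx K₂ W t := fun t => Iff.rfl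
  intro z hz
  rw [← hT']
  refine adjoin_le_sub (T := T') (fun r => ?_) (fun t ht => ?_) z hz
  · exact (hT' _).2 (Apx.of_mem (IntermediateField.algebraMap_mem _ _))
  · rw [Set.mem_singleton_iff] at ht
    rw [ht]
    obtain ⟨n, hn⟩ := h1.val T (IntermediateField.mem_adjoin_simple_self R T) hT0
    refine (hT' _).2 (Apx.root h2 (hres hx K₂ W hκ hW) hℓ0 (vl hℓ0 W hκ) T (Apx.of_mem ?_) n ?_)
    · rw [hT]
      exact IntermediateField.algebraMap_mem _ _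
    · rw [map_pow, hn, hv, ← zpow_natCast, ← zpow_mul, mul_comm]

/-- the covering fields are equal -/
theorem maxPro_exps {ℓ : ℕ} [hp : Fact ℓ.Prime] {x : R} (hx : RatF κ x) {ι : Type} [Fintype ι]
    (e : ι → κ) (he : Function.Injective e) {r r' : ι → ℕ} (hr : ∀ i, ¬ ℓ ∣ r i)
    (hrs : ¬ ℓ ∣ ∑ i, r i) (hr' : ∀ i, ¬ ℓ ∣ r' i) (hrs' : ¬ ℓ ∣ ∑ i, r' i) {T T' : Ω}
    (hT : T ^ ℓ = ∏ i, (algebraMap R Ω x - algebraMap κ Ω (e i)) ^ r i)
    (hT' : T' ^ ℓ = ∏ i, (algebraMap R Ω x - algebraMap κ Ω (e i)) ^ r' i) :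
    (∀ z, z ∈ maxPro ℓ κ (IntermediateField.adjoin R {T}) Ω ↔
      z ∈ maxPro ℓ κ (IntermediateField.adjoin R {T'}) Ω) ∧
    ∀ (i : ι) (h : Ω), h ^ ℓ = algebraMap R Ω x - algebraMap κ Ω (e i) →
      h ∈ maxPro ℓ κ (IntermediateField.adjoin R {T}) Ω := by
  have hℓ0 : ℓ ≠ 0 := hp.out.ne_zero
  have hxa : ∀ a : κ, algebraMap R Ω x - algebraMap κ Ω a ≠ 0 := by
    intro a h0
    rw [IsScalarTower.algebraMap_apply κ R Ω, ← map_sub, FaithfulSMul.algebraMap_eq_zero_iff,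
      sub_eq_zero] at h0
    apply hx.trans
    rw [h0]
    exact isAlgebraic_algebraMap a
  have hxaR : ∀ a : κ, algebraMap R Ω (x - algebraMap κ R a) =
      algebraMap R Ω x - algebraMap κ Ω a := by
    intro a
    rw [map_sub, ← IsScalarTower.algebraMap_apply]
  have hTR : ∀ (r : ι → ℕ) (T : Ω),
      T ^ ℓ = ∏ i, (algebraMap R Ω x - algebraMap κ Ω (e i)) ^ r i →
      T ^ ℓ = algebraMap R Ω (∏ i, (x - algebraMap κ R (e i)) ^ r i) := by
    intro r T hT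
    rw [hT, map_prod]
    refine Finset.prod_congr rfl fun i _ => ?_
    rw [map_pow, hxaR]
  have hT0 : ∀ (r : ι → ℕ) (T : Ω),
      T ^ ℓ = ∏ i, (algebraMap R Ω x - algebraMap κ Ω (e i)) ^ r i → T ≠ 0 := by
    rintro r T hT rfl
    rw [zero_pow hℓ0] at hT
    obtain ⟨i, -, hi⟩ := Finset.prod_eq_zero_iff.1 hT.symm
    exact pow_ne_zero _ (hxa _) hi
  have hnt : ∀ W : ValuationSubring Ω, W ≠ ⊤ → ∃ z : R, algebraMap R Ω z ∉ W := by
    intro W hW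
    by_contra hc
    push Not at hc
    exact hW (top_of_R W hc)
  have key : ∀ W : ValuationSubring Ω, (∀ c : κ, algebraMap κ Ω c ∈ W) → W ≠ ⊤ →
      ∃ π₁ π₂, Unf (IntermediateField.adjoin R {T}) W π₁ ∧
        Unf (IntermediateField.adjoin R {T'}) W π₂ ∧ W.valuation π₁ = W.valuation π₂ ∧
        ∀ i, ∃ n : ℤ, W.valuation (algebraMap R Ω x - algebraMap κ Ω (e i)) =
          W.valuation π₁ ^ ((ℓ : ℤ) * n) := by
    intro W hκ hW
    obtain ⟨g, m, hm, h⟩ := unf_all (ℓ := ℓ) hx e he hκ (hnt W hW)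
    obtain ⟨π₁, a1, a2, a3⟩ := h r T hr hrs hT
    obtain ⟨π₂, b1, b2, b3⟩ := h r' T' hr' hrs' hT'
    refine ⟨π₁, π₂, a1, b1, ?_, a3⟩
    exact (pow_left_inj₀ zero_le zero_le hm.ne').1 (a2.trans b2.symm)
  have hU₁ : HU κ (IntermediateField.adjoin R {T}) := fun W hκ hW => by
    obtain ⟨π₁, π₂, h1, h2, h3, h4⟩ := key W hκ hW
    exact ⟨π₁, h1⟩
  have hU₂ : HU κ (IntermediateField.adjoin R {T'}) := fun W hκ hW => by
    obtain ⟨π₁, π₂, h1, h2, h3, h4⟩ := key W hκ hW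
    exact ⟨π₂, h2⟩
  have hμ : ∀ ζ : Ω, ζ ^ ℓ = 1 → ∃ c : R, algebraMap R Ω c = ζ := fun ζ => muR (κ := κ) hℓ0 ζ
  have m1 : ∀ z, z ∈ maxPro ℓ κ (IntermediateField.adjoin R {T}) Ω ↔
      Mem ℓ κ (IntermediateField.adjoin R {T}) z := fun z =>
    ⟨fun h => maxPro_le hx (hTR r T hT) hU₁ h, fun h => le_maxPro (hTR r T hT) hU₁ h⟩
  have m2 : ∀ z, z ∈ maxPro ℓ κ (IntermediateField.adjoin R {T'}) Ω ↔
      Mem ℓ κ (IntermediateField.adjoin R {T'}) z := fun z =>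
    ⟨fun h => maxPro_le hx (hTR r' T' hT') hU₂ h, fun h => le_maxPro (hTR r' T' hT') hU₂ h⟩
  refine ⟨fun z => ?_, fun i h hh => ?_⟩
  · rw [m1, m2]
    unfold Mem
    refine and_congr_right fun _ => forall_congr' fun W => forall_congr' fun hκ =>
      forall_congr' fun hW => ?_
    obtain ⟨π₁, π₂, h1, h2, h3, h4⟩ := key W hκ hW
    exact ⟨apx_trans2 h1 h2 h3 (apx_adjoin hx hκ hW h1 h2 h3 (hT0 r T hT) (hTR r T hT)),
      apx_trans2 h2 h1 h3.symm (apx_adjoin hx hκ hW h2 h1 h3.symm (hT0 r' T' hT')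
        (hTR r' T' hT'))⟩
  · rw [m1]
    refine ⟨Pro.root hμ ?_, fun W hκ hW => ?_⟩
    · rw [hh, ← hxaR]
      exact Pro.base ℓ _
    · obtain ⟨π₁, π₂, h1, h2, h3, h4⟩ := key W hκ hW
      obtain ⟨n, hn⟩ := h4 i
      refine Apx.root h1 (hres hx _ W hκ hW) hℓ0 (vl hℓ0 W hκ) h (Apx.of_mem ?_) n ?_
      · rw [hh, ← hxaR]
        exact IntermediateField.algebraMap_mem _ _
      · rw [hh]
        exact hn

end

end Pool.Agent.K1H74.SC
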