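import Pool.Agent.K1H74.SC.E2
import Pool.Agent.K1H74.SC.A3

/-!
# The geometrically pro-`ℓ` extensions of cyclic coverings with the same branch points agree
-/

set_option autoImplicit false
set_option linter.all false

open Polynomial FF

namespace Pool.Agent.K1H74.SC

open Pool.Agent.Y157.PS Pool.Agent.Y948.PS Pool.Agent.Y158.FQ

section

variable {k F Ω : Type} [Field k] [CharZero k] [Field F] [Field Ω] [Algebra k F] [Algebra F Ω]
  [Algebra k Ω] [IsScalarTower k F Ω] [IsAlgClosed Ω] [Algebra.IsAlgebraic F Ω]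

theorem geomPro_exps {ℓ : ℕ} [hp : Fact ℓ.Prime] {ι : Type} [Fintype ι] (e : ι → k)
    (he : Function.Injective e) {r r' : ι → ℕ} (hr : ∀ i, ¬ ℓ ∣ r i)
    (hrs : ¬ ℓ ∣ ∑ i, r i) (hr' : ∀ i, ¬ ℓ ∣ r' i) (hrs' : ¬ ℓ ∣ ∑ i, r' i) {d d' : k}
    (hd : d ≠ 0) (hd' : d' ≠ 0) (u t : F) (hu : Transcendental k u)
    (hut : algebraMap k F d * t ^ ℓ = ∏ i, (u - algebraMap k F (e i)) ^ r i)
    (hF : IntermediateField.adjoin k {u, t} = (⊤ : IntermediateField k F))
    (halgF : Algebra.IsAlgebraic (IntermediateField.adjoin k {u}) F) (T' : Ω)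
    (hT' : algebraMap k Ω d' * T' ^ ℓ =
      ∏ i, (algebraMap F Ω u - algebraMap k Ω (e i)) ^ r' i) :
    (∀ z, z ∈ geomPro ℓ k (IntermediateField.adjoin k {algebraMap F Ω u, T'}) Ω ↔
      z ∈ geomPro ℓ k F Ω) ∧
    ∀ (i : ι) (h : Ω), h ^ ℓ = algebraMap F Ω u - algebraMap k Ω (e i) →
      h ∈ geomPro ℓ k F Ω := by
  haveI : IsAlgClosure k (algebraicClosure k Ω) := inferInstance
  haveI : IsAlgClosed (algebraicClosure k Ω) := IsAlgClosure.isAlgClosed k
  haveI : CharZero (algebraicClosure k Ω) :=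
    charZero_of_injective_algebraMap (algebraMap k (algebraicClosure k Ω)).injective
  have hℓ0 : ℓ ≠ 0 := hp.out.ne_zero
  have huΩ : Transcendental k (algebraMap F Ω u) :=
    (transcendental_algebraMap_iff (R := k) (algebraMap F Ω).injective (a := u)).2 hu
  have huκ : Transcendental (algebraicClosure k Ω) (algebraMap F Ω u) := trans_up huΩ
  obtain ⟨κ, hκ⟩ : ∃ κ : Type, κ = algebraicClosure k Ω := ⟨_, rfl⟩
  have hrat := ratF_adj huκ
  have halg : Algebra.IsAlgebraic
      (IntermediateField.adjoin (algebraicClosure k Ω) {algebraMap F Ω u}) Ω := by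
    let R : IntermediateField k Ω := (IntermediateField.adjoin (algebraicClosure k Ω)
      {algebraMap F Ω u}).restrictScalars k
    have h2 : Algebra.IsAlgebraic R Ω := alg_over halgF R
      (IntermediateField.mem_adjoin_simple_self (algebraicClosure k Ω) _)
    exact h2
  haveI : IsAlgClosure (IntermediateField.adjoin (algebraicClosure k Ω) {algebraMap F Ω u}) Ω :=
    ⟨inferInstance, inferInstance⟩
  haveI : Normal (IntermediateField.adjoin (algebraicClosure k Ω) {algebraMap F Ω u}) Ω :=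
    IsAlgClosure.normal _ Ω
  obtain ⟨δ, hδ⟩ := IsAlgClosed.exists_pow_nat_eq
    (algebraMap k (algebraicClosure k Ω) d) hp.out.pos
  obtain ⟨δ', hδ'⟩ := IsAlgClosed.exists_pow_nat_eq
    (algebraMap k (algebraicClosure k Ω) d') hp.out.pos
  have hδ0 : δ ≠ 0 := by
    rintro rfl
    rw [zero_pow hℓ0] at hδ
    exact (_root_.map_ne_zero _).2 hd hδ.symm
  have hδ0' : δ' ≠ 0 := by
    rintro rfl
    rw [zero_pow hℓ0] at hδ'
    exact (_root_.map_ne_zero _).2 hd' hδ'.symm
  have hδΩ : (δ : Ω) ^ ℓ = algebraMap k Ω d := by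
    have h1 := congrArg (algebraMap (algebraicClosure k Ω) Ω) hδ
    rw [map_pow, ← IsScalarTower.algebraMap_apply] at h1
    exact h1
  have hδΩ' : (δ' : Ω) ^ ℓ = algebraMap k Ω d' := by
    have h1 := congrArg (algebraMap (algebraicClosure k Ω) Ω) hδ'
    rw [map_pow, ← IsScalarTower.algebraMap_apply] at h1
    exact h1
  have hinj : Function.Injective fun i => algebraMap k (algebraicClosure k Ω) (e i) :=
    (algebraMap k (algebraicClosure k Ω)).injective.comp he
  have hT : ((δ : Ω) * algebraMap F Ω t) ^ ℓ = ∏ i,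
      (algebraMap (IntermediateField.adjoin (algebraicClosure k Ω) {algebraMap F Ω u}) Ω
        ⟨algebraMap F Ω u, IntermediateField.mem_adjoin_simple_self _ _⟩ -
        algebraMap (algebraicClosure k Ω) Ω (algebraMap k (algebraicClosure k Ω) (e i))) ^ r i := by
    have h1 := congrArg (algebraMap F Ω) hut
    rw [map_mul, map_pow, ← IsScalarTower.algebraMap_apply, map_prod] at h1
    rw [mul_pow, hδΩ, h1]
    refine Finset.prod_congr rfl fun i _ => ?_
    rw [map_pow, map_sub, ← IsScalarTower.algebraMap_apply, ← IsScalarTower.algebraMap_apply]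
    rfl
  have hTT : ((δ' : Ω) * T') ^ ℓ = ∏ i,
      (algebraMap (IntermediateField.adjoin (algebraicClosure k Ω) {algebraMap F Ω u}) Ω
        ⟨algebraMap F Ω u, IntermediateField.mem_adjoin_simple_self _ _⟩ -
        algebraMap (algebraicClosure k Ω) Ω (algebraMap k (algebraicClosure k Ω) (e i))) ^ r' i := by
    rw [mul_pow, hδΩ', hT']
    refine Finset.prod_congr rfl fun i _ => ?_
    rw [← IsScalarTower.algebraMap_apply]
    rfl
  obtain ⟨h1, h2⟩ := maxPro_exps (κ := algebraicClosure k Ω) hrat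
    (fun i => algebraMap k (algebraicClosure k Ω) (e i)) hinj hr hrs hr' hrs' hT hTT
  have h6 := maxPro_geom (Ω := Ω) ℓ k hF δ hδ0
  refine ⟨fun z => ?_, fun i h hh => ?_⟩
  · obtain ⟨E, hE⟩ : ∃ E : IntermediateField k Ω,
      E = IntermediateField.adjoin k {algebraMap F Ω u, T'} := ⟨_, rfl⟩
    have hu₁ : algebraMap F Ω u ∈ E := by
      rw [hE]; exact IntermediateField.subset_adjoin k _ (by simp)
    have hT₁ : T' ∈ E := by rw [hE]; exact IntermediateField.subset_adjoin k _ (by simp)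
    have h3 := maxPro_geom (Ω := Ω) ℓ k (adjoin_pair_top hE hu₁ hT₁) δ' hδ0' z
    rw [← hE, ← h3, ← h6]
    exact (h1 z).symm
  · rw [← h6]
    refine h2 i h ?_
    rw [hh, ← IsScalarTower.algebraMap_apply]
    rfl

end

end Pool.Agent.K1H74.SC
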