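import Pool.Agent.K1H74.SC.E3

/-!
# Twists of roots, and the choice of the exponents
-/

set_option autoImplicit false
set_option linter.all false

open Polynomial FF

namespace Pool.Agent.K1H74.SC

open Pool.Agent.Y157.PS Pool.Agent.Y948.PS Pool.Agent.Y158.FQ

section

variable {k F Ω : Type} [Field k] [CharZero k] [Field F] [Field Ω] [Algebra k F] [Algebra F Ω]
  [Algebra k Ω] [IsScalarTower k F Ω] [IsAlgClosed Ω] [Algebra.IsAlgebraic F Ω]

/-- an `ℓ`-th root in `N` of a function has a twist which is fixed by the section -/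
theorem twist_one {ℓ : ℕ} [hp : Fact ℓ.Prime] (N : IntermediateField F Ω)
    (hN : geomPro ℓ k F Ω ≤ N)
    (S : (algebraicClosure k Ω ≃ₐ[k] algebraicClosure k Ω) →* (N ≃ₐ[F] N)) (hcont : Continuous S)
    (hcompat : ∀ σ (c : algebraicClosure k Ω) (z : N), (z : Ω) = (c : Ω) →
      (S σ z : Ω) = (σ c : Ω)) (u : F) (hu0 : u ≠ 0) (x₀ : Ω) (hx₀ : x₀ ^ ℓ = algebraMap F Ω u)
    (hmem : x₀ ∈ N) :
    ∃ (x : N) (b : k), b ≠ 0 ∧ (x : Ω) ≠ 0 ∧
      algebraMap F Ω u = algebraMap k Ω b * (x : Ω) ^ ℓ ∧ (∀ σ, S σ x = x) := by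
  have hℓ0 : ℓ ≠ 0 := hp.out.ne_zero
  haveI : IsAlgClosure k (algebraicClosure k Ω) := inferInstance
  have hx₀0 : x₀ ≠ 0 := by
    rintro rfl
    rw [zero_pow hℓ0] at hx₀
    exact hu0 ((map_eq_zero _).1 hx₀.symm)
  have hcN : ∀ c : algebraicClosure k Ω, (c : Ω) ∈ N := fun c => hN (const_geomPro ℓ k c)
  let X₀ : N := ⟨x₀, hmem⟩
  have hX₀0 : X₀ ≠ 0 := fun h => hx₀0 (congrArg Subtype.val h)
  have hX₀ℓ : X₀ ^ ℓ = algebraMap F N u := Subtype.ext hx₀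
  have hroot : ∀ σ, (S σ X₀ / X₀) ^ ℓ = 1 := by
    intro σ
    rw [div_pow, ← map_pow, hX₀ℓ, (S σ).commutes, div_self]
    rw [← hX₀ℓ]
    exact pow_ne_zero _ hX₀0
  have hκm : ∀ σ, ((S σ X₀ / X₀ : N) : Ω) ∈ algebraicClosure k Ω := by
    intro σ
    rw [mem_algebraicClosure_iff']
    refine IsIntegral.of_pow hp.out.pos ?_
    have h1 : ((S σ X₀ / X₀ : N) : Ω) ^ ℓ = 1 := congrArg (fun w : N => (w : Ω)) (hroot σ)
    rw [h1]
    exact isIntegral_one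
  let ξ : (algebraicClosure k Ω ≃ₐ[k] algebraicClosure k Ω) → algebraicClosure k Ω :=
    fun σ => ⟨((S σ X₀ / X₀ : N) : Ω), hκm σ⟩
  let cN : algebraicClosure k Ω → N := fun c => ⟨(c : Ω), hcN c⟩
  have hcNS : ∀ σ c, S σ (cN c) = cN (σ c) := fun σ c => Subtype.ext (hcompat σ c (cN c) rfl)
  have hξN : ∀ σ, cN (ξ σ) * X₀ = S σ X₀ := by
    intro σ
    have h1 : cN (ξ σ) = S σ X₀ / X₀ := Subtype.ext rfl
    rw [h1, div_mul_cancel₀ _ hX₀0]
  have hξ1 : ∀ σ, ξ σ ^ ℓ = 1 := by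
    intro σ
    apply Subtype.ext
    have h1 : ((S σ X₀ / X₀ : N) : Ω) ^ ℓ = 1 := congrArg (fun w : N => (w : Ω)) (hroot σ)
    exact h1
  have hcNmul : ∀ a b, cN (a * b) = cN a * cN b := fun a b => Subtype.ext rfl
  have hcNinj : ∀ a b, cN a = cN b → a = b := fun a b h =>
    Subtype.ext (congrArg (fun w : N => (w : Ω)) h)
  have hmul : ∀ σ τ, ξ (σ * τ) = ξ σ * σ (ξ τ) := by
    intro σ τ
    apply hcNinj
    apply mul_right_cancel₀ hX₀0
    rw [hξN, map_mul, hcNmul, mul_right_comm, hξN, ← hcNS]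
    change S σ (S τ X₀) = _
    rw [← hξN τ, map_mul, mul_comm]
  have hcontξ : ∃ E : IntermediateField k (algebraicClosure k Ω), FiniteDimensional k E ∧
      ∀ σ ∈ E.fixingSubgroup, ξ σ = 1 := by
    obtain ⟨E, hE, hE'⟩ := cont_fix S hcont X₀
    refine ⟨E, hE, fun σ hσ => ?_⟩
    apply hcNinj
    apply mul_right_cancel₀ hX₀0
    rw [hξN, hE' σ hσ]
    have h1 : cN 1 = 1 := Subtype.ext rfl
    rw [h1, one_mul]
  obtain ⟨c, hc0, hcξ, t₀, ht₀⟩ := exists_kum (k := k) (κ := algebraicClosure k Ω) hp.out.pos ξ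
    hξ1 hmul hcontξ
  have hcN0 : cN c ≠ 0 := fun h => hc0 (hcNinj c 0 (h.trans (Subtype.ext rfl)))
  have ht₀0 : t₀ ≠ 0 := by
    rintro rfl
    rw [map_zero] at ht₀
    exact pow_ne_zero ℓ hc0 ht₀.symm
  have hfix : ∀ σ, S σ (X₀ / cN c) = X₀ / cN c := by
    intro σ
    have h1 : σ c = ξ σ * c := by rw [← hcξ, div_mul_cancel₀ _ hc0]
    rw [map_div₀, hcNS, h1, hcNmul, ← hξN]
    have h2 : cN (ξ σ) ≠ 0 := by
      intro h3
      have h4 : ξ σ = 0 := hcNinj _ 0 (h3.trans (Subtype.ext rfl))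
      have h5 := hξ1 σ
      rw [h4, zero_pow hℓ0] at h5
      exact zero_ne_one h5
    rw [mul_div_mul_left _ _ h2]
  have hx0 : ((X₀ / cN c : N) : Ω) ≠ 0 := by
    intro h
    exact div_ne_zero hX₀0 hcN0 (Subtype.ext h)
  refine ⟨X₀ / cN c, t₀, ht₀0, hx0, ?_, hfix⟩
  have h1 : algebraMap k Ω t₀ = (c : Ω) ^ ℓ := by
    rw [IsScalarTower.algebraMap_apply k (algebraicClosure k Ω) Ω, ht₀, map_pow]
    rfl
  have h2 : ((X₀ / cN c : N) : Ω) = x₀ / (c : Ω) := rfl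
  have hc0' : (c : Ω) ≠ 0 := fun h => hc0 (Subtype.ext h)
  rw [h1, h2, div_pow, mul_div_cancel₀ _ (pow_ne_zero _ hc0'), hx₀]

/-- a fixed root of a constant is a constant -/
theorem const_of_fixed {ℓ : ℕ} [hp : Fact ℓ.Prime] (N : IntermediateField F Ω)
    (S : (algebraicClosure k Ω ≃ₐ[k] algebraicClosure k Ω) →* (N ≃ₐ[F] N))
    (hcompat : ∀ σ (c : algebraicClosure k Ω) (z : N), (z : Ω) = (c : Ω) →
      (S σ z : Ω) = (σ c : Ω)) (w : N) (hw : ∀ σ, S σ w = w) (c₀ : k)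
    (h : (w : Ω) ^ ℓ = algebraMap k Ω c₀) : ∃ c : k, (w : Ω) = algebraMap k Ω c ∧ c ^ ℓ = c₀ := by
  haveI : IsAlgClosure k (algebraicClosure k Ω) := inferInstance
  have h1 : (w : Ω) ∈ algebraicClosure k Ω := by
    rw [mem_algebraicClosure_iff']
    refine IsIntegral.of_pow hp.out.pos ?_
    rw [h]
    exact isIntegral_algebraMap
  have hfix : ∀ σ : algebraicClosure k Ω ≃ₐ[k] algebraicClosure k Ω,
      σ ⟨w, h1⟩ = (⟨w, h1⟩ : algebraicClosure k Ω) := by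
    intro σ
    apply Subtype.ext
    rw [← hcompat σ ⟨w, h1⟩ w rfl, hw]
  have hgal : IsGalois k (algebraicClosure k Ω) := by
    have hn : Normal k (algebraicClosure k Ω) := IsAlgClosure.normal k _
    exact ⟨⟩
  obtain ⟨c, hc⟩ := IntermediateField.mem_bot.1 ((InfiniteGalois.mem_bot_iff_fixed _).2 hfix)
  have h2 : (w : Ω) = algebraMap k Ω c := congrArg Subtype.val hc.symm
  refine ⟨c, h2, (algebraMap k Ω).injective ?_⟩
  rw [map_pow, ← h2, h]

end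

theorem z2a : ∀ z : ZMod 2, z ≠ 0 → z = 1 := by decide
theorem z3a : ∀ z : ZMod 3, z = 0 ∨ z = 1 ∨ z = 2 := by decide
theorem z3b : (2 : ZMod 3) ≠ 0 := by decide
theorem z3c : (2 : ZMod 3) + (0 - 1) ≠ 0 := by decide
theorem z3d : (2 : ZMod 3) + (1 - 1) ≠ 0 := by decide
theorem z3e : (1 : ZMod 3) ≠ 0 := by decide
theorem z3f : (1 : ZMod 3) + (1 - 1) ≠ 0 := by decide
theorem z3g : (2 : ZMod 3) + ((1 : ℕ) : ZMod 3) = 0 := by decide
theorem z3h : (1 : ZMod 3) + (2 - 1) ≠ 0 := by decide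

/-- the choice of the exponents -/
theorem choice {ℓ : ℕ} [hp : Fact ℓ.Prime] {ι : Type} [Fintype ι] [DecidableEq ι] (r : ι → ℕ)
    (v : ι → ℤ) (hr : ∀ i, ¬ ℓ ∣ r i) (hrs : ¬ ℓ ∣ ∑ i, r i)
    (hv : ¬ (ℓ : ℤ) ∣ ∑ i, (r i : ℤ) * v i)
    (h3 : ℓ = 3 → ¬ 3 ∣ Fintype.card ι + 1 ∨ ∀ i j, r i ≡ r j [MOD 3]) :
    ∃ (i₀ : ι) (a : ℕ), ¬ ℓ ∣ a ∧ ¬ ℓ ∣ a + (Fintype.card ι - 1) ∧
      ¬ (ℓ : ℤ) ∣ a * v i₀ + ∑ i ∈ Finset.univ.erase i₀, v i := by
  classical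
  have hR : ∀ i, ((r i : ℕ) : ZMod ℓ) ≠ 0 := fun i h => hr i ((ZMod.natCast_eq_zero_iff _ _).1 h)
  have hRs : (∑ i, ((r i : ℕ) : ZMod ℓ)) ≠ 0 := by
    intro h
    apply hrs
    rw [← ZMod.natCast_eq_zero_iff, Nat.cast_sum]
    exact h
  have hV : (∑ i, ((r i : ℕ) : ZMod ℓ) * (v i : ZMod ℓ)) ≠ 0 := by
    intro h
    apply hv
    rw [← ZMod.intCast_zmod_eq_zero_iff_dvd]
    push_cast
    exact h
  have hne : Nonempty ι := by
    by_contra h
    rw [not_nonempty_iff] at h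
    apply hRs
    rw [Finset.univ_eq_empty, Finset.sum_empty]
  have hcard : 1 ≤ Fintype.card ι := Fintype.card_pos
  -- it is enough to find `a` in `ZMod ℓ`
  have hred : (∃ (i₀ : ι) (a : ZMod ℓ), a ≠ 0 ∧ a + ((Fintype.card ι : ZMod ℓ) - 1) ≠ 0 ∧
      a * (v i₀ : ZMod ℓ) + ∑ i ∈ Finset.univ.erase i₀, (v i : ZMod ℓ) ≠ 0) →
      ∃ (i₀ : ι) (a : ℕ), ¬ ℓ ∣ a ∧ ¬ ℓ ∣ a + (Fintype.card ι - 1) ∧
      ¬ (ℓ : ℤ) ∣ a * v i₀ + ∑ i ∈ Finset.univ.erase i₀, v i := by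
    rintro ⟨i₀, a, h1, h2, h4⟩
    refine ⟨i₀, a.val, fun h => h1 ?_, fun h => h2 ?_, fun h => h4 ?_⟩
    · rw [← ZMod.natCast_eq_zero_iff, ZMod.natCast_zmod_val] at h
      exact h
    · rw [← ZMod.natCast_eq_zero_iff, Nat.cast_add, ZMod.natCast_zmod_val, Nat.cast_sub hcard,
        Nat.cast_one] at h
      exact h
    · rw [← ZMod.intCast_zmod_eq_zero_iff_dvd] at h
      push_cast at h
      rw [ZMod.natCast_zmod_val] at h
      exact h
  apply hred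
  have hsum : ∀ i₀, (v i₀ : ZMod ℓ) + ∑ i ∈ Finset.univ.erase i₀, (v i : ZMod ℓ) =
      ∑ i, (v i : ZMod ℓ) := fun i₀ =>
    Finset.add_sum_erase Finset.univ (fun i => (v i : ZMod ℓ)) (Finset.mem_univ i₀)
  have hV0 : ∃ i₀, (v i₀ : ZMod ℓ) ≠ 0 := by
    by_contra h
    push Not at h
    apply hV
    refine Finset.sum_eq_zero fun i _ => ?_
    rw [h i, mul_zero]
  rcases Nat.lt_or_ge 4 ℓ with h5 | h5
  · -- `ℓ ≥ 5`
    obtain ⟨i₀, hi₀⟩ := hV0
    obtain ⟨a, ha⟩ : ∃ a : ZMod ℓ, a ∉ ({0, -((Fintype.card ι : ZMod ℓ) - 1),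
        -(∑ i ∈ Finset.univ.erase i₀, (v i : ZMod ℓ)) / (v i₀ : ZMod ℓ)} : Finset (ZMod ℓ)) := by
      by_contra h
      push Not at h
      have h6 : (Finset.univ : Finset (ZMod ℓ)) ⊆ {0, -((Fintype.card ι : ZMod ℓ) - 1),
        -(∑ i ∈ Finset.univ.erase i₀, (v i : ZMod ℓ)) / (v i₀ : ZMod ℓ)} := fun a _ => h a
      have h7 := Finset.card_le_card h6
      rw [Finset.card_univ, ZMod.card] at h7
      have h8 := Finset.card_le_three (a := (0 : ZMod ℓ)) (b := -((Fintype.card ι : ZMod ℓ) - 1))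
        (c := -(∑ i ∈ Finset.univ.erase i₀, (v i : ZMod ℓ)) / (v i₀ : ZMod ℓ))
      omega
    rw [Finset.mem_insert, Finset.mem_insert, Finset.mem_singleton, not_or, not_or] at ha
    refine ⟨i₀, a, ha.1, fun h => ha.2.1 ?_, fun h => ha.2.2 ?_⟩
    · exact eq_neg_of_add_eq_zero_left h
    · rw [eq_div_iff hi₀]
      exact eq_neg_of_add_eq_zero_left h
  · have hℓ : ℓ = 2 ∨ ℓ = 3 := by
      have h6 := hp.out.two_le
      have h7 : ℓ ≠ 4 := by
        rintro rfl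
        exact absurd hp.out (by norm_num)
      omega
    rcases hℓ with rfl | rfl
    · obtain ⟨i₀⟩ := hne
      have h1 : ∀ i, ((r i : ℕ) : ZMod 2) = 1 := by
        intro i
        exact z2a _ (hR i)
      refine ⟨i₀, 1, one_ne_zero, ?_, ?_⟩
      · rw [Finset.sum_congr rfl (fun i _ => h1 i), Finset.sum_const, Finset.card_univ,
          nsmul_one] at hRs
        rw [add_sub_cancel]
        exact hRs
      · rw [one_mul, hsum]
        rw [Finset.sum_congr rfl (fun i _ => by rw [h1 i, one_mul])] at hV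
        exact hV
    · have hN : (Fintype.card ι : ZMod 3) = 0 ∨ (Fintype.card ι : ZMod 3) = 1 ∨
          (Fintype.card ι : ZMod 3) = 2 := by
        exact z3a _
      rcases hN with hN | hN | hN
      · -- `a = 2`
        by_contra hcon
        push Not at hcon
        have h1 : ∀ i, (v i : ZMod 3) = -∑ i, (v i : ZMod 3) := by
          intro i
          have h2 := hcon i 2 z3b (by rw [hN]; exact z3c)
          have h4 := hsum i
          linear_combination h2 - h4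
        have h2 : ∑ i, (v i : ZMod 3) = 0 := by
          have h4 : ∑ i, (v i : ZMod 3) = ∑ i : ι, -∑ i, (v i : ZMod 3) :=
            Finset.sum_congr rfl fun i _ => h1 i
          rw [Finset.sum_const, Finset.card_univ, nsmul_eq_mul, hN, zero_mul] at h4
          exact h4
        obtain ⟨i₀, hi₀⟩ := hV0
        apply hi₀
        rw [h1, h2, neg_zero]
      · obtain ⟨i₀, hi₀⟩ := hV0
        by_cases h1 : ∑ i, (v i : ZMod 3) = 0
        · refine ⟨i₀, 2, z3b, by rw [hN]; exact z3d, fun h => hi₀ ?_⟩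
          have h4 := hsum i₀
          linear_combination h - h4 - h1
        · refine ⟨i₀, 1, z3e, by rw [hN]; exact z3f, ?_⟩
          rw [one_mul, hsum]
          exact h1
      · obtain ⟨i₀⟩ := hne
        have h6 : ∀ i j, r i ≡ r j [MOD 3] := by
          refine (h3 rfl).resolve_left ?_
          rw [not_not, ← ZMod.natCast_eq_zero_iff, Nat.cast_add, hN]
          exact z3g
        have h7 : ∀ i, ((r i : ℕ) : ZMod 3) = ((r i₀ : ℕ) : ZMod 3) := fun i =>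
          (ZMod.natCast_eq_natCast_iff _ _ _).2 (h6 i i₀)
        refine ⟨i₀, 1, z3e, by rw [hN]; exact z3h, ?_⟩
        rw [one_mul, hsum]
        intro h8
        apply hV
        rw [Finset.sum_congr rfl (fun i _ => by rw [h7 i]), ← Finset.mul_sum, h8, mul_zero]

end Pool.Agent.K1H74.SC
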