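import Pool.Agent.K1H74.SC.Uq
import Pool.Agent.K1H4.SC.Rot

/-!
# The étale quotients over the larger field
-/

set_option autoImplicit false
set_option linter.all false

namespace Pool.Agent.K1H74.SC

open Pool.Agent.Y157.PS Pool.Agent.K1H4.SC Polynomial

/-- a product in the maximal ideal -/
theorem non_mul_iff {K : Type} [Field K] (V : ValuationSubring K) {a b : K} (ha : a ∈ V)
    (hb : b ∈ V) : a * b ∈ V.nonunits ↔ a ∈ V.nonunits ∨ b ∈ V.nonunits := by
  rw [ValuationSubring.mem_nonunits_iff, ValuationSubring.mem_nonunits_iff,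
    ValuationSubring.mem_nonunits_iff, map_mul]
  rw [← ValuationSubring.valuation_le_one_iff] at ha hb
  constructor
  · intro h
    by_contra hc
    push Not at hc
    have h1 := le_antisymm ha hc.1
    have h2 := le_antisymm hb hc.2
    rw [h1, h2, mul_one] at h
    exact lt_irrefl _ h
  · rintro (h | h)
    · exact (mul_le_of_le_one_right' hb).trans_lt h
    · exact (mul_le_of_le_one_left' ha).trans_lt h

theorem non_inv {K : Type} [Field K] (V : ValuationSubring K) {a : K} (ha : a ∉ V) :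
    a⁻¹ ∈ V.nonunits := by
  rw [ValuationSubring.mem_nonunits_iff_or, inv_inv]
  exact Or.inr ha

/-- the branch points of `d t ^ ℓ = u ^ r g(u)` -/
theorem branch_iff {k K : Type} [Field k] [Field K] [Algebra k K] (V : ValuationSubring K)
    (h : ∀ c : k, algebraMap k K c ∈ V) {r : ℕ} (hr : r ≠ 0) (g : k[X]) (u : K) :
    (aeval u (X ^ r * g) ∈ V.nonunits ∨ u⁻¹ ∈ V.nonunits) ↔
      (u ∈ V.nonunits ∨ u⁻¹ ∈ V.nonunits ∨ aeval u g ∈ V.nonunits) := by
  by_cases hu : u ∈ V
  · rw [map_mul, map_pow, aeval_X, non_mul_iff V (pow_mem hu r) (aeval_mem V h hu g),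
      pow_non_iff V hr]
    tauto
  · have h1 := non_inv V hu
    tauto

variable {A' k' F₀ Ω : Type} [CommRing A'] [IsDomain A'] [IsDiscreteValuationRing A']
  [IsAdicComplete (IsLocalRing.maximalIdeal A') A'] [Finite (IsLocalRing.ResidueField A')]
  [Field k'] [CharZero k'] [Algebra A' k'] [IsFractionRing A' k'] [Field F₀] [Field Ω]
  [Algebra F₀ Ω] [Algebra k' Ω] [IsAlgClosed Ω] [Algebra.IsAlgebraic F₀ Ω]

theorem uniq_r {ℓ : ℕ} [hp : Fact ℓ.Prime] (hℓ : IsUnit (ℓ : A')) {r : ℕ} (hr : ¬ ℓ ∣ r)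
    (g : A'[X]) (hlc : IsUnit g.leadingCoeff) (hg0 : IsUnit (g.coeff 0))
    (hs : (g.map (IsLocalRing.residue A')).Separable) (hdeg : 0 < g.natDegree)
    (hrn : ¬ ℓ ∣ r + g.natDegree) (ϖ : A') (hϖ : Irreducible ϖ) (d : k') (δ : ℤ)
    (hδ : ¬ (ℓ : ℤ) ∣ δ) (w : A') (hw : IsUnit w)
    (hd : d = algebraMap A' k' w * algebraMap A' k' ϖ ^ δ)
    (u t : Ω) (hu : Transcendental k' u)
    (hut : algebraMap k' Ω d * t ^ ℓ = aeval u (X ^ r * g.map (algebraMap A' k')))
    (hF : IntermediateField.adjoin k' {u, t} =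
      IntermediateField.adjoin k' (Set.range (algebraMap F₀ Ω))) :
    Unique1 ℓ k' (IntermediateField.adjoin k' {u, t}) Ω
      (fun V => aeval u (X ^ r * g.map (algebraMap A' k')) ∈ V.nonunits ∨ u⁻¹ ∈ V.nonunits) := by
  have halgF : Algebra.IsAlgebraic (IntermediateField.adjoin k' {u, t}) Ω := alg_up _ hF
  set F : IntermediateField k' Ω := IntermediateField.adjoin k' {u, t} with hFdef
  have hr0 : r ≠ 0 := by
    rintro rfl
    exact hr (dvd_zero _)
  have hd0 : d ≠ 0 := by
    rw [hd]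
    refine mul_ne_zero ?_ (zpow_ne_zero _ ?_)
    · rw [Ne, map_eq_zero_iff _ (IsFractionRing.injective A' k')]
      exact hw.ne_zero
    · rw [Ne, map_eq_zero_iff _ (IsFractionRing.injective A' k')]
      exact hϖ.ne_zero
  let u' : F := ⟨u, IntermediateField.subset_adjoin _ _ (by simp)⟩
  let t' : F := ⟨t, IntermediateField.subset_adjoin _ _ (by simp)⟩
  have hu' : Transcendental k' u' := by
    intro h1
    exact hu (h1.algebraMap (A := Ω))
  have hut' : algebraMap k' F d * t' ^ ℓ =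
      u' ^ r * aeval (algebraMap k' F 1 * u' ^ (ℓ ^ 0)) (g.map (algebraMap A' k')) := by
    apply Subtype.ext
    rw [map_one, one_mul, pow_zero, pow_one]
    have h1 := aeval_algebraMap_apply Ω u' (X ^ r * g.map (algebraMap A' k'))
    rw [map_mul (aeval u'), map_pow (aeval u'), aeval_X] at h1
    exact hut.trans h1
  have hF' : IntermediateField.adjoin k' {u', t'} = (⊤ : IntermediateField k' F) :=
    adjoin_top u t u' t' rfl rfl
  have halg' : Algebra.IsAlgebraic (IntermediateField.adjoin k' {u'}) F := by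
    refine Pool.Agent.Y157.PS.alg_of_eqn hp.out.pos (X ^ r * g.map (algebraMap A' k')) d hd0 u' t'
      ?_ hF'
    rw [hut', map_mul, map_pow, aeval_X, map_one, one_mul, pow_zero, pow_one]
  intro M hM S hS hcompat
  have hinj := IsFractionRing.injective A' k'
  obtain ⟨W, ⟨⟨g1, g2, g3⟩, g4⟩, g5⟩ := mainS (j := 0) hℓ hr g hlc hg0 hs hdeg
    (by rwa [pow_zero, one_mul]) ϖ hϖ 1 d 0 δ 1 w isUnit_one hw (by simp) hd
    (by simpa using hδ) u' t' hu' hut' hF' halg' M hM S hS hcompat
  have hn : ∀ (V : ValuationSubring Ω) (z : F),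
      algebraMap F M z ∈ (V.comap (algebraMap M Ω)).nonunits ↔ (z : Ω) ∈ V.nonunits := by
    intro V z
    exact non_incl (algebraMap M Ω) V (algebraMap F M z)
  have hgu : ((aeval (algebraMap k' F 1 * u' ^ (ℓ ^ 0)) (g.map (algebraMap A' k')) : F) : Ω) =
      aeval u (g.map (algebraMap A' k')) := by
    rw [map_one, one_mul, pow_zero, pow_one]
    exact (aeval_algebraMap_apply Ω u' _).symm
  have hAt : ∀ V : ValuationSubring Ω, (∀ c : k', algebraMap k' Ω c ∈ V) →
      (AtBranch u' (aeval (algebraMap k' F 1 * u' ^ (ℓ ^ 0)) (g.map (algebraMap A' k')))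
        (V.comap (algebraMap M Ω)) ↔
        (aeval u (X ^ r * g.map (algebraMap A' k')) ∈ V.nonunits ∨ u⁻¹ ∈ V.nonunits)) := by
    intro V hV
    unfold AtBranch
    rw [hn, hn, hn, hgu, branch_iff V hV hr0]
    exact Iff.rfl
  refine ⟨W, g1, fun V hV => ?_, g3, g4, fun V hV hQ hS' z hz => ?_⟩
  · subst hV
    exact (hAt V fun c => g1 c).1 g2
  · have h1 := g5 (V.comap (algebraMap M Ω)) (fun c => hV c) ((hAt V hV).2 hQ)
      (fun σ w hw => hS' σ w hw) z hz
    exact h1

end Pool.Agent.K1H74.SC
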