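import Pool.Agent.K1H74.SC.E4
import Pool.Agent.K1H74.SC.U1

/-!
# Transport between function fields with the same covering field
-/

set_option autoImplicit false
set_option linter.all false

open Polynomial FF

namespace Pool.Agent.K1H74.SC

open Pool.Agent.Y157.PS Pool.Agent.Y948.PS Pool.Agent.Y158.FQ

section

variable {k F Ω : Type} [Field k] [CharZero k] [Field F] [Field Ω] [Algebra k F] [Algebra F Ω]
  [Algebra k Ω] [IsScalarTower k F Ω] [IsAlgClosed Ω] [Algebra.IsAlgebraic F Ω]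

/-- transport of the conclusion between two function fields -/
theorem transport3 {ℓ : ℕ} (N : IntermediateField F Ω) (hN : geomPro ℓ k F Ω ≤ N)
    (F₁ : IntermediateField k Ω) [Algebra.IsAlgebraic F₁ Ω]
    (h : ∀ z ∈ F₁, z ∈ N)
    (S : (algebraicClosure k Ω ≃ₐ[k] algebraicClosure k Ω) →* (N ≃ₐ[F] N))
    (hcompat : ∀ σ (c : algebraicClosure k Ω) (z : N), (z : Ω) = (c : Ω) →
      (S σ z : Ω) = (σ c : Ω))
    (hfix : ∀ σ, ∀ z : N, (z : Ω) ∈ F₁ → S σ z = z)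
    (hgeo : ∀ z : Ω, z ∈ geomPro ℓ k F₁ Ω ↔ z ∈ geomPro ℓ k F Ω)
    (P P' : ValuationSubring N → Prop) (P₁ P₁' : ValuationSubring (Nup N F₁ h) → Prop)
    (hP : ∀ W : ValuationSubring (Nup N F₁ h),
      (∀ c : k, algebraMap F₁ (Nup N F₁ h) (algebraMap k F₁ c) ∈ W) → P₁ W →
      P (W.comap (eup N F₁ h : N →+* Nup N F₁ h)))
    (hP' : ∀ W : ValuationSubring N, (∀ c : k, algebraMap F N (algebraMap k F c) ∈ W) → P' W →
      P₁' (W.comap ((eup N F₁ h).symm : Nup N F₁ h →+* N)))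
    (hex : ∃ W : ValuationSubring (Nup N F₁ h),
      (((∀ c : k, algebraMap F₁ (Nup N F₁ h) (algebraMap k F₁ c) ∈ W) ∧ P₁ W ∧
       (∀ z : F₁, algebraMap F₁ (Nup N F₁ h) z ∈ W →
          ∃ c : k, algebraMap F₁ (Nup N F₁ h) (z - algebraMap k F₁ c) ∈ W.nonunits)) ∧
       ∀ σ, ∀ z : Nup N F₁ h, (z : Ω) ∈ geomPro ℓ k F₁ Ω →
        (Sup N F₁ h S hfix σ z ∈ W ↔ z ∈ W)) ∧
      ∀ W' : ValuationSubring (Nup N F₁ h),
        (∀ c : k, algebraMap F₁ (Nup N F₁ h) (algebraMap k F₁ c) ∈ W') → P₁' W' →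
        (∀ σ, ∀ z : Nup N F₁ h, (z : Ω) ∈ geomPro ℓ k F₁ Ω →
          (Sup N F₁ h S hfix σ z ∈ W' ↔ z ∈ W')) →
        ∀ z : Nup N F₁ h, (z : Ω) ∈ geomPro ℓ k F₁ Ω → (z ∈ W' ↔ z ∈ W)) :
    ∃ W : ValuationSubring N,
      (((∀ c : k, algebraMap F N (algebraMap k F c) ∈ W) ∧ P W ∧
       (∀ z : F, algebraMap F N z ∈ W →
          ∃ c : k, algebraMap F N (z - algebraMap k F c) ∈ W.nonunits)) ∧
       ∀ σ, ∀ z : N, (z : Ω) ∈ geomPro ℓ k F Ω → (S σ z ∈ W ↔ z ∈ W)) ∧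
      ∀ W' : ValuationSubring N,
        (∀ c : k, algebraMap F N (algebraMap k F c) ∈ W') → P' W' →
        (∀ σ, ∀ z : N, (z : Ω) ∈ geomPro ℓ k F Ω → (S σ z ∈ W' ↔ z ∈ W')) →
        ∀ z : N, (z : Ω) ∈ geomPro ℓ k F Ω → (z ∈ W' ↔ z ∈ W) := by
  obtain ⟨W, ⟨⟨h1, h2, h3⟩, h4⟩, h5⟩ := hex
  have hc : ∀ c : k, eup N F₁ h (algebraMap F N (algebraMap k F c)) =
      algebraMap F₁ (Nup N F₁ h) (algebraMap k F₁ c) := fun c => Subtype.ext (by
    change algebraMap F Ω (algebraMap k F c) = algebraMap k Ω c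
    rw [← IsScalarTower.algebraMap_apply])
  have hN₁ : geomPro ℓ k F₁ Ω ≤ Nup N F₁ h := fun z hz => hN ((hgeo z).1 hz)
  have hcompat₁ : ∀ σ (c : algebraicClosure k Ω) (z : Nup N F₁ h), (z : Ω) = (c : Ω) →
      (Sup N F₁ h S hfix σ z : Ω) = (σ c : Ω) := fun σ c z hz =>
    hcompat σ c ((eup N F₁ h).symm z) hz
  refine ⟨W.comap (eup N F₁ h : N →+* Nup N F₁ h), ⟨⟨fun c => ?_, hP W h1 h2, fun z hz => ?_⟩,
    fun σ z hz => ?_⟩, fun W' b1 b2 b3 z hz => ?_⟩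
  · rw [ValuationSubring.mem_comap]
    change eup N F₁ h (algebraMap F N (algebraMap k F c)) ∈ W
    rw [hc]
    exact h1 c
  · obtain ⟨c, hc'⟩ := rational_res (Nup N F₁ h) hN₁ (Sup N F₁ h S hfix) hcompat₁ W h1
      (exists_res (Nup N F₁ h) hN₁ W h1 h3) h4 (eup N F₁ h (algebraMap F N z))
      ((hgeo _).2 ((geomPro ℓ k F Ω).algebraMap_mem z)) (fun σ => by
        rw [Sup_apply, RingEquiv.symm_apply_apply, (S σ).commutes]) hz
    refine ⟨c, (comap_non' _ _ _).2 ?_⟩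
    rw [map_sub, map_sub, hc]
    exact hc'
  · rw [ValuationSubring.mem_comap, ValuationSubring.mem_comap]
    exact h4 σ (eup N F₁ h z) ((hgeo _).2 hz)
  · rw [ValuationSubring.mem_comap]
    refine h5 (W'.comap ((eup N F₁ h).symm : Nup N F₁ h →+* N)) (fun c => ?_) (hP' W' b1 b2)
      (fun σ w hw => ?_) (eup N F₁ h z) ((hgeo _).2 hz)
    · rw [ValuationSubring.mem_comap]
      change (eup N F₁ h).symm (algebraMap F₁ (Nup N F₁ h) (algebraMap k F₁ c)) ∈ W'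
      rw [← hc, RingEquiv.symm_apply_apply]
      exact b1 c
    · rw [ValuationSubring.mem_comap, ValuationSubring.mem_comap]
      exact b3 σ ((eup N F₁ h).symm w) ((hgeo _).1 hw)

end

end Pool.Agent.K1H74.SC
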