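import Pool.Agent.K1H74.SC.E5

/-!
# Rotations for a function field with the same covering field; valuations of constants
-/

set_option autoImplicit false
set_option linter.all false

open Polynomial FF

namespace Pool.Agent.K1H74.SC

open Pool.Agent.Y157.PS Pool.Agent.Y948.PS Pool.Agent.Y158.FQ

section vals

variable {A k : Type} [CommRing A] [IsDomain A] [IsDiscreteValuationRing A] [Field k]
  [Algebra A k] [IsFractionRing A k]

/-- `z` has valuation `n` -/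
def HasVal (ϖ : A) (z : k) (n : ℤ) : Prop :=
  ∃ t : A, IsUnit t ∧ z = algebraMap A k t * algebraMap A k ϖ ^ n

theorem HasVal.mul {ϖ : A} (hϖ : Irreducible ϖ) {z z' : k} {n n' : ℤ} (h : HasVal ϖ z n)
    (h' : HasVal ϖ z' n') : HasVal ϖ (z * z') (n + n') := by
  have hϖ0 : algebraMap A k ϖ ≠ 0 := by
    rw [Ne, map_eq_zero_iff _ (IsFractionRing.injective A k)]
    exact hϖ.ne_zero
  obtain ⟨t, ht, rfl⟩ := h
  obtain ⟨t', ht', rfl⟩ := h'
  refine ⟨t * t', ht.mul ht', ?_⟩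
  rw [map_mul, zpow_add₀ hϖ0]
  ring

theorem HasVal.one (ϖ : A) : HasVal ϖ (1 : k) 0 := ⟨1, isUnit_one, by simp⟩

theorem HasVal.pow {ϖ : A} (hϖ : Irreducible ϖ) {z : k} {n : ℤ} (h : HasVal ϖ z n) (m : ℕ) :
    HasVal ϖ (z ^ m) (m * n) := by
  induction m with
  | zero => simpa using HasVal.one ϖ
  | succ m ih =>
    rw [pow_succ]
    have := ih.mul hϖ h
    have h2 : ((m + 1 : ℕ) : ℤ) * n = m * n + n := by push_cast; ring
    rw [h2]
    exact this

theorem HasVal.prod {ϖ : A} (hϖ : Irreducible ϖ) {ι : Type} (s : Finset ι) (z : ι → k)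
    (n : ι → ℤ) (h : ∀ i ∈ s, HasVal ϖ (z i) (n i)) : HasVal ϖ (∏ i ∈ s, z i) (∑ i ∈ s, n i) := by
  classical
  induction s using Finset.induction_on with
  | empty => simpa using HasVal.one ϖ
  | insert a s ha ih =>
    rw [Finset.prod_insert ha, Finset.sum_insert ha]
    exact (h a (Finset.mem_insert_self a s)).mul hϖ
      (ih fun i hi => h i (Finset.mem_insert_of_mem hi))

theorem HasVal.unique {ϖ : A} (hϖ : Irreducible ϖ) {z : k} {n m : ℤ} (h : HasVal ϖ z n)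
    (h' : HasVal ϖ z m) : n = m := by
  have hinj := IsFractionRing.injective A k
  have hϖ0 : algebraMap A k ϖ ≠ 0 := by
    rw [Ne, map_eq_zero_iff _ hinj]
    exact hϖ.ne_zero
  obtain ⟨t, ht, h1⟩ := h
  obtain ⟨t', ht', h2⟩ := h'
  obtain ⟨v, rfl⟩ := ht
  have h3 : algebraMap A k ((v⁻¹ : Aˣ) : A) = (algebraMap A k (v : A))⁻¹ := by
    refine (inv_eq_of_mul_eq_one_right ?_).symm
    rw [← map_mul, Units.mul_inv, map_one]
  have h4 : algebraMap A k (v : A) ≠ 0 := by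
    rw [Ne, map_eq_zero_iff _ hinj]
    exact v.ne_zero
  have h5 : algebraMap A k ϖ ^ (n - m) = algebraMap A k (t' * ((v⁻¹ : Aˣ) : A)) := by
    rw [zpow_sub₀ hϖ0, map_mul, h3, div_eq_iff (zpow_ne_zero _ hϖ0)]
    have h6 : algebraMap A k (v : A) * algebraMap A k ϖ ^ n =
        algebraMap A k t' * algebraMap A k ϖ ^ m := h1.symm.trans h2
    field_simp
    linear_combination h6
  have := zpow_unit hϖ (ht'.mul (v⁻¹).isUnit) h5
  omega

theorem HasVal.exists {ϖ : A} (hϖ : Irreducible ϖ) {z : k} (hz : z ≠ 0) : ∃ n, HasVal ϖ z n := by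
  obtain ⟨t, n, ht, h⟩ := Pool.Agent.R925.L.exists_unit_zpow (A := A) hϖ hz
  exact ⟨n, t, ht, h⟩

end vals

section main

variable {A k F Ω : Type} [CommRing A] [IsDomain A] [IsDiscreteValuationRing A]
    [Finite (IsLocalRing.ResidueField A)] [Field k] [CharZero k] [Algebra A k] [IsFractionRing A k]
    [Field F] [Field Ω] [Algebra k F] [Algebra F Ω] [Algebra k Ω] [IsScalarTower k F Ω]
    [IsAlgClosed Ω] [Algebra.IsAlgebraic F Ω]

/-- the twist by rotations -/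
theorem caseR3 [IsAdicComplete (IsLocalRing.maximalIdeal A) A]
    {ℓ : ℕ} [Fact ℓ.Prime] (hℓ : IsUnit (ℓ : A)) {j : ℕ} (hj : 1 ≤ j) (g : A[X])
    (hlc : IsUnit g.leadingCoeff)
    (hs : ((expand A (ℓ ^ j) g).map (IsLocalRing.residue A)).Separable)
    (h3 : 3 ≤ (expand A (ℓ ^ j) g).natDegree)
    (ϖ : A) (hϖ : Irreducible ϖ) (a d : k) (α : ℤ) (hα : ¬ ((ℓ ^ j : ℕ) : ℤ) ∣ α) (t : A)
    (ht : IsUnit t) (ha : a = algebraMap A k t * algebraMap A k ϖ ^ α) (hd0 : d ≠ 0)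
    (N : IntermediateField F Ω) (hN : geomPro ℓ k F Ω ≤ N)
    (S : (algebraicClosure k Ω ≃ₐ[k] algebraicClosure k Ω) →* (N ≃ₐ[F] N)) (hcont : Continuous S)
    (hcompat : ∀ σ (c : algebraicClosure k Ω) (z : N), (z : Ω) = (c : Ω) →
      (S σ z : Ω) = (σ c : Ω)) (x y : N) (hxS : ∀ σ, S σ x = x) (hyS : ∀ σ, S σ y = y)
    (hx : Transcendental k (x : Ω))
    (hxy : algebraMap k Ω d * (y : Ω) ^ ℓ =
      aeval (algebraMap k Ω a * (x : Ω) ^ (ℓ ^ j)) (g.map (algebraMap A k)))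
    [halg₁ : Algebra.IsAlgebraic (IntermediateField.adjoin k {(x : Ω), (y : Ω)}) Ω]
    (hgeo : ∀ z : Ω, z ∈ geomPro ℓ k (IntermediateField.adjoin k {(x : Ω), (y : Ω)}) Ω ↔
      z ∈ geomPro ℓ k F Ω) :
    ∃ W : ValuationSubring N,
      (((∀ c : k, algebraMap F N (algebraMap k F c) ∈ W) ∧
       (x ∈ W.nonunits ∨ x⁻¹ ∈ W.nonunits) ∧
       (∀ z : F, algebraMap F N z ∈ W →
          ∃ c : k, algebraMap F N (z - algebraMap k F c) ∈ W.nonunits)) ∧
       ∀ σ, ∀ z : N, (z : Ω) ∈ geomPro ℓ k F Ω → (S σ z ∈ W ↔ z ∈ W)) ∧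
      ∀ W' : ValuationSubring N,
        (∀ c : k, algebraMap F N (algebraMap k F c) ∈ W') →
        (x ∈ W'.nonunits ∨ x⁻¹ ∈ W'.nonunits ∨
          aeval (algebraMap k N a * x ^ (ℓ ^ j)) (g.map (algebraMap A k)) ∈ W'.nonunits) →
        (∀ σ, ∀ z : N, (z : Ω) ∈ geomPro ℓ k F Ω → (S σ z ∈ W' ↔ z ∈ W')) →
        ∀ z : N, (z : Ω) ∈ geomPro ℓ k F Ω → (z ∈ W' ↔ z ∈ W) := by
  haveI : IsScalarTower k N Ω := IsScalarTower.of_algebraMap_eq fun c => by
    rw [IsScalarTower.algebraMap_apply k F Ω, IsScalarTower.algebraMap_apply k F N]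
    rfl
  have hh := mem_of_gen (k := k) N x y
  have hfix : ∀ σ, ∀ z : N, (z : Ω) ∈ IntermediateField.adjoin k {(x : Ω), (y : Ω)} →
      S σ z = z := fun σ z hz => fix_of_gen (k := k) x y (S σ) (hxS σ) (hyS σ) z hz
  obtain ⟨E, hE⟩ : ∃ E : IntermediateField k Ω,
    E = IntermediateField.adjoin k {(x : Ω), (y : Ω)} := ⟨_, rfl⟩
  rw [← hE] at hh hfix hgeo halg₁
  have hxE : (x : Ω) ∈ E := by rw [hE]; exact IntermediateField.subset_adjoin k _ (by simp)
  have hyE : (y : Ω) ∈ E := by rw [hE]; exact IntermediateField.subset_adjoin k _ (by simp)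
  have htop := adjoin_pair_top hE hxE hyE
  have hx₁t : Transcendental k (⟨x, hxE⟩ : E) := by
    rw [← transcendental_algebraMap_iff (R := k) (A := Ω) (algebraMap E Ω).injective]
    exact hx
  refine transport3 N hN E hh S hcompat hfix hgeo
    (fun W => x ∈ W.nonunits ∨ x⁻¹ ∈ W.nonunits)
    (fun W => x ∈ W.nonunits ∨ x⁻¹ ∈ W.nonunits ∨
      aeval (algebraMap k N a * x ^ (ℓ ^ j)) (g.map (algebraMap A k)) ∈ W.nonunits)
    (fun W => algebraMap E (Nup N E hh) ⟨x, hxE⟩ ∈ W.nonunits ∨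
      algebraMap E (Nup N E hh) (⟨x, hxE⟩ : E)⁻¹ ∈ W.nonunits)
    (fun W => algebraMap E (Nup N E hh) ⟨x, hxE⟩ ∈ W.nonunits ∨
      algebraMap E (Nup N E hh) (⟨x, hxE⟩ : E)⁻¹ ∈ W.nonunits ∨
      algebraMap E (Nup N E hh) (aeval (algebraMap k E a * (⟨x, hxE⟩ : E) ^ (ℓ ^ j))
            (g.map (algebraMap A k))) ∈ W.nonunits)
    (fun W _ hW => ?_) (fun W _ hW => ?_) ?_
  · exact hW.imp (fun h => (comap_non' _ _ _).2 h) (fun h => (comap_non' _ _ _).2 h)
  · have hs' : ∀ z : Nup N E hh, z ∈ (W.comap ((eup N E hh).symm : Nup N E hh →+* N)).nonunits ↔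
      (eup N E hh).symm z ∈ W.nonunits := fun z => comap_non' (eup N E hh).symm W z
    refine hW.imp (fun h => (hs' _).2 h) (Or.imp (fun h => (hs' _).2 h) (fun h => (hs' _).2 ?_))
    have h1 : (eup N E hh).symm (algebraMap E (Nup N E hh)
        (aeval (algebraMap k E a * (⟨x, hxE⟩ : E) ^ (ℓ ^ j)) (g.map (algebraMap A k)))) =
        aeval (algebraMap k N a * x ^ (ℓ ^ j)) (g.map (algebraMap A k)) := by
      apply Subtype.ext
      change algebraMap E Ω (aeval (algebraMap k E a * (⟨x, hxE⟩ : E) ^ (ℓ ^ j))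
        (g.map (algebraMap A k))) = algebraMap N Ω (aeval (algebraMap k N a * x ^ (ℓ ^ j))
        (g.map (algebraMap A k)))
      rw [← aeval_algebraMap_apply, ← aeval_algebraMap_apply, map_mul, map_mul, map_pow,
        map_pow, ← IsScalarTower.algebraMap_apply, ← IsScalarTower.algebraMap_apply]
      rfl
    rw [h1]
    exact h
  · refine Pool.Agent.R925.L.padicRM (F := E) (Ω := Ω) hℓ hj g hlc hs h3 ϖ hϖ a d α hα t ht ha hd0
      ⟨x, hxE⟩ ⟨y, hyE⟩ hx₁t ?_ htop (Nup N E hh) ?_ (Sup N E hh S hfix)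
      (Sup_cont N E hh S hcont hfix) ?_
    · apply (algebraMap E Ω).injective
      rw [map_mul, map_pow, ← aeval_algebraMap_apply, map_mul, map_pow,
        ← IsScalarTower.algebraMap_apply, ← IsScalarTower.algebraMap_apply]
      exact hxy
    · intro z hz
      exact hN ((hgeo z).1 hz)
    · intro σ c z hz
      exact hcompat σ c ((eup N E hh).symm z) hz

end main

/-- exponents -/
theorem choice_a {ℓ : ℕ} [hp : Fact ℓ.Prime] {ι : Type} [Fintype ι] (r : ι → ℕ)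
    (hr : ∀ i, ¬ ℓ ∣ r i) (hrs : ¬ ℓ ∣ ∑ i, r i) :
    ∃ a : ℕ, ¬ ℓ ∣ a ∧ ¬ ℓ ∣ a + (Fintype.card ι - 1) := by
  classical
  have hne : Nonempty ι := by
    by_contra h
    rw [not_nonempty_iff] at h
    apply hrs
    rw [Finset.univ_eq_empty, Finset.sum_empty]
    exact dvd_zero _
  have hcard : 1 ≤ Fintype.card ι := Fintype.card_pos
  by_cases h1 : ℓ ∣ 1 + (Fintype.card ι - 1)
  · -- then `ℓ ≠ 2`
    have h2 : ℓ ≠ 2 := by
      rintro rfl
      apply hrs
      have h3 : ∀ i, r i % 2 = 1 := fun i => by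
        have := hr i
        omega
      have h4 : (∑ i, r i) % 2 = (∑ i : ι, 1) % 2 := by
        rw [Finset.sum_nat_mod]
        congr 1
        exact Finset.sum_congr rfl fun i _ => h3 i
      rw [Finset.sum_const, Finset.card_univ, smul_eq_mul, mul_one] at h4
      omega
    refine ⟨2, fun h => h2 ?_, fun h => ?_⟩
    · exact (Nat.prime_dvd_prime_iff_eq hp.out Nat.prime_two).1 h
    · have h3 : ℓ ∣ 1 := by
        have h4 : 2 + (Fintype.card ι - 1) = (1 + (Fintype.card ι - 1)) + 1 := by omega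
        rw [h4] at h
        exact (Nat.dvd_add_right h1).1 h
      exact hp.out.one_lt.ne' (Nat.dvd_one.1 h3)
  · exact ⟨1, fun h => hp.out.one_lt.ne' (Nat.dvd_one.1 h), h1⟩

end Pool.Agent.K1H74.SC
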