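import Pool.Agent.K1H74.SC.E6

/-!
# The main theorem for cyclic coverings with arbitrary ramification exponents
-/

set_option autoImplicit false
set_option linter.all false

open Polynomial FF

namespace Pool.Agent.K1H74.SC

open Pool.Agent.Y157.PS Pool.Agent.Y948.PS Pool.Agent.Y158.FQ

section poly

variable {A : Type} [CommRing A] [IsDomain A] [IsDiscreteValuationRing A] {ι : Type}
  [DecidableEq ι]

/-- the polynomial with the other branch points as zeros -/
noncomputable def gpol (s : Finset ι) (e : ι → A) (e₀ : A) : A[X] :=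
  ∏ j ∈ s, (X - C (e j - e₀))

theorem gpol_monic (s : Finset ι) (e : ι → A) (e₀ : A) : (gpol s e e₀).Monic :=
  monic_prod_of_monic _ _ fun j _ => monic_X_sub_C _

theorem gpol_deg (s : Finset ι) (e : ι → A) (e₀ : A) : (gpol s e e₀).natDegree = s.card := by
  unfold gpol
  rw [natDegree_prod_of_monic _ _ fun j _ => monic_X_sub_C _,
    Finset.sum_congr rfl (fun j _ => natDegree_X_sub_C _), Finset.sum_const, smul_eq_mul, mul_one]

theorem gpol_coeff (s : Finset ι) (e : ι → A) (e₀ : A) (h : ∀ j ∈ s, IsUnit (e j - e₀)) :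
    IsUnit ((gpol s e e₀).coeff 0) := by
  unfold gpol
  rw [coeff_zero_eq_eval_zero, eval_prod, IsUnit.prod_iff]
  intro j hj
  rw [eval_sub, eval_X, eval_C, zero_sub]
  exact (h j hj).neg

theorem gpol_sep (s : Finset ι) (e : ι → A) (e₀ : A)
    (h : ∀ i j, i ≠ j → IsUnit (e i - e j)) :
    ((gpol s e e₀).map (IsLocalRing.residue A)).Separable := by
  unfold gpol
  rw [Polynomial.map_prod]
  have h1 : ∏ j ∈ s, Polynomial.map (IsLocalRing.residue A) (X - C (e j - e₀)) =
      ∏ j ∈ s, (X - C (IsLocalRing.residue A (e j - e₀))) :=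
    Finset.prod_congr rfl fun j _ => by rw [Polynomial.map_sub, map_X, map_C]
  rw [h1, separable_prod_X_sub_C_iff']
  intro i _ j _ hij
  by_contra hne
  have h2 := (h i j hne).map (IsLocalRing.residue A)
  have h3 : IsLocalRing.residue A (e i - e j) = 0 := by
    have h4 : e i - e j = (e i - e₀) - (e j - e₀) := by ring
    rw [h4, map_sub, hij, sub_self]
  rw [h3] at h2
  exact not_isUnit_zero h2

end poly

section main

variable {A k F Ω : Type} [CommRing A] [IsDomain A] [IsDiscreteValuationRing A]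
    [Finite (IsLocalRing.ResidueField A)] [Field k] [CharZero k] [Algebra A k] [IsFractionRing A k]
    [Field F] [Field Ω] [Algebra k F] [Algebra F Ω] [Algebra k Ω] [IsScalarTower k F Ω]
    [IsAlgClosed Ω] [Algebra.IsAlgebraic F Ω]

/-- the branch points -/
def AtBranch2 {ι : Type} {N : IntermediateField F Ω} (e : ι → k) (u : F)
    (W : ValuationSubring N) : Prop :=
  (∃ i, algebraMap F N (u - algebraMap k F (e i)) ∈ W.nonunits) ∨
    algebraMap F N u⁻¹ ∈ W.nonunits

/-- **the sections of the cyclic coverings** -/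
theorem mainE [IsAdicComplete (IsLocalRing.maximalIdeal A) A] {ℓ : ℕ} [hp : Fact ℓ.Prime]
    (hℓ : IsUnit (ℓ : A)) {ι : Type} [Fintype ι] [DecidableEq ι] (hι : 2 ≤ Fintype.card ι)
    (e : ι → A) (he : ∀ i j, i ≠ j → IsUnit (e i - e j)) (r : ι → ℕ) (hr : ∀ i, ¬ ℓ ∣ r i)
    (hrs : ¬ ℓ ∣ ∑ i, r i) (ϖ : A) (hϖ : Irreducible ϖ) (d : k) (δ : ℤ) (hδ : ¬ (ℓ : ℤ) ∣ δ)
    (hd : HasVal ϖ d δ) (u t : F) (hu : Transcendental k u)
    (hut : algebraMap k F d * t ^ ℓ =
      ∏ i, (u - algebraMap k F (algebraMap A k (e i))) ^ r i)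
    (hF : IntermediateField.adjoin k {u, t} = (⊤ : IntermediateField k F))
    (halgF : Algebra.IsAlgebraic (IntermediateField.adjoin k {u}) F)
    (N : IntermediateField F Ω) (hN : geomPro ℓ k F Ω ≤ N)
    (S : (algebraicClosure k Ω ≃ₐ[k] algebraicClosure k Ω) →* (N ≃ₐ[F] N)) (hcont : Continuous S)
    (hcompat : ∀ σ (c : algebraicClosure k Ω) (z : N), (z : Ω) = (c : Ω) →
      (S σ z : Ω) = (σ c : Ω)) :
    ∃ W : ValuationSubring N,
      (((∀ c : k, algebraMap F N (algebraMap k F c) ∈ W) ∧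
       AtBranch2 (fun i => algebraMap A k (e i)) u W ∧
       (∀ z : F, algebraMap F N z ∈ W →
          ∃ c : k, algebraMap F N (z - algebraMap k F c) ∈ W.nonunits)) ∧
       ∀ σ, ∀ z : N, (z : Ω) ∈ geomPro ℓ k F Ω → (S σ z ∈ W ↔ z ∈ W)) ∧
      ∀ W' : ValuationSubring N,
        (∀ c : k, algebraMap F N (algebraMap k F c) ∈ W') →
        AtBranch2 (fun i => algebraMap A k (e i)) u W' →
        (∀ σ, ∀ z : N, (z : Ω) ∈ geomPro ℓ k F Ω → (S σ z ∈ W' ↔ z ∈ W')) →
        ∀ z : N, (z : Ω) ∈ geomPro ℓ k F Ω → (z ∈ W' ↔ z ∈ W) := by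
  classical
  have hℓp : ℓ.Prime := hp.out
  have hℓ0 : ℓ ≠ 0 := hℓp.ne_zero
  have hinj := IsFractionRing.injective A k
  have h0 : ∀ {a : A}, a ≠ 0 → algebraMap A k a ≠ 0 := fun {a} ha => by
    rw [Ne, map_eq_zero_iff _ hinj]
    exact ha
  have hϖ0 := h0 hϖ.ne_zero
  have hd0 : d ≠ 0 := by
    obtain ⟨w, hw, h⟩ := hd
    rw [h]
    exact mul_ne_zero (h0 hw.ne_zero) (zpow_ne_zero _ hϖ0)
  haveI : IsScalarTower k N Ω := IsScalarTower.of_algebraMap_eq fun c => by
    rw [IsScalarTower.algebraMap_apply k F Ω, IsScalarTower.algebraMap_apply k F N]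
    rfl
  obtain ⟨ek, hek⟩ : ∃ ek : ι → k, ek = fun i => algebraMap A k (e i) := ⟨_, rfl⟩
  have heki : ∀ i, algebraMap A k (e i) = ek i := fun i => by rw [hek]
  have hekj : Function.Injective ek := by
    intro i j hij
    by_contra hne
    have h1 := he i j hne
    rw [← heki, ← heki] at hij
    rw [hinj hij, sub_self] at h1
    exact not_isUnit_zero h1
  rw [← hek]
  simp only [heki] at hut
  have huΩ : Transcendental k (algebraMap F Ω u) :=
    (transcendental_algebraMap_iff (R := k) (algebraMap F Ω).injective (a := u)).2 hu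
  have hua : ∀ c : k, u - algebraMap k F c ≠ 0 := by
    intro c h
    apply hu
    rw [sub_eq_zero.1 h]
    exact isAlgebraic_algebraMap c
  have huaΩ : ∀ c : k, algebraMap F Ω u - algebraMap k Ω c ≠ 0 := by
    intro c h
    apply huΩ
    rw [sub_eq_zero.1 h]
    exact isAlgebraic_algebraMap c
  have hΩ : ∀ c : k, algebraMap F Ω (u - algebraMap k F c) =
      algebraMap F Ω u - algebraMap k Ω c := by
    intro c
    rw [map_sub, ← IsScalarTower.algebraMap_apply]
  have hutΩ : algebraMap k Ω d * algebraMap F Ω t ^ ℓ =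
      ∏ i, (algebraMap F Ω u - algebraMap k Ω (ek i)) ^ r i := by
    have h1 := congrArg (algebraMap F Ω) hut
    rw [map_mul, map_pow, ← IsScalarTower.algebraMap_apply, map_prod] at h1
    rw [h1]
    exact Finset.prod_congr rfl fun i _ => by rw [map_pow, hΩ]
  have ht0 : t ≠ 0 := by
    rintro rfl
    rw [zero_pow hℓ0, mul_zero] at hut
    obtain ⟨i, -, hi⟩ := Finset.prod_eq_zero_iff.1 hut.symm
    exact pow_ne_zero _ (hua _) hi
  -- the roots
  have hroots := (geomPro_exps (Ω := Ω) ek hekj hr hrs hr hrs hd0 hd0 u t hu hut hF halgF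
    (algebraMap F Ω t) hutΩ).2
  have hex : ∀ i, ∃ (x : N) (b : k), b ≠ 0 ∧ (x : Ω) ≠ 0 ∧
      algebraMap F Ω u - algebraMap k Ω (ek i) = algebraMap k Ω b * (x : Ω) ^ ℓ ∧
      (∀ σ, S σ x = x) := by
    intro i
    obtain ⟨x₀, hx₀⟩ := IsAlgClosed.exists_pow_nat_eq
      (algebraMap F Ω u - algebraMap k Ω (ek i)) hℓp.pos
    obtain ⟨x, b, h1, h2, h3, h4⟩ := twist_one N hN S hcont hcompat (u - algebraMap k F (ek i))
      (hua _) x₀ (by rw [hx₀, hΩ]) (hN (hroots i x₀ hx₀))
    exact ⟨x, b, h1, h2, by rw [← hΩ]; exact h3, h4⟩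
  choose x b hb hx0 hux hxS using hex
  have hval : ∀ i, ∃ n, HasVal ϖ (b i) n := fun i => HasVal.exists hϖ (hb i)
  choose v hv using hval
  -- one of them is ramified
  obtain ⟨i₀, hi₀⟩ : ∃ i₀, ¬ (ℓ : ℤ) ∣ v i₀ := by
    by_contra hcon
    push Not at hcon
    obtain ⟨w, hw⟩ : ∃ w : N, w = (∏ i, x i ^ r i) / algebraMap F N t := ⟨_, rfl⟩
    have hwS : ∀ σ, S σ w = w := by
      intro σ
      rw [hw, map_div₀, (S σ).commutes, map_prod]
      congr 1
      exact Finset.prod_congr rfl fun i _ => by rw [map_pow, hxS]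
    have hB0 : (∏ i, b i ^ r i : k) ≠ 0 := Finset.prod_ne_zero_iff.2 fun i _ => pow_ne_zero _ (hb i)
    have htΩ : algebraMap F Ω t ≠ 0 := (_root_.map_ne_zero _).2 ht0
    have hwΩ : (w : Ω) * algebraMap F Ω t = ∏ i, (x i : Ω) ^ r i := by
      have h1 : w * algebraMap F N t = ∏ i, x i ^ r i := by
        rw [hw, div_mul_cancel₀ _ ((_root_.map_ne_zero _).2 ht0)]
      have h2 := congrArg (algebraMap N Ω) h1
      rw [map_mul, map_prod] at h2
      exact h2
    have hwℓ : (w : Ω) ^ ℓ = algebraMap k Ω (d / ∏ i, b i ^ r i) := by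
      have hB0' : algebraMap k Ω (∏ i, b i ^ r i) ≠ 0 := (_root_.map_ne_zero _).2 hB0
      rw [map_div₀, eq_div_iff hB0']
      apply mul_right_cancel₀ (pow_ne_zero ℓ htΩ)
      rw [hutΩ, mul_right_comm, ← mul_pow, hwΩ, map_prod, ← Finset.prod_pow,
        ← Finset.prod_mul_distrib]
      refine Finset.prod_congr rfl fun i _ => ?_
      rw [hux, mul_pow, map_pow, ← pow_mul, ← pow_mul, mul_comm (r i) ℓ]
      ring
    obtain ⟨c, -, hc⟩ := const_of_fixed N S hcompat w hwS _ hwℓ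
    have hc0 : c ≠ 0 := by
      rintro rfl
      rw [zero_pow hℓ0] at hc
      exact div_ne_zero hd0 hB0 hc.symm
    obtain ⟨γ, hγ⟩ := HasVal.exists hϖ hc0
    have h1 : d = c ^ ℓ * ∏ i, b i ^ r i := by
      rw [hc, div_mul_cancel₀ _ hB0]
    have h2 : HasVal ϖ d ((ℓ : ℤ) * γ + ∑ i, (r i : ℤ) * v i) := by
      rw [h1]
      exact (hγ.pow hϖ ℓ).mul hϖ (HasVal.prod hϖ Finset.univ _ _ fun i _ => (hv i).pow hϖ (r i))
    rw [hd.unique hϖ h2] at hδ
    apply hδ
    exact dvd_add (dvd_mul_right _ _) (Finset.dvd_sum fun i _ => (hcon i).mul_left _)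
  obtain ⟨a, ha1, ha2⟩ := choice_a r hr hrs
  -- the new functions
  obtain ⟨y, hy⟩ : ∃ y : N, y = ∏ j ∈ Finset.univ.erase i₀, x j := ⟨_, rfl⟩
  have hyΩ : (y : Ω) = ∏ j ∈ Finset.univ.erase i₀, (x j : Ω) := by
    rw [hy]
    exact map_prod (algebraMap N Ω) _ _
  have hyS : ∀ σ, S σ y = y := by
    intro σ
    rw [hy, map_prod]
    exact Finset.prod_congr rfl fun i _ => hxS i σ
  obtain ⟨B, hB⟩ : ∃ B : k, B = ∏ j ∈ Finset.univ.erase i₀, b j := ⟨_, rfl⟩
  have hB0 : B ≠ 0 := by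
    rw [hB]
    exact Finset.prod_ne_zero_iff.2 fun i _ => hb i
  have hyℓ : algebraMap k Ω B * (y : Ω) ^ ℓ =
      ∏ j ∈ Finset.univ.erase i₀, (algebraMap F Ω u - algebraMap k Ω (ek j)) := by
    rw [hB, hyΩ, map_prod, ← Finset.prod_pow, ← Finset.prod_mul_distrib]
    exact Finset.prod_congr rfl fun j _ => (hux j).symm
  -- the polynomial
  obtain ⟨g, hg⟩ : ∃ g : A[X], g = gpol (Finset.univ.erase i₀) e (e i₀) := ⟨_, rfl⟩
  have hcard : (Finset.univ.erase i₀ : Finset ι).card = Fintype.card ι - 1 := by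
    rw [Finset.card_erase_of_mem (Finset.mem_univ _), Finset.card_univ]
  have hgm : g.Monic := by rw [hg]; exact gpol_monic _ _ _
  have hgdeg : g.natDegree = Fintype.card ι - 1 := by rw [hg, gpol_deg, hcard]
  have hg0 : IsUnit (g.coeff 0) := by
    rw [hg]
    exact gpol_coeff _ _ _ fun j hj => he j i₀ (Finset.ne_of_mem_erase hj)
  have hgs : (g.map (IsLocalRing.residue A)).Separable := by rw [hg]; exact gpol_sep _ _ _ he
  have hlc : IsUnit g.leadingCoeff := by rw [hgm.leadingCoeff]; exact isUnit_one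
  obtain ⟨gk, hgk⟩ : ∃ gk : k[X], gk = g.map (algebraMap A k) := ⟨_, rfl⟩
  have hgkprod : gk = ∏ j ∈ Finset.univ.erase i₀, (X - C (ek j - ek i₀)) := by
    rw [hgk, hg]
    unfold gpol
    rw [Polynomial.map_prod]
    refine Finset.prod_congr rfl fun j _ => ?_
    rw [Polynomial.map_sub, map_X, map_C, map_sub, heki, heki]
  have hgks : gk.Separable := by rw [hgk]; exact sep_k g hlc hgs
  have hgkdeg : gk.natDegree = Fintype.card ι - 1 := by
    rw [hgk, natDegree_map_eq_of_injective hinj, hgdeg]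
  have hgk0 : gk.coeff 0 ≠ 0 := by
    rw [hgk, coeff_map]
    exact h0 hg0.ne_zero
  have haev : ∀ {K : Type} [Field K] [Algebra k K] (U : K),
      aeval (U - algebraMap k K (ek i₀)) gk =
        ∏ j ∈ Finset.univ.erase i₀, (U - algebraMap k K (ek j)) := by
    intro K _ _ U
    rw [hgkprod, map_prod]
    refine Finset.prod_congr rfl fun j _ => ?_
    rw [map_sub, aeval_X, aeval_C, map_sub]
    ring
  -- the intermediate curve
  obtain ⟨T', hT'⟩ : ∃ T' : Ω, T' = (y : Ω) * (x i₀ : Ω) ^ a := ⟨_, rfl⟩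
  obtain ⟨r', hr'⟩ : ∃ r' : ι → ℕ, r' = fun i => if i = i₀ then a else 1 := ⟨_, rfl⟩
  have hr'1 : ∀ i, ¬ ℓ ∣ r' i := by
    intro i
    rw [hr']
    dsimp only
    split_ifs
    · exact ha1
    · exact fun h => hℓp.one_lt.ne' (Nat.dvd_one.1 h)
  have hr'0 : r' i₀ = a := by rw [hr']; simp
  have hr'j : ∀ j ∈ Finset.univ.erase i₀, r' j = 1 := by
    intro j hj
    rw [hr']
    dsimp only
    rw [if_neg (Finset.ne_of_mem_erase hj)]
  have hr's : ∑ i, r' i = a + (Fintype.card ι - 1) := by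
    rw [← Finset.add_sum_erase _ _ (Finset.mem_univ i₀), hr'0, Finset.sum_congr rfl hr'j,
      Finset.sum_const, hcard, smul_eq_mul, mul_one]
  obtain ⟨d', hd'⟩ : ∃ d' : k, d' = b i₀ ^ a * B := ⟨_, rfl⟩
  have hd'0 : d' ≠ 0 := by rw [hd']; exact mul_ne_zero (pow_ne_zero _ (hb _)) hB0
  have hT'ℓ0 : algebraMap k Ω d' * T' ^ ℓ =
      (algebraMap F Ω u - algebraMap k Ω (ek i₀)) ^ a *
        ∏ j ∈ Finset.univ.erase i₀, (algebraMap F Ω u - algebraMap k Ω (ek j)) := by
    rw [← hyℓ, hux i₀, hd', hT', map_mul, map_pow, mul_pow, mul_pow, ← pow_mul, ← pow_mul,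
      mul_comm a ℓ]
    ring
  have hT'ℓ : algebraMap k Ω d' * T' ^ ℓ =
      ∏ i, (algebraMap F Ω u - algebraMap k Ω (ek i)) ^ r' i := by
    rw [hT'ℓ0, ← Finset.mul_prod_erase _ _ (Finset.mem_univ i₀), hr'0]
    congr 1
    exact Finset.prod_congr rfl fun j hj => by rw [hr'j j hj, pow_one]
  have hgeo1 := (geomPro_exps (Ω := Ω) ek hekj hr hrs hr'1 (by rw [hr's]; exact ha2) hd0 hd'0 u t
    hu hut hF halgF T' hT'ℓ).1
  obtain ⟨F', hF'⟩ : ∃ F' : IntermediateField k Ω,
    F' = IntermediateField.adjoin k {algebraMap F Ω u, T'} := ⟨_, rfl⟩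
  rw [← hF'] at hgeo1
  have huF' : algebraMap F Ω u ∈ F' := by
    rw [hF']; exact IntermediateField.subset_adjoin k _ (by simp)
  have hTF' : T' ∈ F' := by rw [hF']; exact IntermediateField.subset_adjoin k _ (by simp)
  haveI halgF' : Algebra.IsAlgebraic F' Ω := alg_over halgF F' huF'
  have hU₀F' : algebraMap F Ω u - algebraMap k Ω (ek i₀) ∈ F' :=
    sub_mem huF' (IntermediateField.algebraMap_mem _ _)
  have hF'2 : F' = IntermediateField.adjoin k
      {algebraMap F Ω u - algebraMap k Ω (ek i₀), T'} := by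
    apply le_antisymm
    · rw [hF', IntermediateField.adjoin_le_iff]
      rintro w (hw | hw)
      · rw [hw]
        have h1 : algebraMap F Ω u - algebraMap k Ω (ek i₀) ∈ IntermediateField.adjoin k
            {algebraMap F Ω u - algebraMap k Ω (ek i₀), T'} :=
          IntermediateField.subset_adjoin k _ (by simp)
        have h2 := add_mem h1 (IntermediateField.algebraMap_mem (IntermediateField.adjoin k
            {algebraMap F Ω u - algebraMap k Ω (ek i₀), T'}) (ek i₀))
        rwa [sub_add_cancel] at h2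
      · rw [Set.mem_singleton_iff.1 hw]
        exact IntermediateField.subset_adjoin k _ (by simp)
    · rw [IntermediateField.adjoin_le_iff]
      rintro w (hw | hw)
      · rw [hw]; exact hU₀F'
      · rw [Set.mem_singleton_iff.1 hw]; exact hTF'
  have htopF' := adjoin_pair_top hF'2 hU₀F' hTF'
  have hU₀t : Transcendental k (algebraMap F Ω u - algebraMap k Ω (ek i₀)) := by
    intro h
    apply huΩ
    have := h.add (isAlgebraic_algebraMap (ek i₀))
    rwa [sub_add_cancel] at this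
  have hU₀t' : Transcendental k (⟨_, hU₀F'⟩ : F') := by
    rw [← transcendental_algebraMap_iff (R := k) (A := Ω) (algebraMap F' Ω).injective]
    exact hU₀t
  have heqF' : algebraMap k F' d' * (⟨T', hTF'⟩ : F') ^ ℓ =
      (⟨_, hU₀F'⟩ : F') ^ a * aeval (⟨_, hU₀F'⟩ : F') gk := by
    apply (algebraMap F' Ω).injective
    rw [map_mul, map_mul, map_pow, map_pow, ← aeval_algebraMap_apply,
      ← IsScalarTower.algebraMap_apply]
    change algebraMap k Ω d' * T' ^ ℓ = (algebraMap F Ω u - algebraMap k Ω (ek i₀)) ^ a *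
      aeval (algebraMap F Ω u - algebraMap k Ω (ek i₀)) gk
    rw [hT'ℓ0, haev]
  have halgF'' : Algebra.IsAlgebraic (IntermediateField.adjoin k {(⟨_, hU₀F'⟩ : F')}) F' := by
    refine Pool.Agent.Y157.PS.alg_of_eqn hℓp.pos (X ^ a * gk) d' hd'0 _ _ ?_ htopF'
    rw [heqF', map_mul, map_pow, aeval_X]
  have hgeo2 := geomPro_eq2 (Ω := Ω) (F := F') ha1 gk hgks hgk0 (by rw [hgkdeg]; exact ha2)
    (by rw [hgkdeg]; omega) (hb i₀) hd'0 _ _ hU₀t' heqF' htopF' halgF'' (x i₀ : Ω) (y : Ω)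
    (by exact hux i₀) (by exact hT')
  have hgeo : ∀ z : Ω, z ∈ geomPro ℓ k (IntermediateField.adjoin k {(x i₀ : Ω), (y : Ω)}) Ω ↔
      z ∈ geomPro ℓ k F Ω := fun z => (hgeo2 z).trans (hgeo1 z)
  -- the twist by rotations
  have hxE : (x i₀ : Ω) ∈ IntermediateField.adjoin k {(x i₀ : Ω), (y : Ω)} :=
    IntermediateField.subset_adjoin k _ (by simp)
  have huE : algebraMap F Ω u ∈ IntermediateField.adjoin k {(x i₀ : Ω), (y : Ω)} := by
    have h1 : algebraMap F Ω u = algebraMap k Ω (b i₀) * (x i₀ : Ω) ^ ℓ +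
        algebraMap k Ω (ek i₀) := by rw [← hux, sub_add_cancel]
    rw [h1]
    exact add_mem (mul_mem (IntermediateField.algebraMap_mem _ _) (pow_mem hxE _))
      (IntermediateField.algebraMap_mem _ _)
  haveI halg₁ : Algebra.IsAlgebraic (IntermediateField.adjoin k {(x i₀ : Ω), (y : Ω)}) Ω :=
    alg_over halgF _ huE
  have hxt : Transcendental k (x i₀ : Ω) := by
    intro h
    apply hU₀t
    rw [hux]
    exact (isAlgebraic_algebraMap _).mul (h.pow ℓ)
  have hxy : algebraMap k Ω B * (y : Ω) ^ ℓ =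
      aeval (algebraMap k Ω (b i₀) * (x i₀ : Ω) ^ (ℓ ^ 1)) (g.map (algebraMap A k)) := by
    rw [pow_one, ← hux, ← hgk, haev, hyℓ]
  have hexp : (expand A (ℓ ^ 1) g) = g.comp (C 1 * X ^ ℓ) := by
    rw [pow_one, expand_eq_comp_X_pow, C_1, one_mul]
  have hes : ((expand A (ℓ ^ 1) g).map (IsLocalRing.residue A)).Separable := by
    rw [hexp, map_comp, Polynomial.map_mul, map_C, Polynomial.map_pow, map_X]
    refine sep_comp hgs ?_ ?_ ?_
    · rw [coeff_map]
      exact (hg0.map _).ne_zero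
    · have hres : IsUnit (IsLocalRing.residue A (ℓ : A)) := hℓ.map _
      rw [map_natCast] at hres
      exact hres.ne_zero
    · rw [map_one]
      exact one_ne_zero
  have he3 : 3 ≤ (expand A (ℓ ^ 1) g).natDegree := by
    rw [natDegree_expand, hgdeg, pow_one]
    by_contra hlt
    push Not at hlt
    have h2 := hℓp.two_le
    have h7 : 1 ≤ Fintype.card ι - 1 := by omega
    have h4 : Fintype.card ι - 1 = 1 := by nlinarith
    have h5 : ℓ = 2 := by
      rw [h4, one_mul] at hlt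
      omega
    subst h5
    have h6 : Fintype.card ι = 2 := by omega
    rw [h4] at ha2
    omega
  obtain ⟨w₀, hw₀, hbw⟩ := hv i₀
  obtain ⟨W, ⟨⟨g1, g2, g3⟩, g4⟩, g5⟩ := caseR3 hℓ (le_refl 1) g hlc hes he3 ϖ hϖ (b i₀) B (v i₀)
    (by rw [pow_one]; exact hi₀) w₀ hw₀ hbw hB0 N hN S hcont hcompat (x i₀) y (hxS i₀) hyS hxt hxy
    hgeo
  -- the conditions
  have hkN : ∀ c : k, algebraMap F N (algebraMap k F c) = algebraMap k N c := fun c =>
    (IsScalarTower.algebraMap_apply k F N c).symm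
  have hk' : ∀ V : ValuationSubring N, (∀ c : k, algebraMap F N (algebraMap k F c) ∈ V) →
      ∀ c : k, algebraMap k N c ∈ V := fun V hV c => by rw [← hkN]; exact hV c
  have huN : ∀ i, algebraMap F N (u - algebraMap k F (ek i)) = algebraMap k N (b i) * x i ^ ℓ := by
    intro i
    apply Subtype.ext
    change algebraMap F Ω (u - algebraMap k F (ek i)) = algebraMap N Ω (algebraMap k N (b i) * x i ^ ℓ)
    rw [hΩ, hux, map_mul, ← IsScalarTower.algebraMap_apply, map_pow]
    rfl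
  have hiff0 : ∀ V : ValuationSubring N, (∀ c : k, algebraMap F N (algebraMap k F c) ∈ V) → ∀ i,
      (algebraMap F N (u - algebraMap k F (ek i)) ∈ V.nonunits ↔ x i ∈ V.nonunits) := by
    intro V hV i
    rw [huN, const_mul_non_iff V (hk' V hV) (hb i), pow_non_iff V hℓ0]
  have hiff1 : ∀ V : ValuationSubring N, (∀ c : k, algebraMap F N (algebraMap k F c) ∈ V) → ∀ i,
      ((x i)⁻¹ ∈ V.nonunits ↔ algebraMap F N (u - algebraMap k F (ek i)) ∉ V) := by
    intro V hV i
    have h1 : (x i)⁻¹ ∈ V.nonunits ↔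
        (algebraMap F N (u - algebraMap k F (ek i)))⁻¹ ∈ V.nonunits := by
      rw [huN, mul_inv, ← map_inv₀, const_mul_non_iff V (hk' V hV) (inv_ne_zero (hb i)), ← inv_pow,
        pow_non_iff V hℓ0]
    rw [h1]
    constructor
    · intro h2 h3
      rw [ValuationSubring.mem_nonunits_iff_or, inv_inv] at h2
      rcases h2 with h2 | h2
      · exact hua (ek i) ((_root_.map_eq_zero _).1 (inv_eq_zero.1 h2))
      · exact h2 h3
    · exact non_inv V
  have hiff2 : ∀ V : ValuationSubring N, (∀ c : k, algebraMap F N (algebraMap k F c) ∈ V) → ∀ i,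
      (algebraMap F N (u - algebraMap k F (ek i)) ∈ V ↔ algebraMap F N u ∈ V) := by
    intro V hV i
    rw [map_sub]
    constructor
    · intro h
      have := add_mem h (hV (ek i))
      rwa [sub_add_cancel] at this
    · intro h
      exact sub_mem h (hV _)
  have hiff3 : ∀ V : ValuationSubring N,
      (algebraMap F N u⁻¹ ∈ V.nonunits ↔ algebraMap F N u ∉ V) := by
    intro V
    have hu0 : algebraMap F N u ≠ 0 := by
      rw [Ne, _root_.map_eq_zero]
      rintro rfl
      exact hu isAlgebraic_zero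
    rw [map_inv₀]
    constructor
    · intro h2 h3
      rw [ValuationSubring.mem_nonunits_iff_or, inv_inv] at h2
      rcases h2 with h2 | h2
      · exact hu0 (inv_eq_zero.1 h2)
      · exact h2 h3
    · exact non_inv V
  refine ⟨W, ⟨⟨g1, ?_, g3⟩, g4⟩, fun W' b1 b2 b3 => g5 W' b1 ?_ b3⟩
  · rcases g2 with h | h
    · exact Or.inl ⟨i₀, (hiff0 W g1 i₀).2 h⟩
    · refine Or.inr ((hiff3 W).2 fun h1 => (hiff1 W g1 i₀).1 h ((hiff2 W g1 i₀).2 h1))
  · rcases b2 with ⟨i, hi⟩ | h
    · by_cases hii : i = i₀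
      · rw [hii] at hi
        exact Or.inl ((hiff0 W' b1 i₀).1 hi)
      · refine Or.inr (Or.inr ?_)
        have h1 : aeval (algebraMap k N (b i₀) * x i₀ ^ (ℓ ^ 1)) (g.map (algebraMap A k)) =
            ∏ j ∈ Finset.univ.erase i₀, algebraMap F N (u - algebraMap k F (ek j)) := by
          rw [pow_one, ← huN, ← hgk, map_sub, hkN, haev]
          exact Finset.prod_congr rfl fun j _ => by rw [map_sub, hkN]
        have huW : algebraMap F N u ∈ W' := (hiff2 W' b1 i).1 (non_mem' W' hi)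
        rw [h1, ← Finset.mul_prod_erase _ _ (Finset.mem_erase.2 ⟨hii, Finset.mem_univ i⟩),
          mul_comm]
        refine mul_non W' ?_ hi
        exact prod_mem fun j _ => (hiff2 W' b1 j).2 huW
    · exact Or.inr (Or.inl ((hiff1 W' b1 i₀).2 fun h1 => (hiff3 W').1 h
        ((hiff2 W' b1 i₀).1 h1)))

end main

end Pool.Agent.K1H74.SC
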