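import Pool.Agent.K1H74.SC.E7

/-!
# Cyclic coverings with arbitrary ramification exponents over the larger field
-/

set_option autoImplicit false
set_option linter.all false

namespace Pool.Agent.K1H74.SC

open Pool.Agent.Y157.PS Pool.Agent.K1H4.SC Polynomial

/-- the branch points of `d t ^ ℓ = ∏ (u - e i) ^ (r i)` -/
theorem branch_iff2 {k K : Type} [Field k] [Field K] [Algebra k K] (V : ValuationSubring K)
    (h : ∀ c : k, algebraMap k K c ∈ V) {ι : Type} [Fintype ι] (e : ι → k) {r : ι → ℕ}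
    (hr : ∀ i, r i ≠ 0) (u : K) :
    (aeval u (∏ i, (X - C (e i)) ^ r i : k[X]) ∈ V.nonunits ∨ u⁻¹ ∈ V.nonunits) ↔
      ((∃ i, u - algebraMap k K (e i) ∈ V.nonunits) ∨ u⁻¹ ∈ V.nonunits) := by
  classical
  by_cases hu : u ∈ V
  · have h1 : ∀ s : Finset ι, (aeval u (∏ i ∈ s, (X - C (e i)) ^ r i : k[X]) ∈ V.nonunits ↔
        ∃ i ∈ s, u - algebraMap k K (e i) ∈ V.nonunits) := by
      intro s
      induction s using Finset.induction_on with
      | empty =>
        rw [Finset.prod_empty, map_one, ValuationSubring.mem_nonunits_iff, map_one]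
        simp
      | insert a s ha ih =>
        rw [Finset.prod_insert ha, map_mul, non_mul_iff V (aeval_mem V h hu _)
          (aeval_mem V h hu _), ih, map_pow, pow_non_iff V (hr a), map_sub, aeval_X, aeval_C]
        simp
    rw [h1]
    simp
  · have h1 := non_inv V hu
    tauto

variable {A' k' F₀ Ω : Type} [CommRing A'] [IsDomain A'] [IsDiscreteValuationRing A']
  [IsAdicComplete (IsLocalRing.maximalIdeal A') A'] [Finite (IsLocalRing.ResidueField A')]
  [Field k'] [CharZero k'] [Algebra A' k'] [IsFractionRing A' k'] [Field F₀] [Field Ω]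
  [Algebra F₀ Ω] [Algebra k' Ω] [IsAlgClosed Ω] [Algebra.IsAlgebraic F₀ Ω]

theorem uniq_exps {ℓ : ℕ} [hp : Fact ℓ.Prime] (hℓ : IsUnit (ℓ : A')) {ι : Type} [Fintype ι]
    [DecidableEq ι] (hι : 2 ≤ Fintype.card ι) (e : ι → A') (he : ∀ i j, i ≠ j → IsUnit (e i - e j))
    (r : ι → ℕ) (hr : ∀ i, ¬ ℓ ∣ r i) (hrs : ¬ ℓ ∣ ∑ i, r i) (ϖ : A') (hϖ : Irreducible ϖ)
    (d : k') (δ : ℤ) (hδ : ¬ (ℓ : ℤ) ∣ δ) (w : A') (hw : IsUnit w)
    (hd : d = algebraMap A' k' w * algebraMap A' k' ϖ ^ δ)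
    (u t : Ω) (hu : Transcendental k' u)
    (hut : algebraMap k' Ω d * t ^ ℓ = aeval u (∏ i, (X - C (algebraMap A' k' (e i))) ^ r i : k'[X]))
    (hF : IntermediateField.adjoin k' {u, t} =
      IntermediateField.adjoin k' (Set.range (algebraMap F₀ Ω))) :
    Unique1 ℓ k' (IntermediateField.adjoin k' {u, t}) Ω
      (fun V => aeval u (∏ i, (X - C (algebraMap A' k' (e i))) ^ r i : k'[X]) ∈ V.nonunits ∨
        u⁻¹ ∈ V.nonunits) := by
  have halgF : Algebra.IsAlgebraic (IntermediateField.adjoin k' {u, t}) Ω := alg_up _ hF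
  set F : IntermediateField k' Ω := IntermediateField.adjoin k' {u, t} with hFdef
  have hr0 : ∀ i, r i ≠ 0 := by
    intro i h
    apply hr i
    rw [h]
    exact dvd_zero _
  have hd0 : d ≠ 0 := by
    rw [hd]
    refine mul_ne_zero ?_ (zpow_ne_zero _ ?_)
    · rw [Ne, map_eq_zero_iff _ (IsFractionRing.injective A' k')]
      exact hw.ne_zero
    · rw [Ne, map_eq_zero_iff _ (IsFractionRing.injective A' k')]
      exact hϖ.ne_zero
  let u' : F := ⟨u, IntermediateField.subset_adjoin _ _ (by simp)⟩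
  let t' : F := ⟨t, IntermediateField.subset_adjoin _ _ (by simp)⟩
  have hu' : Transcendental k' u' := by
    intro h1
    exact hu (h1.algebraMap (A := Ω))
  have hut0 : algebraMap k' F d * t' ^ ℓ =
      aeval u' (∏ i, (X - C (algebraMap A' k' (e i))) ^ r i : k'[X]) := by
    apply Subtype.ext
    exact hut.trans (aeval_algebraMap_apply Ω u' _)
  have hut' : algebraMap k' F d * t' ^ ℓ =
      ∏ i, (u' - algebraMap k' F (algebraMap A' k' (e i))) ^ r i := by
    rw [hut0, map_prod]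
    exact Finset.prod_congr rfl fun i _ => by rw [map_pow, map_sub, aeval_X, aeval_C]
  have hF' : IntermediateField.adjoin k' {u', t'} = (⊤ : IntermediateField k' F) :=
    adjoin_top u t u' t' rfl rfl
  have halg' : Algebra.IsAlgebraic (IntermediateField.adjoin k' {u'}) F :=
    Pool.Agent.Y157.PS.alg_of_eqn hp.out.pos _ d hd0 u' t' hut0 hF'
  intro M hM S hS hcompat
  obtain ⟨W, ⟨⟨g1, g2, g3⟩, g4⟩, g5⟩ := mainE hℓ hι e he r hr hrs ϖ hϖ d δ hδ ⟨w, hw, hd⟩ u' t'
    hu' hut' hF' halg' M hM S hS hcompat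
  have hn : ∀ (V : ValuationSubring Ω) (z : F),
      algebraMap F M z ∈ (V.comap (algebraMap M Ω)).nonunits ↔ (z : Ω) ∈ V.nonunits := by
    intro V z
    exact non_incl (algebraMap M Ω) V (algebraMap F M z)
  have hAt : ∀ V : ValuationSubring Ω, (∀ c : k', algebraMap k' Ω c ∈ V) →
      (AtBranch2 (fun i => algebraMap A' k' (e i)) u' (V.comap (algebraMap M Ω)) ↔
        (aeval u (∏ i, (X - C (algebraMap A' k' (e i))) ^ r i : k'[X]) ∈ V.nonunits ∨
          u⁻¹ ∈ V.nonunits)) := by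
    intro V hV
    rw [branch_iff2 V hV _ hr0]
    unfold AtBranch2
    simp only [hn]
    exact Iff.rfl
  refine ⟨W, g1, fun V hV => ?_, g3, g4, fun V hV hQ hS' z hz => ?_⟩
  · subst hV
    exact (hAt V fun c => g1 c).1 g2
  · have h1 := g5 (V.comap (algebraMap M Ω)) (fun c => hV c) ((hAt V hV).2 hQ)
      (fun σ w hw => hS' σ w hw) z hz
    exact h1

end Pool.Agent.K1H74.SC
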