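import Pool.Agent.K1H74.SC.A7
import Pool.Agent.V11235.SL.Res
import Pool.Agent.V11235.SL.Uni

/-!
# Uniqueness of the section of a place, and residue fields
-/

set_option autoImplicit false
set_option linter.all false

open Polynomial FF

namespace Pool.Agent.K1H74.SC

open Pool.Agent.Y157.PS

section proof

variable {ℓ : ℕ} {k F Ω : Type} [Field k] [CharZero k] [Field F] [Field Ω] [Algebra k F]
  [Algebra F Ω] [Algebra k Ω] [IsScalarTower k F Ω] [IsAlgClosed Ω] [Algebra.IsAlgebraic F Ω]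

/-- the algebraic closure of `k` inside `N` -/
def iota (N : IntermediateField F Ω) (hN : geomPro ℓ k F Ω ≤ N) : algebraicClosure k Ω →+* N where
  toFun c := ⟨(c : Ω), hN (const_geomPro ℓ k c)⟩
  map_one' := Subtype.ext rfl
  map_mul' := fun _ _ => Subtype.ext rfl
  map_zero' := Subtype.ext rfl
  map_add' := fun _ _ => Subtype.ext rfl

omit [CharZero k] [IsAlgClosed Ω] [Algebra.IsAlgebraic F Ω] in
theorem iota_k (N : IntermediateField F Ω) (hN : geomPro ℓ k F Ω ≤ N) (c : k) :
    iota N hN (algebraMap k (algebraicClosure k Ω) c) = algebraMap F N (algebraMap k F c) := by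
  apply Subtype.ext
  change algebraMap k Ω c = algebraMap F Ω (algebraMap k F c)
  exact IsScalarTower.algebraMap_apply k F Ω c

omit [CharZero k] [Algebra.IsAlgebraic F Ω] in
theorem iota_mem (N : IntermediateField F Ω) (hN : geomPro ℓ k F Ω ≤ N) (W : ValuationSubring N)
    (h1 : ∀ c : k, algebraMap F N (algebraMap k F c) ∈ W) (c : algebraicClosure k Ω) :
    iota N hN c ∈ W := by
  have hc : IsIntegral k c := (Algebra.IsAlgebraic.isAlgebraic (R := k) c).isIntegral
  obtain ⟨p, hp, hpc⟩ := hc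
  refine alg_mem ((algebraMap F N).comp (algebraMap k F)) W h1 _ p hp ?_
  have h1 : (algebraMap F N).comp (algebraMap k F) =
      (iota N hN).comp (algebraMap k (algebraicClosure k Ω)) := by
    ext c
    exact congrArg Subtype.val (iota_k N hN c).symm
  rw [h1, ← hom_eval₂, hpc, map_zero]

omit [CharZero k] in
theorem exists_res (N : IntermediateField F Ω) (hN : geomPro ℓ k F Ω ≤ N)
    (W : ValuationSubring N) (h1 : ∀ c : k, algebraMap F N (algebraMap k F c) ∈ W)
    (h3 : ∀ z : F, algebraMap F N z ∈ W →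
      ∃ c : k, algebraMap F N (z - algebraMap k F c) ∈ W.nonunits) (z : N) (hz : z ∈ W) :
    ∃ c, z - iota N hN c ∈ W.nonunits := by
  have halg : Algebra.IsAlgebraic F Ω := inferInstance
  have hacl : IsAlgClosure k (algebraicClosure k Ω) := inferInstance
  have hclK : IsAlgClosed (algebraicClosure k Ω) := hacl.isAlgClosed
  have hzalg : IsAlgebraic F z := by
    have h2 : IsAlgebraic F (z : Ω) := halg.isAlgebraic _
    exact (isAlgebraic_algebraMap_iff (R := F) (S := N) (A := Ω) (algebraMap N Ω).injective).1 h2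
  exact Pool.Agent.V11235.SL.residue_alg (iota N hN) (iota_k N hN) W (iota_mem N hN W h1) h3 z
    hzalg hz

/-- there is only one section for every point -/
theorem unique_sec (N : IntermediateField F Ω) (hN : geomPro ℓ k F Ω ≤ N)
    (S S' : (algebraicClosure k Ω ≃ₐ[k] algebraicClosure k Ω) →* (N ≃ₐ[F] N))
    (hcompat : ∀ σ (c : algebraicClosure k Ω) (z : N), (z : Ω) = (c : Ω) →
      (S σ z : Ω) = (σ c : Ω))
    (hcompat' : ∀ σ (c : algebraicClosure k Ω) (z : N), (z : Ω) = (c : Ω) →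
      (S' σ z : Ω) = (σ c : Ω)) (W : ValuationSubring N)
    (h1 : ∀ c : k, algebraMap F N (algebraMap k F c) ∈ W)
    (h3 : ∀ z : F, algebraMap F N z ∈ W →
      ∃ c : k, algebraMap F N (z - algebraMap k F c) ∈ W.nonunits)
    (h4 : ∀ σ, ∀ z : N, (z : Ω) ∈ geomPro ℓ k F Ω → (S σ z ∈ W ↔ z ∈ W))
    (h4' : ∀ σ, ∀ z : N, (z : Ω) ∈ geomPro ℓ k F Ω → (S' σ z ∈ W ↔ z ∈ W)) :
    ∀ σ, ∀ z : N, (z : Ω) ∈ geomPro ℓ k F Ω → S σ z = S' σ z := by
  have hc0 : CharZero Ω := charZero_of_injective_algebraMap (algebraMap k Ω).injective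
  intro σ
  let τ : N ≃ₐ[F] N := (S σ).trans (S' σ).symm
  have hτ : ∀ z : N, S' σ (τ z) = S σ z := fun z => (S' σ).apply_symm_apply _
  have hfixc : ∀ c : algebraicClosure k Ω, τ (iota N hN c) = iota N hN c := by
    intro c
    apply (S' σ).injective
    rw [hτ]
    apply Subtype.ext
    exact (hcompat σ c (iota N hN c) rfl).trans (hcompat' σ c (iota N hN c) rfl).symm
  have hgeo : geomF k F Ω ≤ Pool.Agent.V11235.SL.fixF N τ := by
    refine IntermediateField.adjoin_le_iff.2 fun c hc => ?_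
    exact ⟨hN (const_geomPro ℓ k ⟨c, hc⟩), hfixc ⟨c, hc⟩⟩
  have hL : ∀ L : {L : IntermediateField (geomF k F Ω) Ω // Lev ℓ L ∧
      Unr k (geomF k F Ω) Ω L}, L.1 ≤ IntermediateField.extendScalars hgeo := by
    rintro ⟨L, hlev, hun⟩
    haveI := hlev.fin
    haveI := hlev.gal
    intro z hz
    change z ∈ L at hz
    have hLM : ∀ z ∈ L, z ∈ geomPro ℓ k F Ω := by
      intro z hz
      have h5 : L ≤ maxPro ℓ k (geomF k F Ω) Ω :=
        le_iSup (fun L : {L : IntermediateField (geomF k F Ω) Ω // Lev ℓ L ∧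
          Unr k (geomF k F Ω) Ω L} => L.1) ⟨L, hlev, hun⟩
      exact h5 hz
    have hLN : ∀ z ∈ L, z ∈ N := fun z hz => hN (hLM z hz)
    obtain ⟨V, hV⟩ := a_extv N Ω W
    have hVW : ∀ w : N, (w : Ω) ∈ V ↔ w ∈ W := by
      intro w
      rw [← hV]
      rfl
    have hkV : ∀ c : k, algebraMap k Ω c ∈ V := by
      intro c
      have h5 := (hVW (algebraMap F N (algebraMap k F c))).2 (h1 c)
      rw [IsScalarTower.algebraMap_apply k F Ω c]
      exact h5
    refine ⟨hLN z hz, ?_⟩
    refine Pool.Agent.V11235.SL.triv (geomF k F Ω) N L hLN W (iota N hN) (iota_mem N hN W h1)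
      (fun c => IntermediateField.subset_adjoin _ _ c.2) τ (fun w hw => (hgeo hw).2)
      (exists_res N hN W h1 h3) ?_ ?_ ⟨z, hLN z hz⟩ hz
    · intro w hw hw0
      have hw0' : (w : Ω) ≠ 0 := fun h => hw0 (Subtype.ext h)
      obtain ⟨t, ht0, -, h5, h6⟩ := hun V hkV w hw hw0'
      refine ⟨⟨(t : Ω), hLN _ (L.algebraMap_mem t)⟩, t.2, fun h => ht0 (Subtype.ext ?_),
        (hVW _).1 h5, (hVW _).1 h6⟩
      exact congrArg (fun r : N => (r : Ω)) h
    · intro w hw hw'
      rw [← h4 σ w (hLM _ hw), ← h4' σ (τ w) (hLM _ hw'), hτ]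
  intro z hz
  have h5 : (z : Ω) ∈ IntermediateField.extendScalars hgeo := (iSup_le hL) hz
  obtain ⟨h6, h7⟩ := (IntermediateField.mem_extendScalars hgeo).1 h5
  have h8 : τ z = z := h7
  rw [← hτ z, h8]

/-- residues of the elements fixed by the section -/
theorem rational_res (N : IntermediateField F Ω) (hN : geomPro ℓ k F Ω ≤ N)
    (S : (algebraicClosure k Ω ≃ₐ[k] algebraicClosure k Ω) →* (N ≃ₐ[F] N))
    (hcompat : ∀ σ (c : algebraicClosure k Ω) (z : N), (z : Ω) = (c : Ω) →
      (S σ z : Ω) = (σ c : Ω)) (W : ValuationSubring N)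
    (h1 : ∀ c : k, algebraMap F N (algebraMap k F c) ∈ W)
    (hres : ∀ z : N, z ∈ W → ∃ c, z - iota N hN c ∈ W.nonunits)
    (h4 : ∀ σ, ∀ z : N, (z : Ω) ∈ geomPro ℓ k F Ω → (S σ z ∈ W ↔ z ∈ W)) (z : N)
    (hzM : (z : Ω) ∈ geomPro ℓ k F Ω) (hzS : ∀ σ, S σ z = z) (hz : z ∈ W) :
    ∃ c : k, z - algebraMap F N (algebraMap k F c) ∈ W.nonunits := by
  have hacl : IsAlgClosure k (algebraicClosure k Ω) := inferInstance
  have hclK : IsAlgClosed (algebraicClosure k Ω) := hacl.isAlgClosed
  obtain ⟨c, hc⟩ := hres z hz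
  -- `c` is fixed
  have hfix : ∀ σ : algebraicClosure k Ω ≃ₐ[k] algebraicClosure k Ω, σ c = c := by
    intro σ
    have hw : ((z - iota N hN c : N) : Ω) ∈ geomPro ℓ k F Ω :=
      sub_mem hzM (const_geomPro ℓ k c)
    have h5 : S σ (z - iota N hN c) ∈ W.nonunits := by
      rw [ValuationSubring.mem_nonunits_iff_or] at hc ⊢
      rcases hc with h | h
      · left
        rw [h, map_zero]
      · right
        rw [← map_inv₀]
        intro h6
        apply h
        refine (h4 σ _ ?_).1 h6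
        exact inv_mem hw
    have h6 : S σ (iota N hN c) = iota N hN (σ c) := by
      apply Subtype.ext
      exact hcompat σ c (iota N hN c) rfl
    rw [map_sub, hzS, h6] at h5
    by_contra hne
    have h7 : iota N hN (σ c - c) ∈ W.nonunits := by
      rw [ValuationSubring.mem_nonunits_iff] at h5 hc ⊢
      have h8 : iota N hN (σ c - c) = (z - iota N hN c) - (z - iota N hN (σ c)) := by
        rw [map_sub]
        ring
      rw [h8]
      exact (Valuation.map_sub _ _ _).trans_lt (max_lt hc h5)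
    have h8 := mul_non W (iota_mem N hN W h1 (σ c - c)⁻¹) h7
    rw [← map_mul, inv_mul_cancel₀ (sub_ne_zero.2 hne), map_one,
      ValuationSubring.mem_nonunits_iff, map_one] at h8
    exact lt_irrefl _ h8
  have hgal : IsGalois k (algebraicClosure k Ω) := by
    have hn : Normal k (algebraicClosure k Ω) := IsAlgClosure.normal k _
    exact ⟨⟩
  obtain ⟨a, ha⟩ := IntermediateField.mem_bot.1 ((InfiniteGalois.mem_bot_iff_fixed c).2 hfix)
  refine ⟨a, ?_⟩
  rw [← iota_k N hN, ha]
  exact hc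

end proof

end Pool.Agent.K1H74.SC
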